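import Pool.Agent.H.MP_83e36b_nt.rf.SDefR

/-! Existence of the values over an algebraically closed field. -/

set_option autoImplicit false

open Polynomial

namespace NF83

variable {kk : Type} [Field kk] [CharZero kk]

private theorem Ext_fix {M : Type} [Field M] [Algebra kk M] {G : Type} [Group G]
    (β : G →* (M ≃ₐ[kk] M)) {A : Subalgebra kk M} (hA : ∀ g, ∀ c ∈ A, β g c = c) (g : G) (p : A[X])
    (z : M) : aeval (β g z) p = β g (aeval z p) := by
  have h1 : (RingHomClass.toRingHom (β g)).comp (algebraMap A M) = algebraMap A M := by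
    ext c
    exact hA g c c.2
  have h2 := Polynomial.hom_eval₂ p (algebraMap A M) (RingHomClass.toRingHom (β g)) z
  rw [h1] at h2
  exact h2.symm

/-- the coefficients of a polynomial which vanishes at `y` -/
private theorem Ext_key {M : Type} [Field M] [Algebra kk M] {G : Type} [Group G] [Fintype G]
    (β : G →* (M ≃ₐ[kk] M)) {A : Subalgebra kk M} (hA : ∀ g, ∀ c ∈ A, β g c = c) {y : M}
    {Φ : A[X]} (hΦ : Φ.map (algebraMap A M) = ∏ g, (X - C (β g y))) (hd : Φ.Separable) :
    Φ.Monic ∧ Φ.natDegree = Fintype.card G ∧ ∀ p : A[X], aeval y p = 0 → Φ ∣ p := by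
  classical
  have hinjA : Function.Injective (algebraMap A M) := Subtype.val_injective
  have hmon : Φ.Monic := by
    have h1 : (Φ.map (algebraMap A M)).Monic := by
      rw [hΦ]
      exact monic_prod_of_monic _ _ fun g _ => monic_X_sub_C _
    exact hinjA.monic_map_iff.2 h1
  have hdeg : Φ.natDegree = Fintype.card G := by
    have h1 := congrArg natDegree hΦ
    rw [hmon.natDegree_map, natDegree_prod_of_monic _ _ fun g _ => monic_X_sub_C _] at h1
    simp only [natDegree_X_sub_C, Finset.sum_const, Finset.card_univ, smul_eq_mul, mul_one] at h1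
    exact h1
  refine ⟨hmon, hdeg, fun p hp => ?_⟩
  have hdist : Function.Injective fun g => β g y := by
    have h1 := hd.map (f := algebraMap A M)
    rw [hΦ] at h1
    exact separable_prod_X_sub_C_iff.1 h1
  have hne : Φ ≠ 1 := by
    intro h
    rw [h, natDegree_one] at hdeg
    exact Fintype.card_ne_zero hdeg.symm
  have h1 : (p %ₘ Φ).map (algebraMap A M) = 0 := by
    refine eq_zero_of_natDegree_lt_card_of_eval_eq_zero _ hdist (fun g => ?_) ?_
    · rw [eval_map, ← aeval_def, modByMonic_eq_sub_mul_div, map_sub, map_mul,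
        Ext_fix β hA g p y, hp, map_zero]
      have h2 : aeval (β g y) Φ = 0 := by
        rw [aeval_def, ← eval_map, hΦ, eval_prod]
        refine Finset.prod_eq_zero (Finset.mem_univ g) ?_
        rw [eval_sub, eval_X, eval_C, sub_self]
      rw [h2, zero_mul, sub_zero]
    · rw [← hdeg]
      exact lt_of_le_of_lt (natDegree_map_le) (natDegree_modByMonic_lt p hmon hne)
  exact (modByMonic_eq_zero_iff_dvd hmon).1
    ((Polynomial.map_eq_zero_iff hinjA).1 h1)

/-- Proof: let `r₁` be a root of `Φ.map ψ` (monic of degree `card G ≥ 1`), and let `B` be the subring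
`{p(y) : p ∈ A[X]}` of `M` (the range of `eval₂RingHom (algebraMap A M) y`).  If `p(y) = 0` then, the
coefficients being fixed, `p(β g y) = 0` for all `g`, and the `β g y` are distinct (`Φ` is separable),
so `Φ ∣ p` (`p %ₘ Φ` is zero: `Φ` is monic).  So there is a homomorphism `θ : B → Ω` with
`θ (p(y)) = p^ψ(r₁)`.  `β g y = R g (y) ∈ B`, `r g = θ (β g y)`; `i K ⊆ B` (`hQ`, `ha`, `kk ⊆ A`),
`κ = θ ∘ i`.  `root`: `Φ = ∏ (X - β g y)` over `B`; `mul`: `R h (β g y) = β g (R h (y)) = β (g h) y`;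
`kap`: `Q (β g y) = β g (i a) = i (α g a)`; `inj`: `Φ.map ψ` is separable
(`separable_prod_X_sub_C_iff`). -/
theorem spec_ext {M : Type} [Field M] [Algebra kk M] {G : Type} [Group G] [Fintype G]
    (β : G →* (M ≃ₐ[kk] M)) {A : Subalgebra kk M} (hA : ∀ g, ∀ c ∈ A, β g c = c)
    {K : Type} [Field K] [Algebra kk K] (i : K →+* M)
    (hik : i.comp (algebraMap kk K) = algebraMap kk M) (α : G →* (K ≃ₐ[kk] K))
    (hi : ∀ g x, β g (i x) = i (α g x)) {a : K} (ha : ∀ x : K, ∃ u : kk[X], x = aeval a u) {y : M}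
    {Φ : A[X]} (hΦ : Φ.map (algebraMap A M) = ∏ g, (X - C (β g y))) {R : G → A[X]}
    (hR : ∀ g, aeval y (R g) = β g y) {Q : A[X]} (hQ : aeval y Q = i a) (hd : Φ.Separable)
    {Ω : Type} [Field Ω] [IsAlgClosed Ω] (ψ : A →+* Ω) :
    ∃ (r : G → Ω) (κ : K →+* Ω), SpecPt Φ R Q α a ψ r κ ∧
      κ.comp (algebraMap kk K) = ψ.comp (algebraMap kk A) := by
  classical
  obtain ⟨hmon, hdeg, hkey⟩ := Ext_key β hA hΦ hd
  obtain ⟨r₁, hr₁⟩ : ∃ r₁ : Ω, (Φ.map ψ).IsRoot r₁ := by
    refine IsAlgClosed.exists_root _ ?_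
    rw [hmon.degree_map, degree_eq_natDegree hmon.ne_zero, hdeg]
    exact_mod_cast Fintype.card_ne_zero
  obtain ⟨f, hf⟩ : ∃ f : A[X] →ₐ[A] (aeval y : A[X] →ₐ[A] M).range,
      f = (aeval y : A[X] →ₐ[A] M).rangeRestrict := ⟨_, rfl⟩
  have hfs : Function.Surjective f := by
    rw [hf]
    exact AlgHom.rangeRestrict_surjective _
  have hfv : ∀ p : A[X], ((f p : (aeval y : A[X] →ₐ[A] M).range) : M) = aeval y p := by
    intro p
    rw [hf]
    rfl
  obtain ⟨θ, hθ⟩ : ∃ θ : (aeval y : A[X] →ₐ[A] M).range →+* Ω,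
      ∀ p, θ (f p) = p.eval₂ ψ r₁ := by
    have hker : RingHom.ker (f : A[X] →+* (aeval y : A[X] →ₐ[A] M).range) ≤
        RingHom.ker (eval₂RingHom ψ r₁) := by
      intro p hp
      rw [RingHom.mem_ker] at hp ⊢
      have h1 : aeval y p = 0 := by
        rw [← hfv p]
        exact congrArg Subtype.val hp
      obtain ⟨q, rfl⟩ := hkey p h1
      have h2 : Φ.eval₂ ψ r₁ = 0 := by
        rw [← eval_map]
        exact hr₁
      rw [coe_eval₂RingHom, eval₂_mul, h2, zero_mul]
    refine ⟨(f : A[X] →+* (aeval y : A[X] →ₐ[A] M).range).liftOfSurjective hfs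
      ⟨eval₂RingHom ψ r₁, hker⟩, fun p => ?_⟩
    exact RingHom.liftOfRightInverse_comp_apply _ _ _ _ p
  -- the elements `β g y`
  have hb : ∀ g, ((f (R g) : (aeval y : A[X] →ₐ[A] M).range) : M) = β g y := fun g => by
    rw [hfv, hR g]
  have hθψ : θ.comp (algebraMap A (aeval y : A[X] →ₐ[A] M).range) = ψ := by
    ext c
    have h1 : algebraMap A (aeval y : A[X] →ₐ[A] M).range c = f (C c) := by
      rw [← Polynomial.algebraMap_eq, AlgHom.commutes]
    rw [RingHom.comp_apply, h1, hθ, eval₂_C]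
  -- values at the elements `β g y`
  have hval : ∀ (p : A[X]) (g : G), p.eval₂ ψ (θ (f (R g))) =
      θ (p.eval₂ (algebraMap A (aeval y : A[X] →ₐ[A] M).range) (f (R g))) := by
    intro p g
    rw [Polynomial.hom_eval₂, hθψ]
  have hval' : ∀ (p : A[X]) (g : G),
      ((p.eval₂ (algebraMap A (aeval y : A[X] →ₐ[A] M).range) (f (R g)) :
        (aeval y : A[X] →ₐ[A] M).range) : M) = β g (aeval y p) := by
    intro p g
    have h1 := Polynomial.hom_eval₂ p (algebraMap A (aeval y : A[X] →ₐ[A] M).range)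
      (algebraMap (aeval y : A[X] →ₐ[A] M).range M) (f (R g))
    rw [← Ext_fix β hA g p y, aeval_def, ← hb g]
    exact h1
  have hroot : Φ.map ψ = ∏ g, (X - C (θ (f (R g)))) := by
    have hinj : Function.Injective (algebraMap (aeval y : A[X] →ₐ[A] M).range M) :=
      Subtype.val_injective
    have h1 : Φ.map (algebraMap A (aeval y : A[X] →ₐ[A] M).range) = ∏ g, (X - C (f (R g))) := by
      apply Polynomial.map_injective _ hinj
      rw [Polynomial.map_map, Polynomial.map_prod]
      have h2 : (algebraMap (aeval y : A[X] →ₐ[A] M).range M).comp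
          (algebraMap A (aeval y : A[X] →ₐ[A] M).range) = algebraMap A M := rfl
      rw [h2, hΦ]
      refine Finset.prod_congr rfl fun g _ => ?_
      rw [Polynomial.map_sub, map_X, map_C, ← hb g]
      rfl
    rw [← hθψ, ← Polynomial.map_map, h1, Polynomial.map_prod]
    refine Finset.prod_congr rfl fun g _ => ?_
    rw [Polynomial.map_sub, map_X, map_C]
  -- the embedding of `K`
  have hia : i a ∈ (aeval y : A[X] →ₐ[A] M).range := ⟨Q, hQ⟩
  have hiK : ∀ x, i x ∈ (aeval y : A[X] →ₐ[A] M).range := by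
    intro x
    obtain ⟨u, rfl⟩ := ha x
    have h1 : i (aeval a u) = aeval (i a) u := by
      rw [aeval_def, Polynomial.hom_eval₂, aeval_def]
      congr 1
    rw [h1]
    have h2 : Algebra.adjoin kk {i a} ≤
        (aeval y : A[X] →ₐ[A] M).range.restrictScalars kk := by
      refine Algebra.adjoin_le ?_
      rintro _ rfl
      exact hia
    exact h2 (aeval_mem_adjoin_singleton kk (i a))
  obtain ⟨κ, hκ⟩ : ∃ κ : K →+* Ω, ∀ x, ∀ z : (aeval y : A[X] →ₐ[A] M).range, (z : M) = i x →
      κ x = θ z := by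
    refine ⟨θ.comp (i.codRestrict (aeval y : A[X] →ₐ[A] M).range hiK), fun x z hz => ?_⟩
    rw [RingHom.comp_apply]
    congr 1
    exact Subtype.ext hz.symm
  refine ⟨fun g => θ (f (R g)), κ, ⟨?_, hroot, ?_, ?_⟩, ?_⟩
  · have h1 := hd.map (f := ψ)
    rw [hroot] at h1
    exact separable_prod_X_sub_C_iff.1 h1
  · intro g h
    show (R h).eval₂ ψ (θ (f (R g))) = θ (f (R (g * h)))
    rw [hval]
    congr 1
    apply Subtype.ext
    rw [hval', hR, hb, map_mul]
    rfl
  · intro g
    show Q.eval₂ ψ (θ (f (R g))) = κ (α g a)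
    rw [hval]
    refine (hκ _ _ ?_).symm
    rw [hval', hQ, hi]
  · ext c
    have h1 : κ (algebraMap kk K c) =
        θ (algebraMap A (aeval y : A[X] →ₐ[A] M).range (algebraMap kk A c)) := by
      refine hκ _ _ ?_
      exact (RingHom.congr_fun hik c).symm
    have h2 := RingHom.congr_fun hθψ (algebraMap kk A c)
    exact h1.trans h2

end NF83
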