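import Pool.Agent.H.MP_83e36b_nt.rf.SDefR
import Pool.Agent.H.MP_83e36b_nt.dc.Gal

/-! The homomorphism of the Galois group of the field of rational numbers given by a rational point. -/

set_option autoImplicit false

open Polynomial

open DC83

namespace NF83

variable {kk : Type} [Field kk] [CharZero kk]

/-- two embeddings of a Galois extension of `kk` differ by an automorphism -/
private theorem Hom_diff {K : Type} [Field K] [Algebra kk K] [FiniteDimensional kk K]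
    [IsGalois kk K] {Ω : Type} [Field Ω] [Algebra kk Ω] (κ κ' : K →+* Ω)
    (hκ : κ.comp (algebraMap kk K) = algebraMap kk Ω)
    (hκ' : κ'.comp (algebraMap kk K) = algebraMap kk Ω) :
    ∃ s : K ≃ₐ[kk] K, ∀ x, κ x = κ' (s x) := by
  let _ : Algebra K Ω := κ'.toAlgebra
  have : IsScalarTower kk K Ω := IsScalarTower.of_algebraMap_eq' hκ'.symm
  let κa : K →ₐ[kk] Ω := { κ with commutes' := fun c => RingHom.congr_fun hκ c }
  refine ⟨κa.restrictNormal' K, fun x => ?_⟩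
  have h := AlgHom.restrictNormal_commutes (F := kk) κa K x
  exact h.symm

/-- Proof: the two embeddings `κ'`, `κ` of the Galois extension `K` of `kk` differ by an automorphism:
`κ = κ' ∘ s`, `s = α k`.  Let `r' g = r (k * g)`.  For `τ` there is a unique `h = ρ₀ τ` with
`τ (r' 1) = r' h` (a root of `Φ`), and `τ (r' g) = τ (R g (r' 1)) = R g (r' h) = r' (h * g)`; so `ρ₀` is
a homomorphism.  `τ (κ a) = τ (Q (r' 1)) = Q (r' h) = κ (α h a)`, and `K = kk[a]`.  Continuity: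
`Cts.of_fix` (if `τ` fixes `r' 1` then `ρ₀ τ = 1`). -/
theorem spec_hom {G : Type} [Group G] [Fintype G] {A : Type} [CommRing A] {Φ : A[X]}
    {R : G → A[X]} {Q : A[X]} {K : Type} [Field K] [Algebra kk K] [FiniteDimensional kk K]
    [IsGalois kk K] {α : G →* (K ≃ₐ[kk] K)} (hα : Function.Surjective α) {a : K}
    (ha : ∀ x : K, ∃ u : kk[X], x = aeval a u) {Ω : Type} [Field Ω] [Algebra kk Ω] [IsAlgClosed Ω]
    [Algebra.IsAlgebraic kk Ω] {ψ : A →+* kk} {r : G → Ω} {κ' : K →+* Ω}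
    (h : SpecPt Φ R Q α a ((algebraMap kk Ω).comp ψ) r κ')
    (hκ' : κ'.comp (algebraMap kk K) = algebraMap kk Ω) (κ : K →+* Ω)
    (hκ : κ.comp (algebraMap kk K) = algebraMap kk Ω) :
    ∃ (r' : G → Ω) (ρ₀ : (Ω ≃ₐ[kk] Ω) →* G),
      SpecPt Φ R Q α a ((algebraMap kk Ω).comp ψ) r' κ ∧ Cts ρ₀ ∧
      (∀ τ g, τ (r' g) = r' (ρ₀ τ * g)) ∧ ∀ τ x, τ (κ x) = κ (α (ρ₀ τ) x) := by
  classical
  obtain ⟨s, hs⟩ := Hom_diff κ κ' hκ hκ'
  obtain ⟨κa, hκa⟩ : ∃ κa : K →ₐ[kk] Ω, ∀ x, κa x = κ x :=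
    ⟨{ κ with commutes' := fun c => RingHom.congr_fun hκ c }, fun x => rfl⟩
  obtain ⟨k, rfl⟩ := hα s
  have hSP : SpecPt Φ R Q α a ((algebraMap kk Ω).comp ψ) (fun g => r (k * g)) κ := by
    refine ⟨fun g g' hg => mul_left_cancel (h.inj hg), ?_, fun g g' => ?_, fun g => ?_⟩
    · rw [h.root]
      exact (Equiv.prod_comp (Equiv.mulLeft k) (fun g => X - C (r g))).symm
    · rw [h.mul, mul_assoc]
    · rw [h.kap, hs, map_mul]
      rfl
  obtain ⟨r', hr'⟩ : ∃ r' : G → Ω, r' = fun g => r (k * g) := ⟨_, rfl⟩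
  rw [← hr'] at hSP
  -- evaluation commutes with the Galois group
  have hev : ∀ (τ : Ω ≃ₐ[kk] Ω) (P : A[X]) (x : Ω),
      τ (P.eval₂ ((algebraMap kk Ω).comp ψ) x) = P.eval₂ ((algebraMap kk Ω).comp ψ) (τ x) := by
    intro τ P x
    have h1 := Polynomial.hom_eval₂ P ((algebraMap kk Ω).comp ψ) (τ : Ω →+* Ω) x
    have h2 : (τ : Ω →+* Ω).comp ((algebraMap kk Ω).comp ψ) = (algebraMap kk Ω).comp ψ := by
      ext b
      exact τ.commutes (ψ b)
    rw [h2] at h1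
    exact h1
  have hex : ∀ τ : Ω ≃ₐ[kk] Ω, ∃ g, τ (r' 1) = r' g := by
    intro τ
    have h0 : ∀ x : Ω, Φ.eval₂ ((algebraMap kk Ω).comp ψ) x = ∏ g, (x - r' g) := by
      intro x
      rw [Polynomial.eval₂_eq_eval_map, hSP.root, Polynomial.eval_prod]
      exact Finset.prod_congr rfl fun g _ => by simp
    have h1 : Φ.eval₂ ((algebraMap kk Ω).comp ψ) (r' 1) = 0 := by
      rw [h0]
      exact Finset.prod_eq_zero (Finset.mem_univ 1) (sub_self _)
    have h2 := hev τ Φ (r' 1)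
    rw [h1, map_zero, h0] at h2
    obtain ⟨g, -, hg⟩ := Finset.prod_eq_zero_iff.1 h2.symm
    exact ⟨g, sub_eq_zero.1 hg⟩
  choose ρ hρ using hex
  have hact : ∀ τ g, τ (r' g) = r' (ρ τ * g) := by
    intro τ g
    have h1 := hSP.mul 1 g
    rw [one_mul] at h1
    rw [← h1, hev, hρ, hSP.mul]
  have hmul : ∀ τ τ', ρ (τ * τ') = ρ τ * ρ τ' := by
    intro τ τ'
    apply hSP.inj
    rw [← hρ, ← hact, ← hρ]
    rfl
  have hone : ∀ τ, τ (r' 1) = r' 1 → ρ τ = 1 := by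
    intro τ hτ
    apply hSP.inj
    rw [← hρ, hτ]
  refine ⟨r', MonoidHom.mk' ρ hmul, hSP, ?_, hact, ?_⟩
  · exact Cts.of_fix _ (fun _ : Unit => r' 1) fun τ hτ => hone τ (hτ ())
  · intro τ x
    obtain ⟨u, rfl⟩ := ha x
    have h1 : τ (κ a) = κ (α (ρ τ) a) := by
      have h2 := hSP.kap 1
      rw [map_one] at h2
      have h3 : κ a = Q.eval₂ ((algebraMap kk Ω).comp ψ) (r' 1) := h2.symm
      rw [h3, hev, hρ, hSP.kap]
    have h4 : τ (κ (aeval a u)) = aeval (τ (κ a)) u := by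
      have e1 := Polynomial.aeval_algHom_apply κa a u
      have e2 := Polynomial.aeval_algHom_apply (τ : Ω →ₐ[kk] Ω) (κa a) u
      rw [e1, hκa, hκa] at e2
      exact e2.symm
    have h5 : κ (α (ρ τ) (aeval a u)) = aeval (κ (α (ρ τ) a)) u := by
      have e1 := Polynomial.aeval_algHom_apply ((α (ρ τ) : K ≃ₐ[kk] K) : K →ₐ[kk] K) a u
      have e2 := Polynomial.aeval_algHom_apply κa (α (ρ τ) a) u
      have e3 : α (ρ τ) (aeval a u) = aeval (α (ρ τ) a) u := e1.symm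
      rw [hκa, hκa] at e2
      rw [e3]
      exact e2.symm
    rw [h4, h1]
    exact h5.symm

end NF83
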