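import Pool.Agent.H.MP_83e36b_nt.rf.SDefR
import Pool.Agent.H.MP_83e36b_nt.tw.Krs
import Pool.Agent.H.MP_83e36b_nt.tw.NonV

/-! Comparison of the values at two near points. -/

set_option autoImplicit false

open Polynomial Matrix Topology SpinWA

open DC83

namespace NF83

variable {kk : Type} [Field kk] [CharZero kk]

section
variable {A L Ω : Type} [CommRing A] [Field L] [Field Ω] [Algebra L Ω]

/-- the value of the polynomial with the coefficients `c`. -/
private noncomputable def Near_p {n : ℕ} (c : Fin n → L) (z : Ω) : Ω :=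
  ∑ j, algebraMap L Ω (c j) * z ^ (j : ℕ)

private theorem Near_eval (P : A[X]) (ψ : A →+* L) (z : Ω) :
    ∑ j : Fin (P.natDegree + 1), algebraMap L Ω (ψ (P.coeff j)) * z ^ (j : ℕ) =
      P.eval₂ ((algebraMap L Ω).comp ψ) z := by
  rw [eval₂_eq_sum_range, Finset.sum_range]
  rfl

private theorem Near_aeval (P : A[X]) (ψ : A →+* L) (z : Ω) :
    aeval z (P.map ψ) = P.eval₂ ((algebraMap L Ω).comp ψ) z := by
  rw [aeval_def, eval₂_map]

private theorem Near_monic {n : ℕ} (Φ : A[X]) (χ : A →+* Ω) (y : Fin n → Ω)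
    (h : Φ.map χ = ∏ i, (X - C (y i))) :
    AnWA.monicPoly (fun i : Fin n => χ (Φ.coeff i)) = ∏ i, (X - C (y i)) := by
  have h1 : (∏ i, (X - C (y i)) : Polynomial Ω).Monic := monic_prod_X_sub_C _ _
  have h2 : (∏ i, (X - C (y i)) : Polynomial Ω).natDegree = n := by
    rw [natDegree_prod_of_monic _ _ fun i _ => monic_X_sub_C _]
    simp
  have h3 := h1.as_sum
  rw [h2] at h3
  rw [h3, Finset.sum_range]
  unfold AnWA.monicPoly
  congr 1
  refine Finset.sum_congr rfl fun i _ => ?_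
  rw [← h, coeff_map]

private theorem Near_X {n : ℕ} (hn : 2 ≤ n) (z : Ω) :
    Near_p (L := L) (fun i : Fin n => if (i : ℕ) = 1 then (1 : L) else 0) z = z := by
  unfold Near_p
  rw [Finset.sum_eq_single (⟨1, by omega⟩ : Fin n)]
  · simp
  · intro j _ hj
    show algebraMap L Ω (if (j : ℕ) = 1 then (1 : L) else 0) * z ^ (j : ℕ) = 0
    rw [if_neg (fun h => hj (Fin.ext h)), map_zero, zero_mul]
  · intro h
    exact absurd (Finset.mem_univ _) h

end

/-- the convergence of the coefficients. -/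
private theorem Near_filter {A L : Type} [CommRing A] [NontriviallyNormedField L] (T : Finset A)
    (ψ₀ : A →+* L) {S : (A →+* L) → Prop}
    (h : ∀ᶠ ψ in Filter.comap (fun (ψ : A →+* L) (t : ↥T) => ψ t) (𝓝 fun t => ψ₀ t), S ψ) :
    ∃ ε : ℝ, 0 < ε ∧ ∀ ψ : A →+* L, (∀ c ∈ T, ‖ψ c - ψ₀ c‖ < ε) → S ψ := by
  rw [Filter.eventually_comap, Metric.eventually_nhds_iff] at h
  obtain ⟨ε, hε, h⟩ := h
  refine ⟨ε, hε, fun ψ hψ => h ?_ ψ rfl⟩
  rw [dist_pi_lt_iff hε]
  intro t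
  rw [dist_eq_norm]
  exact hψ t t.2

private theorem Near_tendsto {A L : Type} [CommRing A] [NontriviallyNormedField L] {T : Finset A}
    (ψ₀ : A →+* L) {N : ℕ} (u : Fin N → A) (hu : ∀ j, u j ∈ T) :
    Filter.Tendsto (fun (ψ : A →+* L) (j : Fin N) => ψ (u j))
      (Filter.comap (fun (ψ : A →+* L) (t : ↥T) => ψ t) (𝓝 fun t => ψ₀ t))
      (𝓝 fun j => ψ₀ (u j)) := by
  rw [tendsto_pi_nhds]
  intro j
  have h1 : Filter.Tendsto (fun (ψ : A →+* L) (t : ↥T) => ψ t)
      (Filter.comap (fun (ψ : A →+* L) (t : ↥T) => ψ t) (𝓝 fun t => ψ₀ t))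
      (𝓝 fun t => ψ₀ t) := Filter.tendsto_comap
  exact tendsto_pi_nhds.1 h1 ⟨u j, hu j⟩

/-- the algebra at a near point. -/
private theorem Near_alg {G : Type} [Group G] [Fintype G] {A : Type} [CommRing A] (Φ : A[X])
    (R : G → A[X]) (Q : A[X]) {K : Type} [Field K] [Algebra kk K] (α : G →* (K ≃ₐ[kk] K)) (a : K)
    {L : Type} [Field L] {Ω : Type} [Field Ω]
    [Algebra L Ω] (lam : K →+* Ω) (r₀ : G → Ω) (ψ : A →+* L) (r : G → Ω) {n : ℕ} (e : Fin n ≃ G)
    (h : SpecPt Φ R Q α a ((algebraMap L Ω).comp ψ) r lam) (c : Fin n → L)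
    (hc : AnWA.monicPoly (fun i : Fin n => algebraMap L Ω (ψ (Φ.coeff i))) =
      ∏ i, (X - C (Near_p c (r₀ (e i)))))
    (h1 : ∀ g g', g ≠ g' → (R g).eval₂ ((algebraMap L Ω).comp ψ) (Near_p c (r₀ 1)) ≠
      Near_p c (r₀ g'))
    (h2 : ∀ k, α k a ≠ a → Q.eval₂ ((algebraMap L Ω).comp ψ) (Near_p c (r₀ 1)) ≠
      lam (α k a)) :
    ∃ k : G, α k a = a ∧
        ∀ (τ : Ω ≃ₐ[L] Ω) (h : G), τ (r₀ 1) = r₀ h → τ (r k) = r (k * h) := by
  have hr : (∏ i, (X - C (r (e i))) : Polynomial Ω) = ∏ i, (X - C (Near_p c (r₀ (e i)))) := by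
    rw [← hc]
    refine (Near_monic Φ ((algebraMap L Ω).comp ψ) (fun i => r (e i)) ?_).symm
    rw [h.root]
    exact (Equiv.prod_comp e fun g => (X - C (r g) : Polynomial Ω)).symm
  have hA : ∀ g, ∃ g', Near_p c (r₀ g) = r g' := by
    intro g
    have h3 : (∏ i, (X - C (r (e i))) : Polynomial Ω).eval (Near_p c (r₀ g)) = 0 := by
      rw [hr, eval_prod]
      refine Finset.prod_eq_zero (Finset.mem_univ (e.symm g)) ?_
      rw [e.apply_symm_apply]
      simp
    rw [eval_prod, Finset.prod_eq_zero_iff] at h3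
    obtain ⟨i, _, hi⟩ := h3
    rw [eval_sub, eval_X, eval_C, sub_eq_zero] at hi
    exact ⟨e i, hi⟩
  have hB : ∀ g, ∃ g', Near_p c (r₀ g') = r g := by
    intro g
    have h3 : (∏ i, (X - C (Near_p c (r₀ (e i)))) : Polynomial Ω).eval (r g) = 0 := by
      rw [← hr, eval_prod]
      refine Finset.prod_eq_zero (Finset.mem_univ (e.symm g)) ?_
      rw [e.apply_symm_apply]
      simp
    rw [eval_prod, Finset.prod_eq_zero_iff] at h3
    obtain ⟨i, _, hi⟩ := h3
    rw [eval_sub, eval_X, eval_C, sub_eq_zero] at hi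
    exact ⟨e i, hi.symm⟩
  obtain ⟨k, hk⟩ := hA 1
  have hkh : ∀ g, Near_p c (r₀ g) = r (k * g) := by
    intro g
    obtain ⟨g', hg'⟩ := hB (k * g)
    by_cases hgg : g = g'
    · rw [hgg, hg', hgg]
    · exfalso
      refine h1 g g' hgg ?_
      rw [hk, h.mul, hg']
  refine ⟨k, ?_, fun τ g hτ => ?_⟩
  · by_contra hne
    refine h2 k hne ?_
    rw [hk, h.kap]
  · rw [← hk, ← hkh, ← hτ]
    unfold Near_p
    rw [map_sum]
    refine Finset.sum_congr rfl fun j _ => ?_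
    rw [map_mul, map_pow, τ.commutes]

/-- Proof: `n = card G`; the case `n = 1` is trivial (`k = 1`; `r 1` is the root of a linear polynomial
over `L`).  Let `n ≥ 2`, `x : Fin n → Ω` the family `r₀` (`Fintype.equivFin`), `a₀` the coefficients of
`Φ.map ψ₀` (`AnWA.monicPoly`), `det (hk a₀) ≠ 0` (`croot_...`, distinct roots).  For `ψ` near `ψ₀` on
the coefficients of `Φ` (`kr_near`): `Φ.map ψ = ∏ g, (X - p (r₀ g))`, `p = ∑ c_j X^j` near `X`.  So there
is a bijection `π` of `G` with `p (r₀ g) = r (π g)`.  Let `k = π 1`.  For `h' ≠ h`: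
`R h ^ψ₀ (r₀ g) = r₀ (g h) ≠ r₀ (g h') = R h' ^ψ₀ (r₀ g)` for all `g`, so (`nonvan`, for `ψ` near `ψ₀` on
the coefficients of `R h` and `c` near `X`, `e = c`, `P = (R h').map ψ₀`)
`R h ^ψ (p (r₀ g)) ≠ p (r₀ (g h'))`; for `g = 1`: `r (k h) ≠ r (π h')`.  So `π h = k h`.
If `α k a ≠ a` then `Q^ψ₀(r₀ g) = lam (α g a) ≠ lam (α g (α k a)) = Q^ψ₀ (R k ^ψ₀ (r₀ g))` for all `g`, so
(`nonvan`, `e` the constant coefficients of `Q.map ψ₀`) `Q^ψ (p (r₀ 1)) ≠ lam (α k a)`, but
`Q^ψ (r k) = lam (α k a)`.  If `τ (r₀ 1) = r₀ h` then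
`τ (r k) = τ (p (r₀ 1)) = p (r₀ h) = r (π h) = r (k h)`. -/
theorem spec_near {G : Type} [Group G] [Fintype G] {A : Type} [CommRing A] (Φ : A[X])
    (R : G → A[X]) (Q : A[X]) {K : Type} [Field K] [Algebra kk K] (α : G →* (K ≃ₐ[kk] K)) (a : K)
    {L : Type} [NontriviallyNormedField L] [CompleteSpace L] [CharZero L] {Ω : Type} [Field Ω]
    [Algebra L Ω] (ψ₀ : A →+* L) (lam : K →+* Ω) (r₀ : G → Ω)
    (h₀ : SpecPt Φ R Q α a ((algebraMap L Ω).comp ψ₀) r₀ lam) :
    ∃ (T : Finset A) (ε : ℝ), 0 < ε ∧ ∀ ψ : A →+* L, (∀ c ∈ T, ‖ψ c - ψ₀ c‖ < ε) →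
      ∀ r : G → Ω, SpecPt Φ R Q α a ((algebraMap L Ω).comp ψ) r lam →
      ∃ k : G, α k a = a ∧
        ∀ (τ : Ω ≃ₐ[L] Ω) (h : G), τ (r₀ 1) = r₀ h → τ (r k) = r (k * h) := by
  classical
  obtain ⟨n, hn⟩ : ∃ n, n = Fintype.card G := ⟨_, rfl⟩
  let e : Fin n ≃ G := (Fintype.equivFinOfCardEq hn.symm).symm
  -- the coefficients
  let T : Finset A := (Finset.range n).image Φ.coeff ∪
    ((Finset.univ : Finset G).biUnion fun g =>
      (Finset.range ((R g).natDegree + 1)).image (R g).coeff) ∪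
    (Finset.range (Q.natDegree + 1)).image Q.coeff
  have hT1 : ∀ i : Fin n, Φ.coeff i ∈ T := fun i =>
    Finset.mem_union_left _ (Finset.mem_union_left _
      (Finset.mem_image_of_mem _ (Finset.mem_range.2 i.2)))
  have hT2 : ∀ (g : G) (i : Fin ((R g).natDegree + 1)), (R g).coeff i ∈ T := fun g i =>
    Finset.mem_union_left _ (Finset.mem_union_right _
      (Finset.mem_biUnion.2 ⟨g, Finset.mem_univ _,
        Finset.mem_image_of_mem _ (Finset.mem_range.2 i.2)⟩))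
  have hT3 : ∀ i : Fin (Q.natDegree + 1), Q.coeff i ∈ T := fun i =>
    Finset.mem_union_right _ (Finset.mem_image_of_mem _ (Finset.mem_range.2 i.2))
  rcases Nat.lt_or_ge n 2 with hn2 | hn2
  · -- the trivial group
    have hss : Subsingleton G := by
      rw [← Fintype.card_le_one_iff_subsingleton]
      omega
    refine ⟨∅, 1, one_pos, fun ψ _ r h => ⟨1, by simp, fun τ g _ => ?_⟩⟩
    have hg : g = 1 := Subsingleton.elim _ _
    rw [hg, mul_one]
    have h1 := h.root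
    have h2 : (∏ g, (X - C (r g)) : Polynomial Ω) = X - C (r 1) := by
      rw [Fintype.prod_eq_single (1 : G)]
      intro g hg
      exact absurd (Subsingleton.elim g 1) hg
    rw [h2] at h1
    have h3 := congrArg (fun P : Polynomial Ω => P.coeff 0) h1
    simp only [coeff_map, coeff_sub, coeff_X_zero, coeff_C_zero, zero_sub] at h3
    have h4 : r 1 = algebraMap L Ω (-(ψ (Φ.coeff 0))) := by
      rw [map_neg]
      have h5 : algebraMap L Ω (ψ (Φ.coeff 0)) = -r 1 := h3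
      rw [h5, neg_neg]
    rw [h4]
    exact τ.commutes _
  -- the main case
  let x : Fin n → Ω := fun i => r₀ (e i)
  have hx : Function.Injective x := h₀.inj.comp e.injective
  let a₀ : Fin n → L := fun i => ψ₀ (Φ.coeff i)
  let X₀ : Fin n → L := fun i => if (i : ℕ) = 1 then (1 : L) else 0
  have hax : AnWA.monicPoly (fun i => algebraMap L Ω (a₀ i)) = ∏ i, (X - C (x i)) := by
    refine Near_monic Φ ((algebraMap L Ω).comp ψ₀) x ?_
    rw [h₀.root]
    exact (Equiv.prod_comp e fun g => (X - C (r₀ g) : Polynomial Ω)).symm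
  have hdet : (hk a₀).det ≠ 0 := by
    refine det_hk_ne_zero_of_separable a₀ ?_
    rw [← separable_map (algebraMap L Ω), ← AnWA.monicPoly_map, hax]
    exact separable_prod_X_sub_C_iff.2 hx
  let F : Filter (A →+* L) :=
    Filter.comap (fun (ψ : A →+* L) (t : ↥T) => ψ t) (𝓝 fun t => ψ₀ t)
  have hX0 : ∀ z : Ω, ∑ l, algebraMap L Ω (X₀ l) * z ^ (l : ℕ) = z := fun z =>
    Near_X (L := L) hn2 z
  -- first family
  have hF1 : ∀ g g' : G, g ≠ g' → ∀ᶠ q : (A →+* L) × (Fin n → L) in F ×ˢ 𝓝 X₀, ∀ i,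
      (R g).eval₂ ((algebraMap L Ω).comp q.1) (Near_p q.2 (x i)) ≠
        Near_p q.2 (r₀ (e i * g')) := by
    intro g g' hgg
    have h1 := nonvan a₀ x hx hax (fun j : Fin ((R g).natDegree + 1) => ψ₀ ((R g).coeff j)) X₀ X₀
      ((R g').map ψ₀) (fun i => by
        rw [hX0, hX0, Near_eval, Near_aeval, h₀.mul, h₀.mul]
        exact fun hh => hgg (mul_left_cancel (h₀.inj hh)))
    have h2 : Filter.Tendsto (fun q : (A →+* L) × (Fin n → L) =>
        ((fun j : Fin ((R g).natDegree + 1) => q.1 ((R g).coeff j)), q.2, q.2)) (F ×ˢ 𝓝 X₀)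
        (𝓝 ((fun j : Fin ((R g).natDegree + 1) => ψ₀ ((R g).coeff j)), X₀, X₀)) := by
      refine Filter.Tendsto.prodMk_nhds ?_ (Filter.Tendsto.prodMk_nhds ?_ ?_)
      · exact (Near_tendsto ψ₀ _ (hT2 g)).comp Filter.tendsto_fst
      · exact Filter.tendsto_snd
      · exact Filter.tendsto_snd
    filter_upwards [h2.eventually h1] with q hq i
    have h3 := hq i
    rw [Near_eval, Near_aeval, h₀.mul] at h3
    exact h3
  -- second family
  have hF2 : ∀ k : G, α k a ≠ a → ∀ᶠ q : (A →+* L) × (Fin n → L) in F ×ˢ 𝓝 X₀, ∀ i,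
      Q.eval₂ ((algebraMap L Ω).comp q.1) (Near_p q.2 (x i)) ≠ lam (α (e i * k) a) := by
    intro k hka
    have hkk : ∀ i, Q.eval₂ ((algebraMap L Ω).comp ψ₀)
        ((R k).eval₂ ((algebraMap L Ω).comp ψ₀) (x i)) = lam (α (e i * k) a) := by
      intro i
      rw [h₀.mul, h₀.kap]
    have h1 := nonvan a₀ x hx hax (fun j : Fin (Q.natDegree + 1) => ψ₀ (Q.coeff j)) X₀
      (fun j : Fin (Q.natDegree + 1) => ψ₀ (Q.coeff j))
      ((R k).map ψ₀) (fun i => by
        rw [hX0, Near_eval, Near_aeval, Near_eval, hkk, h₀.kap]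
        intro hh
        have h5 := lam.injective hh
        rw [map_mul] at h5
        exact hka ((α (e i)).injective h5.symm))
    have h2 : Filter.Tendsto (fun q : (A →+* L) × (Fin n → L) =>
        ((fun j : Fin (Q.natDegree + 1) => q.1 (Q.coeff j)), q.2,
          (fun j : Fin (Q.natDegree + 1) => ψ₀ (Q.coeff j)))) (F ×ˢ 𝓝 X₀)
        (𝓝 ((fun j : Fin (Q.natDegree + 1) => ψ₀ (Q.coeff j)), X₀,
          (fun j : Fin (Q.natDegree + 1) => ψ₀ (Q.coeff j)))) := by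
      refine Filter.Tendsto.prodMk_nhds ?_ (Filter.Tendsto.prodMk_nhds ?_ ?_)
      · exact (Near_tendsto ψ₀ _ hT3).comp Filter.tendsto_fst
      · exact Filter.tendsto_snd
      · exact tendsto_const_nhds
    filter_upwards [h2.eventually h1] with q hq i
    have h3 := hq i
    rw [Near_eval, Near_aeval, Near_eval, hkk] at h3
    exact h3
  have hF : ∀ᶠ q : (A →+* L) × (Fin n → L) in F ×ˢ 𝓝 X₀,
      (∀ g g' : G, g ≠ g' → ∀ i, (R g).eval₂ ((algebraMap L Ω).comp q.1) (Near_p q.2 (x i)) ≠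
        Near_p q.2 (r₀ (e i * g'))) ∧
      (∀ k : G, α k a ≠ a → ∀ i,
        Q.eval₂ ((algebraMap L Ω).comp q.1) (Near_p q.2 (x i)) ≠ lam (α (e i * k) a)) := by
    refine Filter.Eventually.and ?_ ?_
    · refine Filter.eventually_all.2 fun g => Filter.eventually_all.2 fun g' => ?_
      by_cases hgg : g = g'
      · exact Filter.Eventually.of_forall fun q h => absurd hgg h
      · filter_upwards [hF1 g g' hgg] with q hq _
        exact hq
    · refine Filter.eventually_all.2 fun k => ?_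
      by_cases hka : α k a = a
      · exact Filter.Eventually.of_forall fun q h => absurd hka h
      · filter_upwards [hF2 k hka] with q hq _
        exact hq
  obtain ⟨pa, hpa, pb, hpb, hpab⟩ := Filter.eventually_prod_iff.1 hF
  have hkr := kr_near hn2 a₀ hdet (V := {c | pb c}) hpb
  have hkr' : ∀ᶠ ψ in F, ∃ c ∈ {c | pb c}, ∀ (Ω : Type) [Field Ω] [Algebra L Ω] (x : Fin n → Ω),
      AnWA.monicPoly (fun i => algebraMap L Ω (a₀ i)) = ∏ i, (X - C (x i)) →
      AnWA.monicPoly (fun i : Fin n => algebraMap L Ω (ψ (Φ.coeff i))) =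
        ∏ i, (X - C (∑ j, algebraMap L Ω (c j) * x i ^ (j : ℕ))) :=
    (Near_tendsto ψ₀ _ hT1).eventually hkr
  obtain ⟨ε, hε, hfin⟩ := Near_filter T ψ₀ (hpa.and hkr')
  refine ⟨T, ε, hε, fun ψ hψ r h => ?_⟩
  obtain ⟨h1, c, hcV, hc⟩ := hfin ψ hψ
  obtain ⟨h2, h3⟩ := hpab h1 hcV
  have he1 : x (e.symm 1) = r₀ 1 := by
    show r₀ (e (e.symm 1)) = r₀ 1
    rw [e.apply_symm_apply]
  refine Near_alg Φ R Q α a lam r₀ ψ r e h c (hc Ω x hax) (fun g g' hgg => ?_)
    (fun k hka => ?_)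
  · have h4 := h2 g g' hgg (e.symm 1)
    rw [he1, e.apply_symm_apply, one_mul] at h4
    exact h4
  · have h4 := h3 k hka (e.symm 1)
    rw [he1, e.apply_symm_apply, one_mul] at h4
    exact h4

end NF83
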