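import Pool.Agent.H.MP_83e36b_nt.wa.Alg

/-! The ring of functions on an open set of a hypersurface, and its homomorphisms given by points. -/

set_option autoImplicit false

open Polynomial

namespace NF83

open WA83

variable {kk : Type} [Field kk] [CharZero kk]

section spec_aux

variable {R M : Type*} [CommRing R] [Field M] [Algebra kk M]

/-- the elements which become polynomial after multiplication by a power of `D` -/
private def SpecAlg (e : R →+* M) (D : R) (hc : ∀ r : kk, ∃ C, algebraMap kk M r = e C) :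
    Subalgebra kk M where
  carrier := {z | ∃ (C : R) (N : ℕ), z * e D ^ N = e C}
  mul_mem' := by
    rintro a b ⟨C, N, h⟩ ⟨C', N', h'⟩
    refine ⟨C * C', N + N', ?_⟩
    rw [map_mul, ← h, ← h', pow_add]
    ring
  add_mem' := by
    rintro a b ⟨C, N, h⟩ ⟨C', N', h'⟩
    refine ⟨C * D ^ N' + C' * D ^ N, N + N', ?_⟩
    rw [map_add, map_mul, map_mul, map_pow, map_pow, ← h, ← h', pow_add]
    ring
  algebraMap_mem' r := by
    obtain ⟨C, h⟩ := hc r
    exact ⟨C, 0, by rw [pow_zero, mul_one, h]⟩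

private theorem Spec_mem {e : R →+* M} {D : R} {hc : ∀ r : kk, ∃ C, algebraMap kk M r = e C} {z : M} :
    z ∈ SpecAlg e D hc ↔ ∃ (C : R) (N : ℕ), z * e D ^ N = e C := Iff.rfl

/-- the homomorphism to a field, from the values of the polynomials -/
private theorem Spec_hom (e : R →+* M) (D : R) (hc : ∀ r : kk, ∃ C, algebraMap kk M r = e C)
    {L : Type*} [Field L] (θ : R →+* L) (hker : ∀ C, e C = 0 → θ C = 0) (hD : θ D ≠ 0) :
    ∃ ψ : SpecAlg e D hc →+* L, ∀ (c : SpecAlg e D hc) (C : R) (N : ℕ),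
      (c : M) * e D ^ N = e C → ψ c * θ D ^ N = θ C := by
  have hch : ∀ z : SpecAlg e D hc, ∃ (C : R) (N : ℕ), (z : M) * e D ^ N = e C := fun z => z.2
  choose Cz Nz hz using hch
  have key : ∀ (c : SpecAlg e D hc) (C : R) (N : ℕ), (c : M) * e D ^ N = e C →
      (θ (Cz c) / θ D ^ (Nz c)) * θ D ^ N = θ C := by
    intro c C N h
    have h1 : e (Cz c * D ^ N - C * D ^ (Nz c)) = 0 := by
      rw [map_sub, map_mul, map_mul, map_pow, map_pow, ← hz c, ← h]
      ring
    have h2 := hker _ h1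
    rw [map_sub, map_mul, map_mul, map_pow, map_pow, sub_eq_zero] at h2
    have h3 : θ D ^ (Nz c) ≠ 0 := pow_ne_zero _ hD
    rw [div_mul_eq_mul_div, h2, mul_div_assoc, div_self h3, mul_one]
  refine ⟨⟨⟨⟨fun c => θ (Cz c) / θ D ^ (Nz c), ?_⟩, ?_⟩, ?_, ?_⟩, key⟩
  · have h := key 1 1 0 (by rw [pow_zero, mul_one, map_one]; rfl)
    rw [pow_zero, mul_one, map_one] at h
    exact h
  · intro a b
    have h := key (a * b) (Cz a * Cz b) (Nz a + Nz b) (by
      rw [map_mul, ← hz a, ← hz b, pow_add]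
      show (a : M) * (b : M) * _ = _
      ring)
    show θ (Cz (a * b)) / θ D ^ (Nz (a * b)) = θ (Cz a) / θ D ^ (Nz a) * (θ (Cz b) / θ D ^ (Nz b))
    have h3 : θ D ^ (Nz a + Nz b) ≠ 0 := pow_ne_zero _ hD
    rw [eq_div_of_mul_eq h3 h, map_mul, pow_add, mul_div_mul_comm]
  · have h := key 0 0 0 (by rw [pow_zero, mul_one, map_zero]; rfl)
    rw [pow_zero, mul_one, map_zero] at h
    exact h
  · intro a b
    have h := key (a + b) (Cz a * D ^ Nz b + Cz b * D ^ Nz a) (Nz a + Nz b) (by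
      rw [map_add, map_mul, map_mul, map_pow, map_pow, ← hz a, ← hz b, pow_add]
      show ((a : M) + (b : M)) * _ = _
      ring)
    show θ (Cz (a + b)) / θ D ^ (Nz (a + b)) = θ (Cz a) / θ D ^ (Nz a) + θ (Cz b) / θ D ^ (Nz b)
    have h3 : θ D ^ (Nz a + Nz b) ≠ 0 := pow_ne_zero _ hD
    have h4 : θ D ^ (Nz a) ≠ 0 := pow_ne_zero _ hD
    have h5 : θ D ^ (Nz b) ≠ 0 := pow_ne_zero _ hD
    rw [eq_div_of_mul_eq h3 h, map_add, map_mul, map_mul, map_pow, map_pow, pow_add]
    field_simp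

/-- common denominators -/
private theorem Spec_den {K : Type*} [Field K] (e : R →+* K) (hq : ∀ z : K, ∃ p q : R, e q ≠ 0 ∧
    z * e q = e p) (T : Finset K) : ∃ D : R, e D ≠ 0 ∧ ∀ z ∈ T, ∃ C : R, z * e D = e C := by
  classical
  induction T using Finset.induction_on with
  | empty =>
    refine ⟨1, ?_, ?_⟩
    · rw [map_one]
      exact one_ne_zero
    · intro z hz
      exact absurd hz (Finset.notMem_empty z)
  | insert a s ha ih =>
    obtain ⟨D, hD, hs⟩ := ih
    obtain ⟨p, q, hq0, hpq⟩ := hq a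
    refine ⟨D * q, ?_, ?_⟩
    · rw [map_mul]
      exact mul_ne_zero hD hq0
    · intro z hz
      rcases Finset.mem_insert.mp hz with rfl | hz
      · refine ⟨D * p, ?_⟩
        rw [map_mul, map_mul, ← hpq]
        ring
      · obtain ⟨C, hC⟩ := hs z hz
        refine ⟨C * q, ?_⟩
        rw [map_mul, map_mul, ← hC]
        ring

end spec_aux

/-- Proof: `D` is the product of the denominators of the elements of `T` (`Generic.exists_quot`), and
`A` is the set of the `z` with `z * D(ξ, η) ^ N = C(ξ, η)` for some `C`, `N`.  The homomorphism: `ψ z =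
C(x, y) / D(x, y) ^ N`; well defined: if `C(ξ, η) = 0` then `f ∣ C` (`Generic.dvd`). -/
theorem spec_ring {M : Type} [Field M] [Algebra kk M] (F : IntermediateField kk M) {m : ℕ}
    {f : (MvPolynomial (Fin m) kk)[X]} {ξ : Fin m → F} {η : F} (h : Generic f F ξ η)
    (T : Finset F) :
    ∃ (D : (MvPolynomial (Fin m) kk)[X]) (A : Subalgebra kk M),
      evP (algebraMap kk F) ξ η D ≠ 0 ∧ (∀ c ∈ A, c ∈ F) ∧ (∀ c ∈ T, (c : M) ∈ A) ∧
      (∀ C, ((evP (algebraMap kk F) ξ η C : F) : M) ∈ A) ∧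
      (∀ c ∈ A, ∃ (C : (MvPolynomial (Fin m) kk)[X]) (N : ℕ),
        c * ((evP (algebraMap kk F) ξ η D : F) : M) ^ N = ((evP (algebraMap kk F) ξ η C : F) : M)) ∧
      ∀ (L : Type) [Field L] (φ : kk →+* L) (x : Fin m → L) (y : L), evP φ x y f = 0 →
        evP φ x y D ≠ 0 → ∃ ψ : A →+* L, ∀ (c : A) (C : (MvPolynomial (Fin m) kk)[X]),
          (c : M) = ((evP (algebraMap kk F) ξ η C : F) : M) → ψ c = evP φ x y C := by
  obtain ⟨D, hD0, hT⟩ := Spec_den (evP (algebraMap kk F) ξ η) h.exists_quot T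
  have hinj : Function.Injective (algebraMap F M) := (algebraMap F M).injective
  have hc : ∀ r : kk, ∃ C, algebraMap kk M r =
      ((algebraMap F M).comp (evP (algebraMap kk F) ξ η)) C := by
    intro r
    refine ⟨C (MvPolynomial.C r), ?_⟩
    rw [RingHom.comp_apply]
    have h1 : evP (algebraMap kk F) ξ η (C (MvPolynomial.C r)) = algebraMap kk F r := by
      unfold evP
      rw [Polynomial.coe_eval₂RingHom, Polynomial.eval₂_C, MvPolynomial.coe_eval₂Hom,
        MvPolynomial.eval₂_C]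
    rw [h1]
    rfl
  have hD1 : ((algebraMap F M).comp (evP (algebraMap kk F) ξ η)) D ≠ 0 := by
    rw [RingHom.comp_apply]
    intro h0
    exact hD0 (hinj (by rw [h0, map_zero]))
  refine ⟨D, SpecAlg ((algebraMap F M).comp (evP (algebraMap kk F) ξ η)) D hc, hD0, ?_, ?_, ?_, ?_,
    ?_⟩
  · intro c hcA
    obtain ⟨C, N, hC⟩ := Spec_mem.mp hcA
    have h1 : c = ((evP (algebraMap kk F) ξ η C / (evP (algebraMap kk F) ξ η D) ^ N : F) : M) := by
      have h2 : ((algebraMap F M).comp (evP (algebraMap kk F) ξ η)) D ^ N ≠ 0 := pow_ne_zero _ hD1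
      rw [eq_div_of_mul_eq h2 hC]
      push_cast
      rfl
    rw [h1]
    exact SetLike.coe_mem _
  · intro c hcT
    obtain ⟨C, hC⟩ := hT c hcT
    refine Spec_mem.mpr ⟨C, 1, ?_⟩
    rw [pow_one]
    have h1 := congrArg (algebraMap F M) hC
    rw [map_mul] at h1
    exact h1
  · intro C
    refine Spec_mem.mpr ⟨C, 0, ?_⟩
    rw [pow_zero, mul_one]
    rfl
  · intro c hcA
    obtain ⟨C, N, hC⟩ := Spec_mem.mp hcA
    exact ⟨C, N, hC⟩
  · intro L _ φ x y hf hD
    obtain ⟨ψ, hψ⟩ := Spec_hom ((algebraMap F M).comp (evP (algebraMap kk F) ξ η)) D hc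
      (evP φ x y) (by
        intro C hC
        have h1 : evP (algebraMap kk F) ξ η C = 0 := hinj (by rw [map_zero]; exact hC)
        obtain ⟨Q, hQ⟩ := h.dvd C h1
        rw [hQ, map_mul, hf, zero_mul]) hD
    refine ⟨ψ, ?_⟩
    intro c C hC
    have h1 := hψ c C 0 (by rw [pow_zero, mul_one]; exact hC)
    rw [pow_zero, mul_one] at h1
    exact h1

end NF83
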