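import Pool.Agent.H.MP_83e36b_nt.rf.PrimR
import Pool.Agent.H.MP_83e36b_nt.rf.SpecR
import Pool.Agent.H.MP_83e36b_nt.rf.ModR
import Pool.Agent.H.MP_83e36b_nt.nr.Semi
import Pool.Agent.H.MP_83e36b_nt.nr.Core

/-! The data of a Galois extension over a ring of functions. -/

set_option autoImplicit false

open Polynomial



namespace NF83

open CM83 NR83 WA83

variable {kk : Type} [Field kk] [CharZero kk]

/-- the product of the `X - β g y` has its coefficients in the fixed field -/
private theorem RevA_coeff {M : Type} [Field M] [Algebra kk M] {G : Type} [Group G] [Fintype G]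
    (β : G →* (M ≃ₐ[kk] M)) (y : M) (n : ℕ) :
    (∏ g, (X - C (β g y)) : M[X]).coeff n ∈ fixF β := by
  rw [mem_fixF]
  intro h
  have h1 : (∏ g, (X - C (β g y)) : M[X]).map (β h : M →+* M) = ∏ g, (X - C (β g y)) := by
    rw [Polynomial.map_prod]
    have h2 : ∀ g, (X - C (β g y) : M[X]).map (β h : M →+* M) = X - C (β (h * g) y) := by
      intro g
      rw [Polynomial.map_sub, Polynomial.map_X, Polynomial.map_C, map_mul]
      rfl
    rw [Finset.prod_congr rfl fun g _ => h2 g]
    exact Fintype.prod_equiv (Equiv.mulLeft h) _ _ fun g => rfl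
  have h3 := congrArg (fun P : M[X] => P.coeff n) h1
  simp only [Polynomial.coeff_map] at h3
  exact h3

/-- lifting of a polynomial with coefficients in a subalgebra -/
private theorem RevA_lift {M : Type} [Field M] [Algebra kk M] {F : IntermediateField kk M}
    {A : Subalgebra kk M} {T : Finset F} (hT : ∀ c ∈ T, (c : M) ∈ A) (P : F[X])
    (hP : P.coeffs ⊆ T) :
    ∃ P' : A[X], P'.map (algebraMap A M) = P.map (algebraMap F M) := by
  rw [← Polynomial.mem_lifts, Polynomial.lifts_iff_coeff_lifts]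
  intro n
  rw [Polynomial.coeff_map]
  by_cases h : P.coeff n = 0
  · exact ⟨0, by rw [h, map_zero, map_zero]⟩
  · exact ⟨⟨_, hT _ (hP (Polynomial.coeff_mem_coeffs h))⟩, rfl⟩

private theorem RevA_aeval {R M : Type} [CommRing R] [Field M] [Algebra R M] (P : R[X]) (y : M) :
    aeval y P = (P.map (algebraMap R M)).eval y := by
  rw [Polynomial.aeval_def, Polynomial.eval₂_eq_eval_map]

private theorem RevA_main {M : Type} [Field M] [Algebra kk M] {G : Type} [Group G] [Fintype G]
    (β : G →* (M ≃ₐ[kk] M)) (hβ : Function.Injective β)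
    (hM : ∃ s : Finset M, IntermediateField.adjoin kk (s : Set M) = ⊤) (a : M) :
    ∃ (m : ℕ) (f D : (MvPolynomial (Fin m) kk)[X])
      (ξ : Fin m → fixF β) (η : fixF β) (A : Subalgebra kk M) (y : M) (Φ : A[X])
      (R : G → A[X]) (Q : A[X]), Generic f (fixF β) ξ η ∧
      evP (algebraMap kk (fixF β)) ξ η D ≠ 0 ∧ (∀ c ∈ A, c ∈ fixF β) ∧
      (∀ C, ((evP (algebraMap kk (fixF β)) ξ η C : fixF β) : M) ∈ A) ∧
      (∀ c ∈ A, ∃ (C : (MvPolynomial (Fin m) kk)[X]) (N : ℕ),
        c * ((evP (algebraMap kk (fixF β)) ξ η D : fixF β) : M) ^ N =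
          ((evP (algebraMap kk (fixF β)) ξ η C : fixF β) : M)) ∧
      (∀ (L : Type) [Field L] (φ : kk →+* L) (x : Fin m → L) (y : L), evP φ x y f = 0 →
        evP φ x y D ≠ 0 → ∃ ψ : A →+* L, ∀ (c : A) (C : (MvPolynomial (Fin m) kk)[X]),
          (c : M) = ((evP (algebraMap kk (fixF β)) ξ η C : fixF β) : M) →
            ψ c = evP φ x y C) ∧
      Φ.map (algebraMap A M) = ∏ g, (X - C (β g y)) ∧ (∀ g, aeval y (R g) = β g y) ∧
      aeval y Q = a ∧ Φ.Separable := by
  classical
  have : Finite β.range := Finite.of_surjective β.rangeRestrict β.rangeRestrict_surjective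
  have h1 : FiniteDimensional (fixF β) M := by
    unfold fixF
    exact inferInstanceAs (FiniteDimensional (FixedPoints.subfield β.range M) M)
  have : Algebra.IsAlgebraic (fixF β) M := Algebra.IsAlgebraic.of_finite _ _
  obtain ⟨m, f, ξ, η, hgen⟩ := exists_generic (fixF β) hM
  obtain ⟨y, hy, hz⟩ := exists_prim β hβ
  choose R₀ hR₀ using fun g => hz (β g y)
  obtain ⟨Q₀, hQ₀⟩ := hz a
  have hΦ : (∏ g, (X - C (β g y)) : M[X]) ∈ Polynomial.lifts (algebraMap (fixF β) M) := by
    rw [Polynomial.lifts_iff_coeff_lifts]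
    exact fun n => ⟨⟨_, RevA_coeff β y n⟩, rfl⟩
  obtain ⟨Φ₁, hΦ₁⟩ := (Polynomial.mem_lifts _).1 hΦ
  have hsep : Φ₁.Separable := by
    rw [← Polynomial.separable_map (algebraMap (fixF β) M), hΦ₁]
    exact Polynomial.separable_prod_X_sub_C_iff.2 hy
  obtain ⟨U₀, V₀, hUV⟩ := hsep
  obtain ⟨D, A, hD, hAF, hTA, hev, hden, hhom⟩ := spec_ring (fixF β) hgen
    (Φ₁.coeffs ∪ (U₀.coeffs ∪ (V₀.coeffs ∪ (Q₀.coeffs ∪
      Finset.univ.biUnion fun g => (R₀ g).coeffs))))
  have hR₁ : ∀ g, ∃ P' : A[X], P'.map (algebraMap A M) = (R₀ g).map (algebraMap (fixF β) M) :=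
    fun g => RevA_lift hTA (R₀ g) (by
      intro c hc
      simp only [Finset.mem_union, Finset.mem_biUnion]
      exact Or.inr (Or.inr (Or.inr (Or.inr ⟨g, Finset.mem_univ g, hc⟩))))
  choose R hR using hR₁
  obtain ⟨Φ, hΦ2⟩ := RevA_lift hTA Φ₁ Finset.subset_union_left
  obtain ⟨U, hU⟩ := RevA_lift hTA U₀ (by
    intro c hc
    simp only [Finset.mem_union]
    exact Or.inr (Or.inl hc))
  obtain ⟨V, hV⟩ := RevA_lift hTA V₀ (by
    intro c hc
    simp only [Finset.mem_union]
    exact Or.inr (Or.inr (Or.inl hc)))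
  obtain ⟨Q, hQ⟩ := RevA_lift hTA Q₀ (by
    intro c hc
    simp only [Finset.mem_union]
    exact Or.inr (Or.inr (Or.inr (Or.inl hc))))
  refine ⟨m, f, D, ξ, η, A, y, Φ, R, Q, hgen, hD, hAF, hev, hden, hhom, ?_, ?_, ?_, ?_⟩
  · rw [hΦ2, hΦ₁]
  · intro g
    rw [RevA_aeval, hR, ← RevA_aeval, hR₀]
  · rw [RevA_aeval, hQ, ← RevA_aeval, hQ₀]
  · refine ⟨U, V, ?_⟩
    apply Polynomial.map_injective (algebraMap A M) Subtype.val_injective
    have h2 := congrArg (Polynomial.map (algebraMap (fixF β) M)) hUV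
    rw [Polynomial.map_add, Polynomial.map_mul, Polynomial.map_mul, Polynomial.map_one,
      ← Polynomial.derivative_map] at h2
    rw [Polynomial.map_add, Polynomial.map_mul, Polynomial.map_mul, Polynomial.map_one,
      ← Polynomial.derivative_map, hU, hV, hΦ2, h2]

/-- The data of a Galois extension over a ring of functions.  Proof: `exists_semi` (nr/Semi.lean) : `β`;
`M = RF K d`, `F = fixF β`.  `exists_generic` (`M` is generated by the variables and a basis of `K`, and
it is algebraic over `F`).  `exists_prim`: `y`; polynomials `R₀ g`, `Q₀` over `F` with `R₀ g (y) = β g y`,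
`Q₀ (y) = a`; `Φ₀ = ∏ (X - β g y)` has its coefficients in `F`, and it is separable.  `spec_ring` for the
set `T` of all coefficients of `Φ₀`, `R₀ g`, `Q₀` and of `U₀`, `V₀` with `U₀ Φ₀ + V₀ Φ₀' = 1`; lift the
polynomials to `A`. -/
theorem rev_data {K : Type} [Field K] [Algebra kk K] [FiniteDimensional kk K] {G : Type} [Group G]
    [Fintype G] (α : G →* (K ≃ₐ[kk] K)) (a : K) :
    ∃ (d : ℕ) (β : G →* (RF K d ≃ₐ[kk] RF K d)) (m : ℕ) (f D : (MvPolynomial (Fin m) kk)[X])
      (ξ : Fin m → fixF β) (η : fixF β) (A : Subalgebra kk (RF K d)) (y : RF K d) (Φ : A[X])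
      (R : G → A[X]) (Q : A[X]), SemiLin α β ∧ Generic f (fixF β) ξ η ∧
      evP (algebraMap kk (fixF β)) ξ η D ≠ 0 ∧ (∀ c ∈ A, c ∈ fixF β) ∧
      (∀ C, ((evP (algebraMap kk (fixF β)) ξ η C : fixF β) : RF K d) ∈ A) ∧
      (∀ c ∈ A, ∃ (C : (MvPolynomial (Fin m) kk)[X]) (N : ℕ),
        c * ((evP (algebraMap kk (fixF β)) ξ η D : fixF β) : RF K d) ^ N =
          ((evP (algebraMap kk (fixF β)) ξ η C : fixF β) : RF K d)) ∧
      (∀ (L : Type) [Field L] (φ : kk →+* L) (x : Fin m → L) (y : L), evP φ x y f = 0 →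
        evP φ x y D ≠ 0 → ∃ ψ : A →+* L, ∀ (c : A) (C : (MvPolynomial (Fin m) kk)[X]),
          (c : RF K d) = ((evP (algebraMap kk (fixF β)) ξ η C : fixF β) : RF K d) →
            ψ c = evP φ x y C) ∧
      Φ.map (algebraMap A (RF K d)) = ∏ g, (X - C (β g y)) ∧ (∀ g, aeval y (R g) = β g y) ∧
      aeval y Q = algebraMap K (RF K d) a ∧ Φ.Separable := by
  obtain ⟨d, β, hβ⟩ := exists_semi α
  have hM : ∃ s : Finset (RF K d), IntermediateField.adjoin kk (s : Set (RF K d)) = ⊤ := by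
    classical
    have h1 : IntermediateField.adjoin kk (Set.range (Module.finBasis kk K)) = ⊤ := by
      rw [eq_top_iff]
      intro x _
      rw [← (Module.finBasis kk K).sum_repr x]
      refine sum_mem fun i _ => ?_
      have hb : Module.finBasis kk K i ∈
          IntermediateField.adjoin kk (Set.range (Module.finBasis kk K)) :=
        IntermediateField.subset_adjoin _ _ (Set.mem_range_self i)
      exact IntermediateField.smul_mem _ hb
    have h2 := core_top (A := RF K d) h1 (adjoin_xv (k := K) (n := d))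
    refine ⟨(Set.finite_range (Sum.elim (xv K : Fin d → RF K d)
      (algebraMap K (RF K d) ∘ Module.finBasis kk K))).toFinset, ?_⟩
    rw [Set.Finite.coe_toFinset]
    exact h2
  obtain ⟨m, f, D, ξ, η, A, y, Φ, R, Q, h⟩ :=
    RevA_main β hβ.inj hM (algebraMap K (RF K d) a)
  exact ⟨d, β, m, f, D, ξ, η, A, y, Φ, R, Q, hβ, h⟩

end NF83
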