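import Pool.Agent.H.MP_83e36b_nt.rf.SDefR
import Pool.Agent.H.MP_83e36b_nt.rf.LGenR
import Pool.Agent.H.MP_83e36b_nt.wa.Alg

/-! The local points given by homomorphisms of the local Galois groups. -/

set_option autoImplicit false

open Polynomial

open DC83

namespace NF83

open CM83 NR83 WA83

variable {kk : Type} [Field kk] [CharZero kk]

/-- a homomorphism at a polynomial in `ξ`, `η` -/
private theorem RevB_hom {m : ℕ} {F : Type*} [Field F] [Algebra kk F] (ξ : Fin m → F) (η : F)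
    {L : Type*} [Field L] (ψ : F →+* L) (φ : kk →+* L) (hφ : ψ.comp (algebraMap kk F) = φ)
    (q : (MvPolynomial (Fin m) kk)[X]) :
    evP φ (fun j => ψ (ξ j)) (ψ η) q = ψ (evP (algebraMap kk F) ξ η q) := by
  have h : evP φ (fun j => ψ (ξ j)) (ψ η) = ψ.comp (evP (algebraMap kk F) ξ η) := by
    unfold evP
    apply Polynomial.ringHom_ext'
    · apply MvPolynomial.ringHom_ext'
      · subst hφ
        ext c
        simp
      · intro i
        simp
    · simp
  exact RingHom.congr_fun h q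

/-- the derivative does not vanish at the generic point -/
private theorem RevB_der {m : ℕ} {f : (MvPolynomial (Fin m) kk)[X]} {F : Type*} [Field F]
    [Algebra kk F] {ξ : Fin m → F} {η : F} (h : Generic f F ξ η) :
    evP (algebraMap kk F) ξ η (derivative f) ≠ 0 := by
  intro h0
  have h1 := h.dvd _ h0
  have h2 : f.natDegree ≠ 0 := by
    intro h3
    apply h.deg
    rw [Polynomial.eq_C_of_natDegree_eq_zero h3, derivative_C]
  exact h.deg (Polynomial.eq_zero_of_dvd_of_natDegree_lt h1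
    (Polynomial.natDegree_derivative_lt h2))

/-- an automorphism which is trivial on the ring of coefficients -/
private theorem RevB_aeval {E : Type*} [Field E] [Algebra kk E] (A : Subalgebra kk E)
    (σ : E ≃ₐ[kk] E) (hσ : ∀ c ∈ A, σ c = c) (y : E) (p : A[X]) :
    aeval (σ y) p = σ (aeval y p) := by
  have h : (σ : E →+* E).comp (algebraMap A E) = algebraMap A E := by
    ext c
    exact hσ c.1 c.2
  have h2 := Polynomial.hom_eval₂ p (algebraMap A E) (σ : E →+* E) y
  rw [h] at h2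
  exact h2.symm

/-- The local points.  Proof: `loc_gen` for `lam`: `θ`.  For `z ∈ fixF β` the element `θ z` is fixed by
all `τ`, so it is in `L` (`exists_of_fixed`): a homomorphism `ψF : fixF β → L`; `x₀ = ψF ∘ ξ`,
`y₀ = ψF η`; `f(x₀, y₀) = ψF (f(ξ, η)) = 0`, `f_y(ξ, η) ≠ 0` (`Generic`; see `STrG_der` in td/STrG.lean)
and `D(ξ, η) ≠ 0`.  `ψ₀` is the restriction of `ψF` to `A`; `r₀ g = θ (β g y)`. -/
theorem rev_local [Countable kk] {K : Type} [Field K] [Algebra kk K] [FiniteDimensional kk K] {G : Type} [Group G]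
    [Fintype G] {α : G →* (K ≃ₐ[kk] K)} {a : K} {d : ℕ} {β : G →* (RF K d ≃ₐ[kk] RF K d)} {m : ℕ}
    {f D : (MvPolynomial (Fin m) kk)[X]} {ξ : Fin m → fixF β} {η : fixF β}
    {A : Subalgebra kk (RF K d)} {y : RF K d} {Φ : A[X]} {R : G → A[X]} {Q : A[X]}
    (hβ : SemiLin α β) (hgen : Generic f (fixF β) ξ η)
    (hD : evP (algebraMap kk (fixF β)) ξ η D ≠ 0) (hA : ∀ c ∈ A, c ∈ fixF β)
    (hΦ : Φ.map (algebraMap A (RF K d)) = ∏ g, (X - C (β g y)))
    (hR : ∀ g, aeval y (R g) = β g y) (hQ : aeval y Q = algebraMap K (RF K d) a)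
    (hd : Φ.Separable) {L : Type} [NontriviallyNormedField L] [CharZero L]
    (hL : ∀ (x : L) (δ : ℝ), 0 < δ → ¬ (Metric.ball x δ).Countable) {Ω : Type} [Field Ω]
    [Algebra L Ω] [IsAlgClosed Ω] [Algebra.IsAlgebraic L Ω] (φ : kk →+* L) (lam : K →+* Ω)
    (hφ : lam.comp (algebraMap kk K) = (algebraMap L Ω).comp φ)
    {ρ : (Ω ≃ₐ[L] Ω) →* G} (hρ : Cts ρ) (hlam : ∀ τ x, τ (lam x) = lam (α (ρ τ) x)) :
    ∃ (P : Pts f D φ) (ψ₀ : A →+* L) (r₀ : G → Ω),
      (∀ (c : A) (C : (MvPolynomial (Fin m) kk)[X]),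
        (c : RF K d) = ((evP (algebraMap kk (fixF β)) ξ η C : fixF β) : RF K d) →
          ψ₀ c = evP φ P.1.1 P.1.2 C) ∧
      SpecPt Φ R Q α a ((algebraMap L Ω).comp ψ₀) r₀ lam ∧
      ∀ τ g, τ (r₀ g) = r₀ (ρ τ * g) := by
  classical
  obtain ⟨θ, hθ1, hθ2⟩ := loc_gen β hβ hL φ lam hφ hρ hlam
  have hinj : Function.Injective (algebraMap L Ω) := (algebraMap L Ω).injective
  have hfix : ∀ z : fixF β, ∃ b : L, algebraMap L Ω b = θ (z : RF K d) := by
    intro z
    apply exists_of_fixed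
    intro τ
    rw [hθ2, (mem_fixF β _).1 z.2]
  choose b hb using hfix
  let ψF : fixF β →+* L :=
    { toFun := b
      map_one' := hinj (by rw [hb, map_one]; exact map_one θ)
      map_mul' := fun u v => hinj (by rw [hb, map_mul, hb, hb]; exact map_mul θ _ _)
      map_zero' := hinj (by rw [hb, map_zero]; exact map_zero θ)
      map_add' := fun u v => hinj (by rw [hb, map_add, hb, hb]; exact map_add θ _ _) }
  have hψF : ∀ z : fixF β, algebraMap L Ω (ψF z) = θ (z : RF K d) := hb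
  have hψφ : ψF.comp (algebraMap kk (fixF β)) = φ := by
    ext c
    apply hinj
    rw [RingHom.comp_apply, hψF]
    have h1 : ((algebraMap kk (fixF β) c : fixF β) : RF K d) =
        algebraMap K (RF K d) (algebraMap kk K c) := by
      rw [← IsScalarTower.algebraMap_apply kk K (RF K d)]
      rfl
    rw [h1, hθ1]
    exact RingHom.congr_fun hφ c
  let iA : A →+* fixF β :=
    { toFun := fun c => ⟨c.1, hA c.1 c.2⟩
      map_one' := rfl
      map_mul' := fun _ _ => rfl
      map_zero' := rfl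
      map_add' := fun _ _ => rfl }
  have hcomp : (algebraMap L Ω).comp (ψF.comp iA) = θ.comp (algebraMap A (RF K d)) := by
    ext c
    exact hψF (iA c)
  have hβA : ∀ g, ∀ c ∈ A, β g c = c := fun g c hc => (mem_fixF β c).1 (hA c hc) g
  have hev : ∀ (g : G) (p : A[X]),
      p.eval₂ (θ.comp (algebraMap A (RF K d))) (θ (β g y)) = θ (β g (aeval y p)) := by
    intro g p
    rw [← RevB_aeval A (β g) (hβA g) y p]
    exact (Polynomial.hom_eval₂ p (algebraMap A (RF K d)) θ (β g y)).symm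
  refine ⟨⟨(fun j => ψF (ξ j), ψF η), ?_, ?_, ?_⟩, ψF.comp iA, fun g => θ (β g y), ?_, ⟨?_, ?_, ?_, ?_⟩, ?_⟩
  · show evP φ (fun j => ψF (ξ j)) (ψF η) f = 0
    rw [RevB_hom ξ η ψF φ hψφ, hgen.zero, map_zero]
  · show evP φ (fun j => ψF (ξ j)) (ψF η) (derivative f) ≠ 0
    rw [RevB_hom ξ η ψF φ hψφ]
    exact fun h => RevB_der hgen ((map_eq_zero ψF).1 h)
  · show evP φ (fun j => ψF (ξ j)) (ψF η) D ≠ 0
    rw [RevB_hom ξ η ψF φ hψφ]
    exact fun h => hD ((map_eq_zero ψF).1 h)
  · intro c C hc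
    show ψF (iA c) = evP φ (fun j => ψF (ξ j)) (ψF η) C
    rw [RevB_hom ξ η ψF φ hψφ]
    congr 1
    exact Subtype.ext hc
  · have h1 : (Φ.map (algebraMap A (RF K d))).Separable := hd.map
    rw [hΦ] at h1
    have h2 := (Polynomial.separable_prod_X_sub_C_iff).1 h1
    exact θ.injective.comp h2
  · rw [hcomp, ← Polynomial.map_map, hΦ, Polynomial.map_prod]
    apply Finset.prod_congr rfl
    intro g _
    rw [Polynomial.map_sub, Polynomial.map_X, Polynomial.map_C]
  · intro g h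
    show (R h).eval₂ ((algebraMap L Ω).comp (ψF.comp iA)) (θ (β g y)) = θ (β (g * h) y)
    rw [hcomp, hev, hR, map_mul]
    rfl
  · intro g
    show Q.eval₂ ((algebraMap L Ω).comp (ψF.comp iA)) (θ (β g y)) = lam (α g a)
    rw [hcomp, hev, hQ, hβ.coeff, hθ1]
  · intro τ g
    show τ (θ (β g y)) = θ (β (ρ τ * g) y)
    rw [hθ2, map_mul]
    rfl

end NF83
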