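import Pool.Agent.H.MP_83e36b_nt.rf.GDefR
import Pool.Agent.H.MP_83e36b_nt.rf.ExtR
import Pool.Agent.H.MP_83e36b_nt.rf.HomR
import Pool.Agent.H.MP_83e36b_nt.rf.NearR
import Pool.Agent.H.MP_83e36b_nt.rf.RevAR
import Pool.Agent.H.MP_83e36b_nt.rf.RevBR
import Pool.Agent.H.MP_83e36b_nt.wa.Local
import Pool.Agent.H.MP_83e36b_nt.nf.TrG

/-! From weak approximation to the relative Grunwald problem; as tw/Rev.lean. -/

set_option autoImplicit false

open Polynomial SpinWA Topology DC83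

namespace NF83

open CM83 NR83 WA83

/-- weak approximation at the places of the system -/
def WAPl (kk : Type) [Field kk] [PlSys kk] {m : ℕ} (f g : (MvPolynomial (Fin m) kk)[X]) : Prop :=
  ∀ (S : Finset (Pk kk)) (P : ∀ v : Pk kk, Pts f g (em v)) (δ : ℝ), 0 < δ →
    ∃ p : Pts f g (RingHom.id kk), ∀ v ∈ S,
      (∀ j, ‖em v (p.1.1 j) - (P v).1.1 j‖ < δ) ∧ ‖em v p.1.2 - (P v).1.2‖ < δ

/-- Proof: `cont` of wa/Local.lean. -/
theorem quot_near {kk : Type} [Field kk] {L : Type} [NormedField L] (φ : kk →+* L) {m : ℕ}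
    (D C : (MvPolynomial (Fin m) kk)[X]) (N : ℕ) (x : Fin m → L) (y : L)
    (hD : evP φ x y D ≠ 0) {ε : ℝ} (hε : 0 < ε) :
    ∃ δ : ℝ, 0 < δ ∧ ∀ (x' : Fin m → L) (y' : L), (∀ j, ‖x' j - x j‖ < δ) → ‖y' - y‖ < δ →
      ‖evP φ x' y' C / evP φ x' y' D ^ N - evP φ x y C / evP φ x y D ^ N‖ < ε := by
  have hc : ContinuousAt (fun p : (Fin m → L) × L =>
      evP φ p.1 p.2 C / evP φ p.1 p.2 D ^ N) (x, y) :=
    ((cont φ C).continuousAt).div ((cont φ D).continuousAt.pow N) (pow_ne_zero N hD)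
  rw [Metric.continuousAt_iff] at hc
  obtain ⟨δ, hδ, h⟩ := hc ε hε
  refine ⟨δ, hδ, fun x' y' hx hy => ?_⟩
  have h1 : dist ((x', y') : (Fin m → L) × L) (x, y) < δ := by
    rw [Prod.dist_eq, max_lt_iff]
    constructor
    · rw [dist_pi_lt_iff hδ]
      intro j
      rw [dist_eq_norm]
      exact hx j
    · rw [dist_eq_norm]
      exact hy
  have h2 := h h1
  rw [dist_eq_norm] at h2
  exact h2

/-- Proof: as `rev_transfer` in tw/Rev.lean. -/
theorem rev_transferR {kk : Type} [Field kk] [CharZero kk] [Countable kk] [PlSys kk] {K : Type}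
    [Field K] [Algebra kk K] [FiniteDimensional kk K] [IsGalois kk K]
    {G : Type} [Group G] [Finite G] {α : G →* (K ≃ₐ[kk] K)} (hα : Function.Surjective α)
    (h : ∀ (d : ℕ) (β : G →* (RF K d ≃ₐ[kk] RF K d)), SemiLin α β →
      ∀ (m : ℕ) (f g : (MvPolynomial (Fin m) kk)[X]) (ξ : Fin m → fixF β) (η : fixF β),
      Generic f (fixF β) ξ η → evP (algebraMap kk (fixF β)) ξ η g ≠ 0 → WAPl kk f g) :
    RelGr kk α := by
  classical
  intro S κ hκk ι hι ρ hρ hc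
  let _ : Fintype G := Fintype.ofFinite G
  obtain ⟨a, ha⟩ := Field.exists_primitive_element kk K
  have ha' : ∀ x : K, ∃ u : kk[X], x = aeval a u := by
    intro x
    have hx : x ∈ IntermediateField.adjoin kk {a} := by
      rw [ha]
      exact IntermediateField.mem_top
    have hai : IsAlgebraic kk a := Algebra.IsAlgebraic.isAlgebraic a
    rw [← IntermediateField.mem_toSubalgebra,
      IntermediateField.adjoin_simple_toSubalgebra_of_isAlgebraic hai,
      Algebra.adjoin_singleton_eq_range_aeval] at hx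
    obtain ⟨u, hu⟩ := hx
    exact ⟨u, hu.symm⟩
  obtain ⟨d, β, m, f, D, ξ, η, A, y, Φ, R, Q, hβ, hgen, hD, hA, hAC, hAN, hAψ, hΦ, hR, hQ, hsep⟩ :=
    rev_data α a
  have hlam : ∀ v : Pk kk, ((ι v).comp κ).comp (algebraMap kk K) =
      (algebraMap (Cp v) (Ok v)).comp (em v) := by
    intro v
    rw [RingHom.comp_assoc, hκk, hι v]
  have hloc := fun v : Pk kk => rev_local hβ hgen hD hA hΦ hR hQ hsep (L := Cp v)
    (ball_uncountable v) (Ω := Ok v) (em v) ((ι v).comp κ) (hlam v) (hρ v)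
    (hc v)
  choose P ψ₀ r₀ hψ₀ h₀ hτ₀ using hloc
  choose T ε hε hnear using fun v : Pk kk =>
    spec_near Φ R Q α a (ψ₀ v) ((ι v).comp κ) (r₀ v) (h₀ v)
  choose C N hCN using hAN
  -- the values of a homomorphism given by a point
  have hval : ∀ (L : Type) [Field L] (φ : kk →+* L) (x' : Fin m → L) (y' : L) (ψ : A →+* L),
      (∀ (c : A) (C : (MvPolynomial (Fin m) kk)[X]),
        (c : RF K d) = ((evP (algebraMap kk (fixF β)) ξ η C : fixF β) : RF K d) →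
          ψ c = evP φ x' y' C) → evP φ x' y' D ≠ 0 → ∀ c : A,
      ψ c = evP φ x' y' (C c c.2) / evP φ x' y' D ^ N c c.2 := by
    intro L _ φ x' y' ψ hψ hD' c
    have h1 : ψ ⟨_, hAC D⟩ = evP φ x' y' D := hψ _ D rfl
    have h2 : ψ ⟨_, hAC (C c c.2)⟩ = evP φ x' y' (C c c.2) := hψ _ _ rfl
    rw [eq_div_iff (pow_ne_zero _ hD'), ← h1, ← h2, ← map_pow, ← map_mul]
    congr 1
    exact Subtype.ext (hCN c c.2)
  have hδ : ∀ᶠ δ : ℝ in 𝓝[>] 0, ∀ v ∈ S, ∀ c ∈ T v, ∀ (x' : Fin m → Cp v) (y' : Cp v),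
      (∀ j, ‖x' j - (P v).1.1 j‖ < δ) → ‖y' - (P v).1.2‖ < δ →
      ‖evP (em v) x' y' (C c c.2) / evP (em v) x' y' D ^ N c c.2 -
        evP (em v) (P v).1.1 (P v).1.2 (C c c.2) /
          evP (em v) (P v).1.1 (P v).1.2 D ^ N c c.2‖ < ε v := by
    rw [Filter.eventually_all_finset]
    intro v _
    rw [Filter.eventually_all_finset]
    intro c _
    obtain ⟨δ, hδ0, hδ1⟩ := quot_near (em v) D (C c c.2) (N c c.2) (P v).1.1 (P v).1.2
      (P v).2.2.2 (hε v)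
    filter_upwards [Ioo_mem_nhdsGT hδ0] with δ' hδ' x' y' hx hy
    exact hδ1 x' y' (fun j => (hx j).trans hδ'.2) (hy.trans hδ'.2)
  obtain ⟨δ, hδ1, hδ0⟩ := (hδ.and self_mem_nhdsWithin).exists
  obtain ⟨p, hp⟩ := h d β hβ m f D ξ η hgen hD S P δ hδ0
  obtain ⟨ψ, hψ⟩ := hAψ kk (RingHom.id kk) p.1.1 p.1.2 p.2.1 p.2.2.2
  have hψv := hval kk (RingHom.id kk) p.1.1 p.1.2 ψ hψ p.2.2.2
  have hψk : ψ.comp (algebraMap kk A) = RingHom.id kk := by
    ext c
    rw [RingHom.comp_apply]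
    have h1 := hψ (algebraMap kk A c) (Polynomial.C (MvPolynomial.C c)) (by
      unfold evP
      rw [Polynomial.coe_eval₂RingHom, Polynomial.eval₂_C, MvPolynomial.coe_eval₂Hom,
        MvPolynomial.eval₂_C]
      rfl)
    rw [h1]
    unfold evP
    rw [Polynomial.coe_eval₂RingHom, Polynomial.eval₂_C, MvPolynomial.coe_eval₂Hom,
      MvPolynomial.eval₂_C]
  have hik : (algebraMap K (RF K d)).comp (algebraMap kk K) = algebraMap kk (RF K d) :=
    (IsScalarTower.algebraMap_eq kk K (RF K d)).symm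
  obtain ⟨r, κ', hr, hκ'⟩ := spec_ext β (A := A) (fun g c hc' => (mem_fixF β c).1 (hA c hc') g)
    (algebraMap K (RF K d)) hik α hβ.coeff ha' hΦ hR hQ hsep (Ω := Kb kk)
    ((algebraMap kk (Kb kk)).comp ψ)
  rw [RingHom.comp_assoc, hψk, RingHom.comp_id] at hκ'
  have halg : Algebra.IsAlgebraic kk (Kb kk) := AlgebraicClosure.isAlgebraic kk
  obtain ⟨r', ρ₀, hr', hcts, hτ, hκ⟩ := spec_hom hα ha' hr hκ' κ hκk
  refine ⟨ρ₀, hcts, hκ, fun v hv => ?_⟩
  have hcomp : (algebraMap (Cp v) (Ok v)).comp ((em v).comp ψ) =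
      (ι v).comp ((algebraMap kk (Kb kk)).comp ψ) := by
    rw [← RingHom.comp_assoc, ← RingHom.comp_assoc, hι v]
  have hspec : SpecPt Φ R Q α a ((algebraMap (Cp v) (Ok v)).comp ((em v).comp ψ))
      (fun g => ι v (r' g)) ((ι v).comp κ) := by
    rw [hcomp]
    refine ⟨fun g g' hg => hr'.inj ((ι v).injective hg), ?_, fun g g' => ?_, fun g => ?_⟩
    · rw [← Polynomial.map_map, hr'.root, Polynomial.map_prod]
      simp
    · rw [← Polynomial.hom_eval₂, hr'.mul]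
    · rw [← Polynomial.hom_eval₂, hr'.kap]
      rfl
  obtain ⟨k, hk, hk'⟩ := hnear v ((em v).comp ψ) (fun c hcT => by
    have h1 := hδ1 v hv c hcT (fun j => em v (p.1.1 j)) (em v p.1.2) (hp v hv).1 (hp v hv).2
    rw [← hval (Cp v) (em v) (P v).1.1 (P v).1.2 (ψ₀ v) (hψ₀ v) (P v).2.2.2 c] at h1
    have e1 : ∀ q : (MvPolynomial (Fin m) kk)[X],
        evP (em v) (fun j => em v (p.1.1 j)) (em v p.1.2) q =
          em v (evP (RingHom.id kk) p.1.1 p.1.2 q) := fun q => evP_comp (em v) _ _ q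
    rw [e1, e1, ← map_pow, ← map_div₀, ← hψv c] at h1
    exact h1) _ hspec
  have hαk : α k = 1 := by
    ext x
    obtain ⟨u, rfl⟩ := ha' x
    have h1 := Polynomial.aeval_algHom_apply (α k : K →ₐ[kk] K) a u
    rw [AlgEquiv.one_apply]
    refine h1.symm.trans ?_
    congr 2
  refine ⟨k, hαk, fun τ τ₀ hττ => ?_⟩
  have h1 : τ (r₀ v 1) = r₀ v (ρ v τ) := by
    rw [hτ₀ v τ 1, mul_one]
  have h2 := hk' τ (ρ v τ) h1
  rw [← hττ, hτ] at h2
  have h3 := hr'.inj ((ι v).injective h2)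
  rw [eq_mul_inv_iff_mul_eq]
  exact h3

end NF83
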