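import Pool.Agent.H.MP_83e36b_nt.nf.Quad

/-! The Grunwald problem relative to a Galois extension, over a field with completions; as td/GDef.lean. -/

set_option autoImplicit false

open DC83

namespace NF83

/-- the Grunwald problem for the finite group `G` over `kk` relative to the homomorphism
`α : G → Gal(K/kk)`: homomorphisms `ρ v` of the absolute Galois groups of the completions to `G` which
induce by `α` the action on `K` are, at the places of `S` and up to conjugation by the kernel of `α`,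
the restrictions of a homomorphism of the absolute Galois group of `kk` to `G` which induces by `α`
the action on `K` -/
def RelGr (kk : Type) [Field kk] [PlSys kk] {K : Type} [Field K] [Algebra kk K] {G : Type} [Group G]
    (α : G →* (K ≃ₐ[kk] K)) : Prop :=
  ∀ (S : Finset (Pk kk)) (κ : K →+* Kb kk)
    (_ : κ.comp (algebraMap kk K) = algebraMap kk (Kb kk)) (ι : ∀ v : Pk kk, Kb kk →+* Ok v)
    (_ : ∀ v : Pk kk, (ι v).comp (algebraMap kk (Kb kk)) = (algebraMap (Cp v) (Ok v)).comp (em v))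
    (ρ : ∀ v : Pk kk, (Ok v ≃ₐ[Cp v] Ok v) →* G), (∀ v, Cts (ρ v)) →
    (∀ v τ x, τ (ι v (κ x)) = ι v (κ (α (ρ v τ) x))) →
    ∃ ρ₀ : (Kb kk ≃ₐ[kk] Kb kk) →* G, Cts ρ₀ ∧ (∀ τ x, τ (κ x) = κ (α (ρ₀ τ) x)) ∧
      ∀ v ∈ S, ∃ g : G, α g = 1 ∧ ∀ τ τ₀,
        (∀ x, ι v (τ₀ x) = τ (ι v x)) → ρ₀ τ₀ = g * ρ v τ * g⁻¹

end NF83
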