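import Pool.Agent.H.MP_83e36b_nt.dc.Gal
import Pool.Agent.H.MP_83e36b_nt.nf.Res

/-! The parameters of a local point on a twist, semilinear case; as td/STrGp.lean over an arbitrary
field. -/

set_option autoImplicit false

open Matrix DC83

namespace NF83

/-- Proof: as `loc_param2` in td/STrGp.lean, with `exists_res j ι hι` of nf/Res.lean (compare
nf/TrGp.lean, the port of dc/TrGp.lean). -/
theorem loc_paramR {k : Type} [Field k] [CharZero k] {K : Type} [Field K] [Algebra k K] {G : Type}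
    [Group G] {α : G →* (K ≃ₐ[k] K)} {d : ℕ} {N : G → Matrix (Fin d) (Fin d) K} (hN1 : N 1 = 1)
    (hN : ∀ g h, N (g * h) = (N h).map (α g) * N g) {L : Type} [Field L] [CharZero L] {Ω : Type}
    [Field Ω] [Algebra L Ω] [IsAlgClosed Ω] [Algebra.IsAlgebraic L Ω] {Ω₀ : Type} [Field Ω₀]
    [Algebra k Ω₀] [IsAlgClosed Ω₀] [Algebra.IsAlgebraic k Ω₀] (κ : K →+* Ω₀)
    (hκ : κ.comp (algebraMap k K) = algebraMap k Ω₀) (j : k →+* L)
    (ι : Ω₀ →+* Ω) (hι : ι.comp (algebraMap k Ω₀) = (algebraMap L Ω).comp j)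
    {ρ : (Ω ≃ₐ[L] Ω) →* G} (hρ : ∀ τ x, τ (ι (κ x)) = ι (κ (α (ρ τ) x)))
    {ρ₀ : (Ω₀ ≃ₐ[k] Ω₀) →* G} {g₀ : G} (hg₀ : α g₀ = 1)
    (hg : ∀ τ τ₀, (∀ x, ι (τ₀ x) = τ (ι x)) → ρ₀ τ₀ = g₀ * ρ τ * g₀⁻¹)
    {T : Matrix (Fin d) (Fin d) Ω₀} (hTd : T.det ≠ 0)
    (hT : ∀ τ : Ω₀ ≃ₐ[k] Ω₀, T.map τ = (N (ρ₀ τ)).map κ * T) {w : Fin d → Ω}
    (hw : ∀ τ i, τ (w i) = ∑ j, ι (κ (N (ρ τ) i j)) * w j) :
    ∃ c : Fin d → L, (T.map ι) *ᵥ (fun i => algebraMap L Ω (c i)) =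
      ((N g₀⁻¹).map (ι.comp κ)) *ᵥ w := by
  obtain ⟨r, hr⟩ := exists_res j ι hι
  obtain ⟨Φ, hΦ⟩ : ∃ Φ : Matrix (Fin d) (Fin d) K →+* Matrix (Fin d) (Fin d) Ω,
    Φ = (ι.comp κ).mapMatrix := ⟨_, rfl⟩
  have hΦa : ∀ (A : Matrix (Fin d) (Fin d) K) (i j : Fin d), Φ A i j = ι (κ (A i j)) := by
    intro A i j
    rw [hΦ]
    rfl
  have hΦm : ∀ A : Matrix (Fin d) (Fin d) K, A.map (ι.comp κ) = Φ A := by
    intro A
    rw [hΦ]
    rfl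
  have hmap1 : ∀ (A : Matrix (Fin d) (Fin d) K) (g : G), α g = 1 → A.map (α g) = A := by
    intro A g h
    ext i j
    rw [map_apply, h]
    rfl
  have hg₀' : α g₀⁻¹ = 1 := by rw [map_inv, hg₀, inv_one]
  -- `N g₀⁻¹` and `N g₀` are inverse to each other
  have hinv : N g₀⁻¹ * N g₀ = 1 := by
    have h := hN g₀ g₀⁻¹
    rw [mul_inv_cancel, hN1, hmap1 _ _ hg₀] at h
    exact h.symm
  have hdet : IsUnit (T.map ι).det := by
    rw [← RingHom.mapMatrix_apply, ← RingHom.map_det]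
    exact isUnit_iff_ne_zero.2 ((map_ne_zero ι).2 hTd)
  obtain ⟨c', hc'⟩ : ∃ c' : Fin d → Ω, c' = (T.map ι)⁻¹ *ᵥ (Φ (N g₀⁻¹) *ᵥ w) := ⟨_, rfl⟩
  have hc : (T.map ι) *ᵥ c' = Φ (N g₀⁻¹) *ᵥ w := by
    rw [hc', mulVec_mulVec, mul_nonsing_inv _ hdet, one_mulVec]
  have hfix : ∀ (τ : Ω ≃ₐ[L] Ω) (i : Fin d), τ (c' i) = c' i := by
    intro τ
    obtain ⟨σ, hσ⟩ : ∃ σ : Ω →+* Ω, σ = (τ : Ω →+* Ω) := ⟨_, rfl⟩
    have hσa : ∀ x, σ x = τ x := fun x => by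
      rw [hσ]
      rfl
    have h1 : (T.map ι).map σ = Φ (N (ρ₀ (r τ))) * T.map ι := by
      ext i j
      rw [map_apply, map_apply, hσa, ← hr]
      have h2 := congrFun (congrFun (hT (r τ)) i) j
      rw [map_apply] at h2
      rw [h2, mul_apply, mul_apply, map_sum]
      refine Finset.sum_congr rfl fun l _ => ?_
      rw [map_mul, map_apply, map_apply, hΦa]
    have h2 : σ ∘ w = Φ (N (ρ τ)) *ᵥ w := by
      funext i
      rw [Function.comp_apply, hσa, hw τ i]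
      simp only [mulVec, dotProduct, hΦa]
    have h3 : (Φ (N g₀⁻¹)).map σ = Φ ((N g₀⁻¹).map (α (ρ τ))) := by
      ext i j
      rw [map_apply, hΦa, hΦa, hσa, hρ, map_apply]
    have h4 : (T.map ι).map σ *ᵥ (σ ∘ c') = (Φ (N g₀⁻¹)).map σ *ᵥ (σ ∘ w) := by
      funext i
      rw [← RingHom.map_mulVec, ← RingHom.map_mulVec, hc]
    obtain ⟨x, hx⟩ : ∃ x, x = ρ τ * g₀⁻¹ := ⟨_, rfl⟩
    have h5 : N (ρ₀ (r τ)) = N x * N g₀ := by
      rw [hg τ (r τ) (hr τ), mul_assoc, ← hx, hN, hmap1 _ _ hg₀]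
    have h6 : (N g₀⁻¹).map (α (ρ τ)) * N (ρ τ) = N x := by
      rw [hx, hN]
    rw [h1, h2, h3, mulVec_mulVec, ← map_mul, h6, h5, map_mul] at h4
    -- cancel `N x` and `N g₀`
    have h7 : Φ ((N x⁻¹).map (α x)) * Φ (N x) = 1 := by
      rw [← map_mul, ← hN, mul_inv_cancel, hN1, map_one]
    have h8 : (T.map ι) *ᵥ (σ ∘ c') = (T.map ι) *ᵥ c' := by
      have h9 := congrArg (fun v => Φ (N g₀⁻¹) *ᵥ (Φ ((N x⁻¹).map (α x)) *ᵥ v)) h4
      beta_reduce at h9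
      rw [mulVec_mulVec (v := w), h7, one_mulVec, ← hc, Matrix.mul_assoc, ← mulVec_mulVec,
        mulVec_mulVec (M := Φ ((N x⁻¹).map (α x))), h7, one_mulVec, ← mulVec_mulVec,
        mulVec_mulVec (M := Φ (N g₀⁻¹)), ← map_mul, hinv, map_one, one_mulVec] at h9
      exact h9
    have h9 := congrArg (fun v => (T.map ι)⁻¹ *ᵥ v) h8
    beta_reduce at h9
    rw [mulVec_mulVec, mulVec_mulVec, nonsing_inv_mul _ hdet, one_mulVec, one_mulVec] at h9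
    intro i
    rw [← hσa]
    exact congrFun h9 i
  choose c hcc using fun i => exists_of_fixed (K := L) (fun τ => hfix τ i)
  refine ⟨c, ?_⟩
  have h1 : (fun i => algebraMap L Ω (c i)) = c' := funext hcc
  rw [h1, hΦm]
  exact hc

end NF83
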