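import Pool.Agent.H.MP_83e36b_nt.td.STrA
import Pool.Agent.H.MP_83e36b_nt.td.STrB
import Pool.Agent.H.MP_83e36b_nt.td.STrBp
import Pool.Agent.H.MP_83e36b_nt.td.STrC
import Pool.Agent.H.MP_83e36b_nt.td.STrE
import Pool.Agent.H.MP_83e36b_nt.td.STrF
import Pool.Agent.H.MP_83e36b_nt.td.SH90
import Pool.Agent.H.MP_83e36b_nt.dc.TrDa
import Pool.Agent.H.MP_83e36b_nt.dc.TrD
import Pool.Agent.H.MP_83e36b_nt.rf.TrGpR
import Pool.Agent.H.MP_83e36b_nt.rf.GDefR
import Pool.Agent.H.MP_83e36b_nt.nf.Res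
import Pool.Agent.H.MP_83e36b_nt.nf.TrG

/-! Transfer from the relative Grunwald problem to weak approximation; as td/STrG.lean over a field with
completions. -/

set_option autoImplicit false

open Polynomial Matrix DC83 CM83 NR83 WA83 AnWA

namespace NF83

universe u

section

open Matrix Polynomial SpinWA Topology DC83 CM83 NR83 WA83

attribute [local instance 2000] OreLocalization.instAlgebra IntermediateField.algebra' Algebra.id

variable {kk : Type} [Field kk]

/-- the point of the affine space given by the values of rational functions -/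
private def TrGR_F {K : Type} [Field K] (φ : kk →+* K) {d m : ℕ} (D C' : MvPolynomial (Fin d) kk)
    (C : Fin m → MvPolynomial (Fin d) kk) (x : Fin d → K) : (Fin m → K) × K :=
  (fun j => MvPolynomial.eval₂ φ x (C j) / MvPolynomial.eval₂ φ x D,
    MvPolynomial.eval₂ φ x C' / MvPolynomial.eval₂ φ x D)

private theorem TrGR_Fcont {K : Type} [NormedField K] (φ : kk →+* K) {d m : ℕ}
    (D C' : MvPolynomial (Fin d) kk) (C : Fin m → MvPolynomial (Fin d) kk) (c : Fin d → K)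
    (hD : MvPolynomial.eval₂ φ c D ≠ 0) : ContinuousAt (TrGR_F φ D C' C) c := by
  have hDc : ContinuousAt (fun x : Fin d → K => MvPolynomial.eval₂ φ x D) c :=
    (cont' φ D).continuousAt
  have hXc : ∀ j, ContinuousAt (fun x : Fin d → K => MvPolynomial.eval₂ φ x (C j) /
      MvPolynomial.eval₂ φ x D) c := fun j => (cont' φ (C j)).continuousAt.div hDc hD
  have hYc : ContinuousAt (fun x : Fin d → K => MvPolynomial.eval₂ φ x C' /
      MvPolynomial.eval₂ φ x D) c := (cont' φ C').continuousAt.div hDc hD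
  exact (continuousAt_pi.2 hXc).prodMk hYc

/-- the open set of the approximation, in the coordinates of the variety -/
private def TrGR_U {K : Type} [NormedField K] (φ : kk →+* K) {m : ℕ}
    (q₁ q₂ : (MvPolynomial (Fin m) kk)[X]) (X : Fin m → K) (Y : K) (ε : ℝ) :
    Set ((Fin m → K) × K) :=
  {p | (∀ j, ‖p.1 j - X j‖ < ε) ∧ ‖p.2 - Y‖ < ε ∧ evP φ p.1 p.2 q₁ ≠ 0 ∧ evP φ p.1 p.2 q₂ ≠ 0}

private theorem TrGR_Unhds {K : Type} [NormedField K] (φ : kk →+* K) {m : ℕ}
    (q₁ q₂ : (MvPolynomial (Fin m) kk)[X]) (X : Fin m → K) (Y : K) (ε : ℝ)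
    (p : (Fin m → K) × K) (hp : p ∈ TrGR_U φ q₁ q₂ X Y ε) : TrGR_U φ q₁ q₂ X Y ε ∈ 𝓝 p := by
  have h1 := (((cont φ q₁).continuousAt (x := p)).eventually_ne hp.2.2.1)
  have h2 := (((cont φ q₂).continuousAt (x := p)).eventually_ne hp.2.2.2)
  have h3 : ∀ᶠ q : (Fin m → K) × K in 𝓝 p, ∀ j, ‖q.1 j - X j‖ < ε := by
    rw [Filter.eventually_all]
    intro j
    have h4 : ContinuousAt (fun q : (Fin m → K) × K => ‖q.1 j - X j‖) p :=
      (((continuous_apply j).comp continuous_fst).sub continuous_const).norm.continuousAt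
    exact h4.eventually_lt continuousAt_const (hp.1 j)
  have h5 : ∀ᶠ q : (Fin m → K) × K in 𝓝 p, ‖q.2 - Y‖ < ε := by
    have h4 : ContinuousAt (fun q : (Fin m → K) × K => ‖q.2 - Y‖) p :=
      (continuous_snd.sub continuous_const).norm.continuousAt
    exact h4.eventually_lt continuousAt_const hp.2.1
  exact h3.and (h5.and (h1.and h2))

/-- the open set of the approximation, in the coordinates of the affine space -/
private def TrGR_set {K : Type} [NormedField K] (φ : kk →+* K) {d m : ℕ}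
    (q₁ q₂ : (MvPolynomial (Fin m) kk)[X]) (D C' : MvPolynomial (Fin d) kk)
    (C : Fin m → MvPolynomial (Fin d) kk) (X : Fin m → K) (Y : K) (ε : ℝ) : Set (Fin d → K) :=
  {x | MvPolynomial.eval₂ φ x D ≠ 0 ∧ TrGR_F φ D C' C x ∈ TrGR_U φ q₁ q₂ X Y ε}

/-- the set is a neighbourhood of each of its points -/
private theorem TrGR_nhds {K : Type} [NormedField K] (φ : kk →+* K) {d m : ℕ}
    (q₁ q₂ : (MvPolynomial (Fin m) kk)[X]) (D C' : MvPolynomial (Fin d) kk)
    (C : Fin m → MvPolynomial (Fin d) kk) (X : Fin m → K) (Y : K) (ε : ℝ) (c : Fin d → K)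
    (hc : c ∈ TrGR_set φ q₁ q₂ D C' C X Y ε) : TrGR_set φ q₁ q₂ D C' C X Y ε ∈ 𝓝 c := by
  have hDc : ContinuousAt (fun x : Fin d → K => MvPolynomial.eval₂ φ x D) c :=
    (cont' φ D).continuousAt
  have h1 := hDc.eventually_ne hc.1
  have h2 := (TrGR_Fcont φ D C' C c hc.1).eventually (TrGR_Unhds φ q₁ q₂ X Y ε _ hc.2)
  exact h1.and h2

private theorem TrGR_val {K : Type} [Field K] (φ : kk →+* K) {d : ℕ} (r : Fin d → kk)
    (Q : MvPolynomial (Fin d) kk) : MvPolynomial.eval₂ φ (fun i => φ (r i)) Q =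
      φ (MvPolynomial.eval₂ (RingHom.id kk) r Q) := by
  rw [MvPolynomial.hom_eval₂, RingHom.comp_id]

/-- the values at a rational point -/
private theorem TrGR_Frat {K : Type} [Field K] (φ : kk →+* K) {d m : ℕ}
    (D C' : MvPolynomial (Fin d) kk) (C : Fin m → MvPolynomial (Fin d) kk) (r : Fin d → kk) :
    TrGR_F φ D C' C (fun i => φ (r i)) =
      ((fun j => φ ((TrGR_F (RingHom.id kk) D C' C r).1 j)),
        φ (TrGR_F (RingHom.id kk) D C' C r).2) := by
  unfold TrGR_F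
  simp only [TrGR_val, map_div₀]

/-- a rational point of the set -/
private theorem TrGR_rat {K : Type} [NormedField K] (φ : kk →+* K) {d m : ℕ}
    (q₁ q₂ : (MvPolynomial (Fin m) kk)[X]) (D C' : MvPolynomial (Fin d) kk)
    (C : Fin m → MvPolynomial (Fin d) kk) (X : Fin m → K) (Y : K) (ε : ℝ) (r : Fin d → kk)
    (hc : (fun i => φ (r i)) ∈ TrGR_set φ q₁ q₂ D C' C X Y ε) :
    MvPolynomial.eval₂ (RingHom.id kk) r D ≠ 0 ∧
    (∀ j, ‖φ ((TrGR_F (RingHom.id kk) D C' C r).1 j) - X j‖ < ε) ∧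
    ‖φ (TrGR_F (RingHom.id kk) D C' C r).2 - Y‖ < ε ∧
    evP (RingHom.id kk) (TrGR_F (RingHom.id kk) D C' C r).1
      (TrGR_F (RingHom.id kk) D C' C r).2 q₁ ≠ 0 ∧
    evP (RingHom.id kk) (TrGR_F (RingHom.id kk) D C' C r).1
      (TrGR_F (RingHom.id kk) D C' C r).2 q₂ ≠ 0 := by
  obtain ⟨h1, h2⟩ := hc
  rw [TrGR_Frat] at h2
  obtain ⟨h2, h3, h4, h5⟩ := h2
  refine ⟨fun h => h1 ?_, h2, h3, fun h => h4 ?_, fun h => h5 ?_⟩
  · rw [TrGR_val, h, map_zero]
  · rw [evP_comp, h, map_zero]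
  · rw [evP_comp, h, map_zero]

/-- the approximation at the places of `S` -/
private theorem TrGR_core [CharZero kk] [PlSys kk] {d m : ℕ} {f g : (MvPolynomial (Fin m) kk)[X]} (S : Finset (Pk kk))
    (P : ∀ v : Pk kk, Pts f g (em v)) {ε : ℝ} (D C' : MvPolynomial (Fin d) kk)
    (C : Fin m → MvPolynomial (Fin d) kk) (c : ∀ v : Pk kk, Fin d → Cp v)
    (hS : p0 kk ∈ S) (hc : ∀ v ∈ S, c v ∈ TrGR_set (em v) (derivative f) g D C' C
      (P v).1.1 (P v).1.2 ε)
    (hf : ∀ r : Fin d → kk, MvPolynomial.eval₂ (RingHom.id kk) r D ≠ 0 → evP (RingHom.id kk)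
      (TrGR_F (RingHom.id kk) D C' C r).1 (TrGR_F (RingHom.id kk) D C' C r).2 f = 0) :
    ∃ p : Pts f g (RingHom.id kk), ∀ v ∈ S,
      (∀ j, ‖(mapPts (em v) p).1.1 j - (P v).1.1 j‖ < ε) ∧
        ‖(mapPts (em v) p).1.2 - (P v).1.2‖ < ε := by
  classical
  obtain ⟨r, hr⟩ := wa_fun S c
    (fun v => TrGR_set (em v) (derivative f) g D C' C (P v).1.1 (P v).1.2 ε)
    (fun v hv => TrGR_nhds (em v) _ _ _ _ _ _ _ _ _ (hc v hv))
  have hr' := fun v hv => TrGR_rat (em v) _ _ _ _ _ _ _ _ r (hr v hv)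
  obtain ⟨h1, -, -, h4, h5⟩ := hr' (p0 kk) hS
  refine ⟨⟨TrGR_F (RingHom.id kk) D C' C r, hf r h1, h4, h5⟩, fun v hv => ⟨fun j => ?_, ?_⟩⟩
  · exact (hr' v hv).2.1 j
  · exact (hr' v hv).2.2.1

/-- an embedding of the field of rational functions at a polynomial -/
private theorem TrGR_eval {K : Type} [Field K] {d : ℕ} {Ω : Type} [Field Ω] (θ' : RF K d →+* Ω)
    (φ : K →+* Ω) (hφ : ∀ a, θ' (algebraMap K (RF K d) a) = φ a) (P : MvPolynomial (Fin d) K) :
    MvPolynomial.eval₂ φ (fun i => θ' (xv K i)) P =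
      θ' (algebraMap (MvPolynomial (Fin d) K) (RF K d) P) := by
  have h : MvPolynomial.eval₂Hom φ (fun i => θ' (xv K i)) =
      θ'.comp (algebraMap (MvPolynomial (Fin d) K) (RF K d)) := by
    apply MvPolynomial.ringHom_ext
    · intro c
      rw [MvPolynomial.eval₂Hom_C, ← hφ c]
      rfl
    · intro i
      rw [MvPolynomial.eval₂Hom_X']
      rfl
  exact RingHom.congr_fun h P

/-- the value of a twisted polynomial at the local parameters -/
private theorem TrGR_place {K : Type} [Field K] [Algebra kk K] {G : Type} [Group G]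
    {α : G →* (K ≃ₐ[kk] K)} {d : ℕ} {β : G →* (RF K d ≃ₐ[kk] RF K d)} (hβ : SemiLin α β)
    {N : G → Matrix (Fin d) (Fin d) K}
    (hN : ∀ g i, β g (xv K i) = ∑ j, algebraMap K (RF K d) (N g i j) * xv K j)
    {P : MvPolynomial (Fin d) K} {P' : MvPolynomial (Fin d) kk}
    (hP : ∀ g, β g (algebraMap _ (RF K d) P) = algebraMap _ (RF K d) P)
    {L : Type} [Field L] {Ω : Type} [Field Ω] [Algebra L Ω] (φ : kk →+* L) (κ : K →+* (Kb kk))
    (ι : (Kb kk) →+* Ω) (hι : ι.comp (algebraMap kk (Kb kk)) = (algebraMap L Ω).comp φ) {T : Matrix (Fin d) (Fin d) (Kb kk)}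
    (hP' : ∀ (L : Type) [Field L] (j : (Kb kk) →+* L) (c : Fin d → L),
      MvPolynomial.eval₂ (j.comp (algebraMap kk (Kb kk))) c P' =
        MvPolynomial.eval₂ (j.comp κ) ((T.map j) *ᵥ c) P)
    (θ' : RF K d →+* Ω) (hθ' : ∀ a, θ' (algebraMap K (RF K d) a) = (ι.comp κ) a)
    (g₀ : G) (hg₀ : α g₀ = 1) (c : Fin d → L)
    (hc : (T.map ι) *ᵥ (fun i => algebraMap L Ω (c i)) =
      ((N g₀⁻¹).map (ι.comp κ)) *ᵥ (fun i => θ' (xv K i))) :
    algebraMap L Ω (MvPolynomial.eval₂ φ c P') = θ' (algebraMap _ (RF K d) P) := by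
  have h1 : algebraMap L Ω (MvPolynomial.eval₂ φ c P') =
      MvPolynomial.eval₂ ((algebraMap L Ω).comp φ) (fun i => algebraMap L Ω (c i)) P' :=
    MvPolynomial.hom_eval₂ _ _ _ _
  have h2 : (algebraMap L Ω).comp φ = ι.comp (algebraMap kk (Kb kk)) := hι.symm
  have h3 := eval_invariant2 hβ hN hP (ι.comp κ) g₀⁻¹ (fun i => θ' (xv K i))
  have h4 : (ι.comp κ).comp ((α g₀⁻¹ : K ≃ₐ[kk] K) : K →+* K) = ι.comp κ := by
    rw [map_inv, hg₀, inv_one]
    rfl
  rw [h4] at h3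
  rw [h1, h2, hP' Ω ι, hc, h3, TrGR_eval θ' (ι.comp κ) hθ']

/-- a homomorphism at a polynomial in `ξ`, `η` -/
private theorem TrGR_hom {m : ℕ} {F : Type u} [Field F] [Algebra kk F] (ξ : Fin m → F) (η : F)
    {L : Type*} [Field L] (ψ : F →+* L) (φ : kk →+* L) (hφ : ψ.comp (algebraMap kk F) = φ)
    (q : (MvPolynomial (Fin m) kk)[X]) :
    evP φ (fun j => ψ (ξ j)) (ψ η) q = ψ (evP (algebraMap kk F) ξ η q) := by
  have h : evP φ (fun j => ψ (ξ j)) (ψ η) = ψ.comp (evP (algebraMap kk F) ξ η) := by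
    unfold evP
    apply Polynomial.ringHom_ext'
    · apply MvPolynomial.ringHom_ext'
      · rw [← hφ]
        ext c
        simp
      · intro i
        simp
    · simp
  exact RingHom.congr_fun h q

/-- the derivative does not vanish at the generic point -/
private theorem TrGR_der [CharZero kk] {m : ℕ} {f : (MvPolynomial (Fin m) kk)[X]} {F : Type u} [Field F]
    [Algebra kk F] {ξ : Fin m → F} {η : F} (h : Generic f F ξ η) :
    evP (algebraMap kk F) ξ η (derivative f) ≠ 0 := by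
  intro h0
  have h1 := h.dvd _ h0
  have h2 : f.natDegree ≠ 0 := by
    intro h3
    apply h.deg
    rw [Polynomial.eq_C_of_natDegree_eq_zero h3, derivative_C]
  exact h.deg (Polynomial.eq_zero_of_dvd_of_natDegree_lt h1
    (Polynomial.natDegree_derivative_lt h2))

private theorem TrGR_main [CharZero kk] [Countable kk] [PlSys kk] {K : Type} [Field K]
    [Algebra kk K] [FiniteDimensional kk K]
    [IsGalois kk K] {G : Type} [Group G] [Finite G] {α : G →* (K ≃ₐ[kk] K)}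
    (hα : Function.Surjective α) (hG : RelGr kk α) {d : ℕ}
    (β : G →* (RF K d ≃ₐ[kk] RF K d)) (hβ : SemiLin α β) {m : ℕ}
    {f g : (MvPolynomial (Fin m) kk)[X]} {F : Type u} [Field F] [Algebra kk F] {ξ : Fin m → F} {η : F}
    (h : Generic f F ξ η) (hg : evP (algebraMap kk F) ξ η g ≠ 0) {a : ℕ}
    (e : RF F a ≃ₐ[kk] fixF β)
    (S : Finset (Pk kk)) (P : ∀ v : Pk kk, Pts f g (em v)) {ε : ℝ} (hε : 0 < ε) :
    ∃ p : Pts f g (RingHom.id kk), ∀ v ∈ S,
      (∀ j, ‖(mapPts (em v) p).1.1 j - (P v).1.1 j‖ < ε) ∧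
        ‖(mapPts (em v) p).1.2 - (P v).1.2‖ < ε := by
  classical
  have halg : Algebra.IsAlgebraic kk (Kb kk) := AlgebraicClosure.isAlgebraic kk
  obtain ⟨N, hN, hN1, hNm⟩ := exists_N β hβ
  obtain ⟨D, C, hD0, hDi, hCi, hDC⟩ := exists_polys2 β hβ (κ := Option (Fin m))
    (fun i => e (algebraMap F (RF F a) (i.elim η ξ)))
  -- generic local points
  choose θ hθ hθξ hθη using fun v : Pk kk => gen_point (K := Cp v) (ball_uncountable v) (em v) h
    (P v) a (half_pos hε)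
  have hchar : ∀ v : Pk kk, CharZero (Ok v) := fun v =>
    charZero_of_injective_algebraMap (algebraMap (Cp v) (Ok v)).injective
  have hι : ∀ v : Pk kk, ∃ ι : Kb kk →+* Ok v,
      ι.comp (algebraMap kk (Kb kk)) = (algebraMap (Cp v) (Ok v)).comp (em v) := fun v => by
    letI : Algebra kk (Ok v) := ((algebraMap (Cp v) (Ok v)).comp (em v)).toAlgebra
    exact ⟨(IsAlgClosed.lift : Kb kk →ₐ[kk] Ok v).toRingHom,
      (IsAlgClosed.lift : Kb kk →ₐ[kk] Ok v).comp_algebraMap⟩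
  choose ι hι using hι
  obtain ⟨κ, hκ⟩ : ∃ κ : K →+* Kb kk, κ.comp (algebraMap kk K) = algebraMap kk (Kb kk) :=
    ⟨(IsAlgClosed.lift : K →ₐ[kk] Kb kk).toRingHom,
      (IsAlgClosed.lift : K →ₐ[kk] Kb kk).comp_algebraMap⟩
  have hlam : ∀ (v : Pk kk) (c : kk), ((ι v).comp κ) (algebraMap kk K c) =
      algebraMap (Cp v) (Ok v) (θ v (algebraMap kk (RF F a) c)) := by
    intro v c
    have h1 : κ (algebraMap kk K c) = algebraMap kk (Kb kk) c := RingHom.congr_fun hκ c
    have h2 : ι v (algebraMap kk (Kb kk) c) = algebraMap (Cp v) (Ok v) (em v c) :=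
      RingHom.congr_fun (hι v) c
    rw [RingHom.comp_apply, h1, h2, ← hθ v c]
    rfl
  choose θ' ρ hρ hθ' hθK hτ using fun v : Pk kk => loc_hom2 hα β hβ e (L := Cp v) (Ω := Ok v) (θ v)
    ((ι v).comp κ) (hlam v)
  have hcomp : ∀ (v : (Pk kk)) (τ : Ok v ≃ₐ[Cp v] Ok v) (x : K),
      τ (ι v (κ x)) = ι v (κ (α (ρ v τ) x)) := by
    intro v τ x
    have h1 := hτ v τ (algebraMap K (RF K d) x)
    rw [hβ.coeff, hθK v, hθK v] at h1
    exact h1
  -- the Grunwald problem
  obtain ⟨ρ₀, hρ₀, hρκ, hres⟩ := hG (insert (p0 kk) S) κ hκ ι hι ρ hρ hcomp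
  obtain ⟨T, hTd, hT⟩ := hilbert90_semi (k := kk) (Ω := (Kb kk)) hρ₀ κ hρκ N hN1 hNm
  have hc : ∀ v : Pk kk, ∃ (g₀ : G) (c : Fin d → Cp v), v ∈ insert (p0 kk) S → α g₀ = 1 ∧
      (T.map (ι v)) *ᵥ (fun i => algebraMap (Cp v) (Ok v) (c i)) =
        ((N g₀⁻¹).map ((ι v).comp κ)) *ᵥ (fun i => θ' v (xv K i)) := by
    intro v
    by_cases hv : v ∈ insert (p0 kk) S
    · obtain ⟨g₀, hg₀, hg₀'⟩ := hres v hv
      have h1 := hchar v
      obtain ⟨c, hc⟩ := loc_paramR (L := Cp v) (Ω := Ok v) hN1 hNm κ hκ (em v) (ι v) (hι v) (ρ := ρ v)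
        (hcomp v) (ρ₀ := ρ₀) (g₀ := g₀) hg₀ hg₀' hTd hT (w := fun i => θ' v (xv K i)) (by
          intro τ i
          rw [hτ v τ, hN, map_sum]
          refine Finset.sum_congr rfl fun j _ => ?_
          rw [map_mul, hθK v]
          rfl)
      exact ⟨g₀, c, fun _ => ⟨hg₀, hc⟩⟩
    · exact ⟨1, 0, fun h => absurd h hv⟩
  choose g₀ c hc using hc
  -- the twisted polynomials
  obtain ⟨D', hD'⟩ := exists_twist2 hβ hN hDi hρκ hT
  choose C' hC' using fun i : Option (Fin m) => exists_twist2 hβ hN (fun g => hCi g i) hρκ hT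
  have hkD : ∀ v ∈ insert (p0 kk) S, algebraMap (Cp v) (Ok v)
      (MvPolynomial.eval₂ (em v) (c v) D') = θ' v (algebraMap _ (RF K d) D) := fun v hv =>
    TrGR_place hβ hN hDi (em v) κ (ι v) (hι v) hD' (θ' v) (hθK v) (g₀ v) (hc v hv).1 (c v) (hc v hv).2
  have hkC : ∀ v ∈ insert (p0 kk) S, ∀ i, algebraMap (Cp v) (Ok v)
      (MvPolynomial.eval₂ (em v) (c v) (C' i)) = θ' v (algebraMap _ (RF K d) (C i)) :=
    fun v hv i =>
    TrGR_place hβ hN (fun g => hCi g i) (em v) κ (ι v) (hι v) (hC' i) (θ' v) (hθK v) (g₀ v)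
      (hc v hv).1 (c v) (hc v hv).2
  have hDne : algebraMap (MvPolynomial (Fin d) K) (RF K d) D ≠ 0 := fun h1 =>
    hD0 ((IsFractionRing.injective (MvPolynomial (Fin d) K) (RF K d)) (by rw [h1, map_zero]))
  have hDv : ∀ v ∈ insert (p0 kk) S, MvPolynomial.eval₂ (em v) (c v) D' ≠ 0 := by
    intro v hv h1
    have h2 := hkD v hv
    rw [h1, map_zero] at h2
    exact hDne ((map_eq_zero (θ' v)).1 h2.symm)
  have hquo : ∀ v ∈ insert (p0 kk) S, ∀ i, MvPolynomial.eval₂ (em v) (c v) (C' i) /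
      MvPolynomial.eval₂ (em v) (c v) D' =
        θ v (algebraMap F (RF F a) (i.elim η ξ)) := by
    intro v hv i
    rw [div_eq_iff (hDv v hv)]
    apply (algebraMap (Cp v) (Ok v)).injective
    rw [map_mul, hkC v hv, hkD v hv, ← hθ' v, ← hDC i, map_mul, mul_comm]
  have hpt : ∀ v ∈ insert (p0 kk) S, (fun j => MvPolynomial.eval₂ (em v) (c v) (C' (some j)) /
      MvPolynomial.eval₂ (em v) (c v) D') = fun j => θ v (algebraMap F (RF F a) (ξ j)) :=
    fun v hv => funext fun j => hquo v hv (some j)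
  have hpt' : ∀ v ∈ insert (p0 kk) S, MvPolynomial.eval₂ (em v) (c v) (C' none) /
      MvPolynomial.eval₂ (em v) (c v) D' = θ v (algebraMap F (RF F a) η) :=
    fun v hv => hquo v hv none
  have hev : ∀ (v : (Pk kk)) (q : (MvPolynomial (Fin m) kk)[X]), evP (algebraMap kk F) ξ η q ≠ 0 →
      evP (em v) (fun j => θ v (algebraMap F (RF F a) (ξ j))) (θ v (algebraMap F (RF F a) η)) q ≠
        0 := by
    intro v q hq
    have h1 := TrGR_hom ξ η ((θ v).comp (algebraMap F (RF F a))) (em v)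
      (RingHom.ext fun c => hθ v c) q
    simp only [RingHom.comp_apply] at h1
    rw [h1]
    exact fun h2 => hq ((map_eq_zero (algebraMap F (RF F a))).1 ((map_eq_zero (θ v)).1 h2))
  suffices hsuff : ∃ p : Pts f g (RingHom.id kk), ∀ v ∈ insert (p0 kk) S,
      (∀ j, ‖(mapPts (em v) p).1.1 j - (P v).1.1 j‖ < ε) ∧
        ‖(mapPts (em v) p).1.2 - (P v).1.2‖ < ε by
    obtain ⟨p, hp⟩ := hsuff
    exact ⟨p, fun v hv => hp v (Finset.mem_insert_of_mem hv)⟩
  refine TrGR_core (insert (p0 kk) S) P D' (C' none) (fun j => C' (some j)) c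
    (Finset.mem_insert_self _ _) ?_ ?_
  · intro v hv
    have hF : TrGR_F (em v) D' (C' none) (fun j => C' (some j)) (c v) =
        ((fun j => θ v (algebraMap F (RF F a) (ξ j))), θ v (algebraMap F (RF F a) η)) :=
      Prod.ext (hpt v hv) (hpt' v hv)
    refine ⟨hDv v hv, ?_⟩
    rw [hF]
    exact ⟨fun j => (hθξ v j).trans (by linarith), (hθη v).trans (by linarith),
      hev v _ (TrGR_der h), hev v _ hg⟩
  · intro r hr
    have hval : ∀ {Q : MvPolynomial (Fin d) K} {Q' : MvPolynomial (Fin d) kk},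
        (∀ (L : Type) [Field L] (j : (Kb kk) →+* L) (c : Fin d → L),
          MvPolynomial.eval₂ (j.comp (algebraMap kk (Kb kk))) c Q' =
            MvPolynomial.eval₂ (j.comp κ) ((T.map j) *ᵥ c) Q) →
        MvPolynomial.eval₂ κ (T *ᵥ fun i => algebraMap kk (Kb kk) (r i)) Q =
          algebraMap kk (Kb kk) (MvPolynomial.eval₂ (RingHom.id kk) r Q') := by
      intro Q Q' hQ
      have h1 := hQ (Kb kk) (RingHom.id (Kb kk)) (fun i => algebraMap kk (Kb kk) (r i))
      have h2 : T.map (RingHom.id (Kb kk)) = T := by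
        ext i j
        rfl
      rw [RingHom.id_comp, RingHom.id_comp, h2] at h1
      rw [← h1, MvPolynomial.hom_eval₂, RingHom.comp_id]
    have hDr : MvPolynomial.eval₂ κ (T *ᵥ fun i => algebraMap kk (Kb kk) (r i)) D ≠ 0 := by
      rw [hval hD']
      exact fun h1 => hr ((map_eq_zero (algebraMap kk (Kb kk))).1 h1)
    have hψ : evP (algebraMap kk (RF K d))
        (fun j => ((e (algebraMap F (RF F a) (ξ j)) : fixF β) : RF K d))
        ((e (algebraMap F (RF F a) η) : fixF β) : RF K d) f = 0 := by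
      have h1 := TrGR_hom (kk := kk) ξ η (((fixF β).val : fixF β →+* RF K d).comp
        (((e : RF F a ≃ₐ[kk] fixF β) : RF F a →+* fixF β).comp (algebraMap F (RF F a))))
        (algebraMap kk (RF K d)) (RingHom.ext fun c => by
          show ((e (algebraMap F (RF F a) (algebraMap kk F c)) : fixF β) : RF K d) = _
          rw [← IsScalarTower.algebraMap_apply kk F (RF F a), e.commutes]
          rfl) f
      rw [h.zero, map_zero] at h1
      exact h1
    have h3 := f_vanish2 (f := f) (D := D) (C' := C none) (C := fun j => C (some j))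
      (fun j => hDC (some j)) (hDC none) hψ κ
      (T *ᵥ fun i => algebraMap kk (Kb kk) (r i)) hDr
    rw [hval hD', hval (hC' none), hκ] at h3
    have h4 : (fun j => MvPolynomial.eval₂ κ
        (T *ᵥ fun i => algebraMap kk (Kb kk) (r i)) (C (some j)) /
        algebraMap kk (Kb kk) (MvPolynomial.eval₂ (RingHom.id kk) r D')) = fun j => algebraMap kk (Kb kk)
        (MvPolynomial.eval₂ (RingHom.id kk) r (C' (some j)) /
          MvPolynomial.eval₂ (RingHom.id kk) r D') := by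
      funext j
      rw [hval (hC' (some j)), map_div₀]
    rw [h4, ← map_div₀, evP_comp] at h3
    exact (map_eq_zero (algebraMap kk (Kb kk))).1 h3

end

/-- Proof: port of td/STrG.lean (whose model is dc/TrG.lean) in the way in which dc/TrG.lean was ported to
nf/TrG.lean. -/
theorem transferR {kk : Type} [Field kk] [CharZero kk] [Countable kk] [PlSys kk] {K : Type} [Field K]
    [Algebra kk K] [FiniteDimensional kk K] [IsGalois kk K] {G : Type} [Group G] [Finite G]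
    {α : G →* (K ≃ₐ[kk] K)} (hα : Function.Surjective α) (hG : RelGr kk α) {d : ℕ}
    (β : G →* (RF K d ≃ₐ[kk] RF K d)) (hβ : SemiLin α β) {m : ℕ}
    {f g : (MvPolynomial (Fin m) kk)[X]} {F : Type u} [Field F] [Algebra kk F] {ξ : Fin m → F} {η : F}
    (h : Generic f F ξ η) (hg : evP (algebraMap kk F) ξ η g ≠ 0) (hF : StablyIso kk F (fixF β))
    (S : Finset (Pk kk)) (P : ∀ v : Pk kk, Pts f g (em v)) {ε : ℝ} (hε : 0 < ε) :
    ∃ p : Pts f g (RingHom.id kk), ∀ v ∈ S,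
      (∀ j, ‖(mapPts (em v) p).1.1 j - (P v).1.1 j‖ < ε) ∧
        ‖(mapPts (em v) p).1.2 - (P v).1.2‖ < ε := by
  obtain ⟨a, b, ⟨e₁⟩⟩ := hF
  obtain ⟨d', β', hβ', ⟨e₂⟩⟩ := tr_norm2 α β hβ b
  exact TrGR_main hα hG β' hβ' h hg (e₁.trans e₂) S P hε

end NF83
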