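import Pool.Agent.H.MP_83e36b_nt.rf.Dual1
import Pool.Agent.H.MP_83e36b_nt.nf.Base
import Pool.Agent.H.MP_83e36b_nt.dc.Kr
import Pool.Agent.H.MP_83e36b_nt.sp.XLoc
import Pool.Agent.H.MP_83e36b_nt.sp.StarLoc
import Pool.Agent.H.MP_83e36b_nt.sp.CCls

/-! The trace form of an algebra of degree `6` or `7` over a field with completions comes from a
polynomial of degree two. -/

set_option autoImplicit false

open Matrix Polynomial SpinWA DC83 Topology

namespace NF83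

private theorem BP_e {R : Type*} [CommRing R] {n : ℕ} (a : Fin n → R) (k : Fin n) :
    cmp a ^ (k : ℕ) *ᵥ e0 R n = Pi.single k 1 := by
  have h := kryM_cmp a
  funext i
  have h1 := congrFun (congrFun h i) k
  unfold kryM at h1
  rw [Matrix.of_apply] at h1
  rw [h1, Matrix.one_apply, Pi.single_apply]

private theorem BP_sum_e0 {R : Type*} [CommRing R] {n : ℕ} (a c : Fin n → R) :
    (∑ j, c j • cmp a ^ (j : ℕ)) *ᵥ e0 R n = c := by
  rw [Matrix.sum_mulVec]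
  have h1 : ∀ k : Fin n, (c k • cmp a ^ (k : ℕ)) *ᵥ e0 R n = c k • Pi.single k 1 := fun k => by
    rw [Matrix.smul_mulVec, BP_e]
  rw [Finset.sum_congr rfl fun k _ => h1 k]
  ext i
  rw [Finset.sum_apply, Finset.sum_eq_single i]
  · simp
  · intro j _ hj
    simp [hj.symm]
  · intro h
    exact absurd (Finset.mem_univ _) h

private theorem BP_comm {R : Type*} [CommRing R] {n : ℕ} (a c : Fin n → R) :
    Commute (∑ j, c j • cmp a ^ (j : ℕ)) (cmp a) := by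
  apply Commute.sum_left
  intro k _
  exact ((Commute.refl (cmp a)).pow_left _).smul_left _

/-- a matrix which commutes with the companion matrix is determined by its first column -/
private theorem BP_repr {R : Type*} [CommRing R] {n : ℕ} (a : Fin n → R)
    {M : Matrix (Fin n) (Fin n) R} (h : Commute M (cmp a)) :
    M = ∑ j, (M *ᵥ e0 R n) j • cmp a ^ (j : ℕ) := by
  obtain ⟨y, hy⟩ := commute_cmp a h.eq
  have h1 : M *ᵥ e0 R n = y := by rw [hy, BP_sum_e0]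
  rw [h1]
  exact hy

/-- a matrix with a cyclic vector is killed only by its characteristic polynomial -/
private theorem BP_cpc {L : Type*} [Field L] {n : ℕ} {M : Matrix (Fin n) (Fin n) L}
    (hM : (kryM M).det ≠ 0) (b : Fin n → L) (hb : aeval M (AnWA.monicPoly b) = 0) :
    cpc M = b := by
  have hu : IsUnit (kryM M).det := isUnit_iff_ne_zero.2 hM
  have h1 : aeval M (AnWA.monicPoly (cpc M)) = 0 := by
    have h2 : ∀ k : ℕ, M ^ k * kryM M = kryM M * cmp (cpc M) ^ k := by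
      intro k
      induction k with
      | zero => rw [pow_zero, pow_zero, Matrix.one_mul, Matrix.mul_one]
      | succ k ih =>
        rw [pow_succ, Matrix.mul_assoc, mul_kryM, ← Matrix.mul_assoc, ih, Matrix.mul_assoc,
          ← pow_succ]
    have h3 : ∀ p : L[X], aeval M p * kryM M = kryM M * aeval (cmp (cpc M)) p := by
      intro p
      induction p using Polynomial.induction_on' with
      | add p q hp hq => rw [map_add, map_add, add_mul, mul_add, hp, hq]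
      | monomial k d =>
        rw [aeval_monomial, aeval_monomial, mul_assoc, h2, ← mul_assoc, ← mul_assoc,
          Algebra.commutes]
    have h4 := h3 (AnWA.monicPoly (cpc M))
    rw [aeval_cmp, mul_zero] at h4
    have h5 : aeval M (AnWA.monicPoly (cpc M)) * kryM M * (kryM M)⁻¹ = 0 := by rw [h4, zero_mul]
    rwa [mul_assoc, Matrix.mul_nonsing_inv _ hu, mul_one] at h5
  have h2 : ∀ a : Fin n → L, aeval M (AnWA.monicPoly a) = M ^ n + ∑ i, a i • M ^ (i : ℕ) := by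
    intro a
    unfold AnWA.monicPoly
    rw [map_add, map_pow, aeval_X, map_sum]
    congr 1
    refine Finset.sum_congr rfl fun i _ => ?_
    rw [map_mul, aeval_C, map_pow, aeval_X, Algebra.smul_def]
  rw [h2] at h1 hb
  have h3 : ∑ i, (cpc M - b) i • M ^ (i : ℕ) = 0 := by
    have h4 : ∑ i, (cpc M - b) i • M ^ (i : ℕ) =
        ∑ i, cpc M i • M ^ (i : ℕ) - ∑ i, b i • M ^ (i : ℕ) := by
      rw [← Finset.sum_sub_distrib]
      refine Finset.sum_congr rfl fun i _ => ?_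
      rw [Pi.sub_apply, sub_smul]
    rw [h4]
    have h5 : ∑ i, cpc M i • M ^ (i : ℕ) - ∑ i, b i • M ^ (i : ℕ) =
        (M ^ n + ∑ i, cpc M i • M ^ (i : ℕ)) - (M ^ n + ∑ i, b i • M ^ (i : ℕ)) := by abel
    rw [h5, h1, hb, sub_zero]
  have h6 : kryM M *ᵥ (cpc M - b) = 0 := by
    have h7 := congrArg (fun A : Matrix (Fin n) (Fin n) L => A *ᵥ e0 L n) h3
    simp only [Matrix.zero_mulVec, Matrix.sum_mulVec, Matrix.smul_mulVec] at h7
    rw [← h7]
    ext i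
    rw [Finset.sum_apply]
    simp only [mulVec, dotProduct, kryM, Matrix.of_apply, Pi.smul_apply, smul_eq_mul]
    refine Finset.sum_congr rfl fun j _ => ?_
    rw [mul_comm]
  have h8 := Matrix.eq_zero_of_mulVec_eq_zero hM h6
  exact sub_eq_zero.1 h8

/-- the trace forms of two generators of the same algebra -/
private theorem BP_form {L : Type*} [Field L] {n : ℕ} (a c : Fin n → L)
    (hT : (kryM (∑ j, c j • cmp a ^ (j : ℕ))).det ≠ 0) :
    (kryM (∑ j, c j • cmp a ^ (j : ℕ)))ᵀ * hk a * kryM (∑ j, c j • cmp a ^ (j : ℕ)) =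
      hk (cpc (∑ j, c j • cmp a ^ (j : ℕ))) := by
  obtain ⟨M, hM⟩ : ∃ M, M = ∑ j, c j • cmp a ^ (j : ℕ) := ⟨_, rfl⟩
  have hcomm : Commute M (cmp a) := by rw [hM]; exact BP_comm a c
  rw [← hM] at hT ⊢
  have hp : ∀ k : Fin n, M ^ (k : ℕ) = ∑ i, kryM M i k • cmp a ^ (i : ℕ) := by
    intro k
    exact BP_repr a (hcomm.pow_left _)
  ext i j
  have h1 : hk (cpc M) i j = (M ^ (i : ℕ) * M ^ (j : ℕ)).trace := by
    simp only [hk, Matrix.of_apply]
    rw [psum_cpc hT, pow_add]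
  rw [h1, hp i, hp j, Finset.sum_mul]
  simp only [Finset.mul_sum, Matrix.trace_sum, smul_mul_assoc, mul_smul_comm, Matrix.trace_smul,
    ← pow_add, smul_eq_mul]
  rw [Matrix.mul_apply]
  simp only [Matrix.mul_apply, Matrix.transpose_apply, hk, Matrix.of_apply, psum, Finset.sum_mul]
  rw [Finset.sum_comm]
  refine Finset.sum_congr rfl fun k _ => Finset.sum_congr rfl fun l _ => ?_
  ring

/-- the vector `g` of `dbl e g` -/
private def BP_hf {R : Type*} {m e : ℕ} (he : e ≤ 1) (D : Fin (2 * m + e) → R) : Fin m → R :=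
  fun i => D ⟨2 * (i : ℕ) + e, by have := i.2; omega⟩

private theorem BP_hf_dbl {R : Type*} [CommRing R] {m e : ℕ} (he : e ≤ 1) (g : Fin m → R) :
    BP_hf he (dbl e g) = g := by
  funext i
  have h1 : (2 * (i : ℕ) + e) % 2 = e % 2 := by omega
  have h2 : (2 * (i : ℕ) + e) / 2 = i := by omega
  have h3 : (2 * (i : ℕ) + e) % 2 = e % 2 ∧ (2 * (i : ℕ) + e) / 2 < m := by
    rw [h2]
    exact ⟨h1, i.2⟩
  unfold BP_hf dbl
  rw [dif_pos h3]
  congr 1
  ext
  exact h2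

/-- the conditions on the polynomial -/
private def BP_Good {L : Type*} [Field L] {e : ℕ} (he : e ≤ 1)
    (b : Fin (2 * (1 + 1 + 1) + e) → L) : Prop :=
  (hk b).det ≠ 0 ∧ (kryM (cmS b)).det ≠ 0 ∧ (hk (BP_hf he (cpc (cmS b)))).det ≠ 0 ∧
    (kryM ((-4 : L) • (cmS (BP_hf he (cpc (cmS b))) * cmp (BP_hf he (cpc (cmS b))) *
      cmS (BP_hf he (cpc (cmS b)))))).det ≠ 0

private theorem BP_Good_map {K L : Type*} [Field K] [Field L] (φ : K →+* L) {e : ℕ} (he : e ≤ 1)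
    (b : Fin (2 * (1 + 1 + 1) + e) → K) (h : BP_Good he fun i => φ (b i)) : BP_Good he b := by
  obtain ⟨h1, h2, h3, h4⟩ := h
  have hS : cmS (fun i => φ (b i)) = (cmS b).map φ := (cmS_map φ b).symm
  have hg : BP_hf he (cpc (cmS fun i => φ (b i))) = fun i => φ (BP_hf he (cpc (cmS b)) i) := by
    funext i
    unfold BP_hf
    rw [hS, cpc_map φ (cmS b)]
  rw [hg] at h3 h4
  refine ⟨?_, ?_, ?_, ?_⟩
  · intro h0
    rw [← hk_det_map, h0, map_zero] at h1
    exact h1 rfl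
  · intro h0
    rw [hS, ← kryM_det_map, h0, map_zero] at h2
    exact h2 rfl
  · intro h0
    rw [← hk_det_map, h0, map_zero] at h3
    exact h3 rfl
  · intro h0
    apply h4
    rw [← cmS_map φ, ← cmp_map φ, ← Matrix.map_mul, ← Matrix.map_mul]
    have h5 : (-4 : L) • ((cmS (BP_hf he (cpc (cmS b))) * cmp (BP_hf he (cpc (cmS b))) *
        cmS (BP_hf he (cpc (cmS b)))).map φ) = ((-4 : K) • (cmS (BP_hf he (cpc (cmS b))) *
          cmp (BP_hf he (cpc (cmS b))) * cmS (BP_hf he (cpc (cmS b))))).map φ := by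
      ext i j
      simp only [Matrix.map_apply, Matrix.smul_apply, smul_eq_mul, map_mul, map_neg]
      rw [map_ofNat]
    rw [h5, ← kryM_det_map, h0, map_zero]

section
variable {K : Type} [NontriviallyNormedField K] [CompleteSpace K] [CharZero K]

omit [CompleteSpace K] [CharZero K] in
private theorem BP_det {X : Type} [TopologicalSpace X] {m : ℕ}
    {f : X → Matrix (Fin m) (Fin m) K} {x : X} (h : ContinuousAt f x) :
    ContinuousAt (fun y => (f y).det) x :=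
  (Continuous.matrix_det continuous_id).continuousAt.comp h

omit [CompleteSpace K] [CharZero K] in
private theorem BP_hf_cont {m e : ℕ} (he : e ≤ 1) :
    Continuous fun D : Fin (2 * m + e) → K => BP_hf he D := by
  unfold BP_hf
  exact continuous_pi fun i => continuous_apply _

private theorem BP_open {e : ℕ} (he : e ≤ 1) (b : Fin (2 * (1 + 1 + 1) + e) → K)
    (h : BP_Good he b) : ∀ᶠ b' in 𝓝 b, BP_Good he b' := by
  obtain ⟨h1, h2, h3, h4⟩ := h
  have c1 : ContinuousAt (fun b : Fin (2 * (1 + 1 + 1) + e) → K => (hk b).det) b :=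
    BP_det continuous_hk.continuousAt
  have cS : ContinuousAt (fun b : Fin (2 * (1 + 1 + 1) + e) → K => cmS b) b := continuousAt_cmS h1
  have c2 : ContinuousAt (fun b : Fin (2 * (1 + 1 + 1) + e) → K => (kryM (cmS b)).det) b :=
    BP_det (ContinuousAt.comp' continuous_kryM.continuousAt cS)
  have cg : ContinuousAt (fun b : Fin (2 * (1 + 1 + 1) + e) → K => BP_hf he (cpc (cmS b))) b :=
    ContinuousAt.comp' (BP_hf_cont he).continuousAt
      (ContinuousAt.comp' continuous_cpc.continuousAt cS)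
  have c3 : ContinuousAt (fun b : Fin (2 * (1 + 1 + 1) + e) → K =>
      (hk (BP_hf he (cpc (cmS b)))).det) b :=
    BP_det (ContinuousAt.comp' continuous_hk.continuousAt cg)
  have cS2 : ContinuousAt (fun b : Fin (2 * (1 + 1 + 1) + e) → K =>
      cmS (BP_hf he (cpc (cmS b)))) b :=
    ContinuousAt.comp' (g := fun g : Fin (1 + 1 + 1) → K => cmS g) (continuousAt_cmS h3) cg
  have cc2 : ContinuousAt (fun b : Fin (2 * (1 + 1 + 1) + e) → K =>
      cmp (BP_hf he (cpc (cmS b)))) b :=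
    ContinuousAt.comp' continuous_cmp.continuousAt cg
  have c4 : ContinuousAt (fun b : Fin (2 * (1 + 1 + 1) + e) → K =>
      (kryM ((-4 : K) • (cmS (BP_hf he (cpc (cmS b))) * cmp (BP_hf he (cpc (cmS b))) *
        cmS (BP_hf he (cpc (cmS b)))))).det) b :=
    BP_det (ContinuousAt.comp' continuous_kryM.continuousAt
      (((cS2.mul cc2).mul cS2).const_smul (-4 : K)))
  filter_upwards [c1.eventually_ne h1, c2.eventually_ne h2, c3.eventually_ne h3,
    c4.eventually_ne h4] with b' e1 e2 e3 e4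
  exact ⟨e1, e2, e3, e4⟩

/-- good polynomials are dense -/
private theorem BP_dense {e : ℕ} (he : e ≤ 1) (b₀ : Fin (2 * (1 + 1 + 1) + e) → K)
    {V : Set (Fin (2 * (1 + 1 + 1) + e) → K)} (hV : V ∈ 𝓝 b₀) : ∃ b ∈ V, BP_Good he b := by
  have φ : ℚ →+* K := Rat.castHom K
  obtain ⟨V', hV's, hV'o, hV'm⟩ := mem_nhds_iff.mp hV
  obtain ⟨p0, hp1, hp2⟩ := exists_point1 (2 * (1 + 1 + 1) + e)
  obtain ⟨Φ, hΦ, hpoly⟩ := poly1 p0 hp1 hp2
  obtain ⟨b₁, hb₁V, hb₁⟩ := exists_near_ne φ Φ hΦ b₀ (hV'o.mem_nhds hV'm)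
  obtain ⟨hkb, hkry⟩ := hpoly K φ b₁ hb₁
  obtain ⟨g₁, y₁, -, hdet, hconj⟩ := fwd he b₁ hkb hkry
  have hkk : (1 : Matrix (Fin (2 * (1 + 1 + 1) + e)) (Fin (2 * (1 + 1 + 1) + e)) K) =
      kryM (cmS b₁) * kryM (xop e g₁ y₁) := by
    rw [← kryM_cmp b₁]
    exact kryM_conj (kryM_mulVec_e0 (cmS b₁)) hconj
  have hXd : (kryM (xop e g₁ y₁)).det ≠ 0 := by
    intro h0
    have h1 := congrArg Matrix.det hkk
    rw [Matrix.det_mul, h0, mul_zero, Matrix.det_one] at h1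
    exact one_ne_zero h1
  have hcpc : cpc (xop e g₁ y₁) = b₁ := by
    rw [← cpc_conj hkry hconj, cpc_cmp]
  have hc1 : ContinuousAt (fun g : Fin (1 + 1 + 1) → K => xop e g y₁) g₁ :=
    ContinuousAt.comp' (g := fun p : (Fin (1 + 1 + 1) → K) × (Fin (1 + 1 + 1 + e) → K) =>
        xop e p.1 p.2)
      (f := fun g : Fin (1 + 1 + 1) → K => (g, y₁))
      (continuousAt_xop e y₁ hdet) (continuousAt_id.prodMk continuousAt_const)
  have hc2 : ContinuousAt (fun g : Fin (1 + 1 + 1) → K => (kryM (xop e g y₁)).det) g₁ :=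
    BP_det (ContinuousAt.comp' continuous_kryM.continuousAt hc1)
  have hc3 : ContinuousAt (fun g : Fin (1 + 1 + 1) → K => cpc (xop e g y₁)) g₁ :=
    ContinuousAt.comp' continuous_cpc.continuousAt hc1
  have hc4 : ContinuousAt (fun g : Fin (1 + 1 + 1) → K => (hk (dbl e g)).det) g₁ :=
    BP_det (ContinuousAt.comp' continuous_hk.continuousAt (continuous_dbl e).continuousAt)
  have hc5 : ContinuousAt (fun g : Fin (1 + 1 + 1) → K => (hk (cpc (xop e g y₁))).det) g₁ :=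
    BP_det (ContinuousAt.comp' continuous_hk.continuousAt hc3)
  have hc6 : ContinuousAt (fun g : Fin (1 + 1 + 1) → K =>
      (kryM (cmS (cpc (xop e g y₁)))).det) g₁ := by
    refine BP_det (ContinuousAt.comp' continuous_kryM.continuousAt ?_)
    refine ContinuousAt.comp' (g := fun b : Fin (2 * (1 + 1 + 1) + e) → K => cmS b)
      (continuousAt_cmS ?_) hc3
    rw [hcpc]
    exact hkb
  have hall : ∀ᶠ g in 𝓝 g₁, (kryM (xop e g y₁)).det ≠ 0 ∧ cpc (xop e g y₁) ∈ V' ∧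
      (hk (dbl e g)).det ≠ 0 ∧ (hk (cpc (xop e g y₁))).det ≠ 0 ∧
      (kryM (cmS (cpc (xop e g y₁)))).det ≠ 0 := by
    have e2 : ∀ᶠ g in 𝓝 g₁, cpc (xop e g y₁) ∈ V' := by
      refine hc3.eventually_mem (hV'o.mem_nhds ?_)
      rw [hcpc]
      exact hb₁V
    have e4 : ∀ᶠ g in 𝓝 g₁, (hk (cpc (xop e g y₁))).det ≠ 0 := by
      refine hc5.eventually_ne ?_
      rw [hcpc]
      exact hkb
    have e5 : ∀ᶠ g in 𝓝 g₁, (kryM (cmS (cpc (xop e g y₁)))).det ≠ 0 := by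
      refine hc6.eventually_ne ?_
      rw [hcpc]
      exact hkry
    filter_upwards [hc2.eventually_ne hXd, e2, hc4.eventually_ne hdet, e4, e5]
      with g f1 f2 f3 f4 f5
    exact ⟨f1, f2, f3, f4, f5⟩
  obtain ⟨q0, hq1, hq2⟩ := exists_point2 (1 + 1) (by decide) (le_refl _)
  obtain ⟨Ψ, hΨ, hpoly2⟩ := poly2 q0 hq1 hq2
  obtain ⟨g₂, hg₂, hg₂'⟩ := exists_near_ne φ Ψ hΨ g₁ hall
  obtain ⟨hkg, hkryg⟩ := hpoly2 K φ g₂ hg₂'
  obtain ⟨f1, f2, f3, f4, f5⟩ := hg₂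
  have hd := dual1 he g₂ y₁ f3 f1
  refine ⟨cpc (xop e g₂ y₁), hV's f2, f4, f5, ?_, ?_⟩
  · rw [hd, BP_hf_dbl]
    exact hkg
  · rw [hd, BP_hf_dbl]
    exact hkryg

end

/-- the map of `θ` -/
private theorem BP_theta_map {K L : Type*} [Field K] [Field L] (φ : K →+* L) {n : ℕ}
    (a c : Fin n → K) : (∑ j, c j • cmp a ^ (j : ℕ)).map φ =
      ∑ j, φ (c j) • (cmp fun i => φ (a i)) ^ (j : ℕ) := by
  rw [← RingHom.mapMatrix_apply, map_sum]
  refine Finset.sum_congr rfl fun j _ => ?_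
  have h1 : φ.mapMatrix (c j • cmp a ^ (j : ℕ)) = φ (c j) • φ.mapMatrix (cmp a ^ (j : ℕ)) := by
    ext i k
    simp only [RingHom.mapMatrix_apply, Matrix.map_apply, Matrix.smul_apply, smul_eq_mul, map_mul]
  rw [h1, map_pow, RingHom.mapMatrix_apply, cmp_map]

/-- steps (1) and (2) -/
private theorem BP_step {kk : Type} [Field kk] [CharZero kk] [PlSys kk] {e : ℕ} (he : e ≤ 1)
    (a₀ : Fin (2 * (1 + 1 + 1) + e) → kk) (h : (hk a₀).det ≠ 0) :
    ∃ c : Fin (2 * (1 + 1 + 1) + e) → kk,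
      (kryM (∑ j, c j • cmp a₀ ^ (j : ℕ))).det ≠ 0 ∧
      BP_Good he (cpc (∑ j, c j • cmp a₀ ^ (j : ℕ))) := by
  obtain ⟨φ, hφ⟩ : ∃ φ : kk →+* Cp (p0 kk), φ = em (p0 kk) := ⟨_, rfl⟩
  obtain ⟨b₀, hb₀⟩ : ∃ b₀ : Fin (2 * (1 + 1 + 1) + e) → Cp (p0 kk), b₀ = fun i => φ (a₀ i) :=
    ⟨_, rfl⟩
  have hd : (hk b₀).det ≠ 0 := by
    rw [hb₀, ← hk_det_map]
    exact (map_ne_zero φ).2 h
  have hcont : Continuous fun c : Fin (2 * (1 + 1 + 1) + e) → Cp (p0 kk) =>
      ∑ j, c j • cmp b₀ ^ (j : ℕ) :=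
    continuous_finsetSum _ fun j _ => (continuous_apply j).smul continuous_const
  have hcd : Continuous fun c : Fin (2 * (1 + 1 + 1) + e) → Cp (p0 kk) =>
      (kryM (∑ j, c j • cmp b₀ ^ (j : ℕ))).det :=
    Continuous.matrix_det (continuous_kryM.comp hcont)
  have h0 : (∑ j : Fin (2 * (1 + 1 + 1) + e), (if (j : ℕ) = 1 then (1 : Cp (p0 kk)) else 0) •
      cmp b₀ ^ (j : ℕ)) = cmp b₀ := by
    rw [Finset.sum_eq_single (⟨1, by omega⟩ : Fin (2 * (1 + 1 + 1) + e))]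
    · simp
    · intro j _ hj
      rw [if_neg (fun h => hj (Fin.ext h)), zero_smul]
    · intro h
      exact absurd (Finset.mem_univ _) h
  have hU : {c : Fin (2 * (1 + 1 + 1) + e) → Cp (p0 kk) |
      (kryM (∑ j, c j • cmp b₀ ^ (j : ℕ))).det ≠ 0} ∈
      𝓝 (fun i : Fin (2 * (1 + 1 + 1) + e) => if (i : ℕ) = 1 then (1 : Cp (p0 kk)) else 0) := by
    refine hcd.continuousAt.eventually_ne ?_
    rw [h0, kryM_cmp, Matrix.det_one]
    exact one_ne_zero
  obtain ⟨b₂, hb₂, hgood⟩ := BP_dense he b₀ (exists_theta (by omega) b₀ hd hU)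
  obtain ⟨c, hc, hcb⟩ := hb₂
  have hc' : (kryM (∑ j, c j • cmp b₀ ^ (j : ℕ))).det ≠ 0 := hc
  have hcp : cpc (∑ j, c j • cmp b₀ ^ (j : ℕ)) = b₂ := BP_cpc hc' b₂ hcb
  have hopen : ∀ᶠ d : Fin (2 * (1 + 1 + 1) + e) → Cp (p0 kk) in 𝓝 c, (kryM (∑ j, d j • cmp b₀ ^ (j : ℕ))).det ≠ 0 ∧
      BP_Good he (cpc (∑ j, d j • cmp b₀ ^ (j : ℕ))) := by
    have e1 : ∀ᶠ d : Fin (2 * (1 + 1 + 1) + e) → Cp (p0 kk) in 𝓝 c, (kryM (∑ j, d j • cmp b₀ ^ (j : ℕ))).det ≠ 0 :=
      hcd.continuousAt.eventually_ne hc'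
    have e2 : ∀ᶠ d : Fin (2 * (1 + 1 + 1) + e) → Cp (p0 kk) in 𝓝 c, BP_Good he (cpc (∑ j, d j • cmp b₀ ^ (j : ℕ))) := by
      have h1 : Filter.Tendsto (fun d : Fin (2 * (1 + 1 + 1) + e) → Cp (p0 kk) =>
          cpc (∑ j, d j • cmp b₀ ^ (j : ℕ))) (𝓝 c) (𝓝 b₂) := by
        have h2 := (continuous_cpc.comp hcont).tendsto c
        simp only [Function.comp_apply] at h2
        rw [hcp] at h2
        exact h2
      exact h1.eventually (BP_open he b₂ hgood)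
    exact e1.and e2
  obtain ⟨W, hW⟩ : ∃ W : Set (Fin (2 * (1 + 1 + 1) + e) → Cp (p0 kk)),
      W = {d : Fin (2 * (1 + 1 + 1) + e) → Cp (p0 kk) | (kryM (∑ j, d j • cmp b₀ ^ (j : ℕ))).det ≠ 0 ∧
        BP_Good he (cpc (∑ j, d j • cmp b₀ ^ (j : ℕ)))} := ⟨_, rfl⟩
  have hWc : W ∈ 𝓝 c := by
    rw [hW]
    exact hopen
  classical
  obtain ⟨r, hr⟩ := wa_fun {p0 kk}
    (Function.update (fun (v : Pk kk) (_ : Fin (2 * (1 + 1 + 1) + e)) => (0 : Cp v)) (p0 kk) c)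
    (Function.update (fun v : Pk kk => (Set.univ : Set (Fin (2 * (1 + 1 + 1) + e) → Cp v)))
      (p0 kk) W) (by
      intro v hv
      rw [Finset.mem_singleton] at hv
      subst hv
      rw [Function.update_self, Function.update_self]
      exact hWc)
  have hr1 := hr (p0 kk) (Finset.mem_singleton_self _)
  rw [Function.update_self, hW] at hr1
  obtain ⟨hr2, hr3⟩ := hr1
  refine ⟨r, ?_, ?_⟩
  · intro h1
    apply hr2
    rw [hb₀, ← hφ, ← BP_theta_map φ, ← kryM_det_map, h1, map_zero]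
  · refine BP_Good_map φ he _ ?_
    have h2 : (fun i => φ (cpc (∑ j, r j • cmp a₀ ^ (j : ℕ)) i)) =
        cpc (∑ j, φ (r j) • cmp b₀ ^ (j : ℕ)) := by
      funext i
      rw [cpc_map φ, BP_theta_map φ, hb₀]
    rw [h2, hφ]
    exact hr3

/-- Proof.  `K = Cp (p0 kk)`, `φ = em (p0 kk)`, `b₀ = φ ∘ a₀`, `n = 2 * (1+1+1) + e ≥ 2`,
`θ(c) = ∑ j, c j • cmp a₀ ^ j` (over `kk` or, for `b₀`, over `K`).
For `b : Fin n → L` let `gg b : Fin 3 → L`, `gg b i = cpc (cmS b) ⟨2 i + e, _⟩`, and `Good b`: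
`(hk b).det ≠ 0`, `(kryM (cmS b)).det ≠ 0`, `(hk (gg b)).det ≠ 0`,
`(kryM ((-4) • (cmS (gg b) * cmp (gg b) * cmS (gg b)))).det ≠ 0`.
(1) Over `K`: near `b₀` there is `b₂` with `Good b₂` and `b₂ = cpc (θ c)`, `(kryM (θ c)).det ≠ 0` for some
`c : Fin n → K`.  Namely (first half of the proof of `x_loc` in sp/XLoc.lean) `exists_point1`, `poly1`,
`exists_near_ne` give `b₁` near `b₀` with `(hk b₁).det ≠ 0`, `(kryM (cmS b₁)).det ≠ 0`; `fwd`: `g₁`, `y₁`,
`b₁ = cpc (xop e g₁ y₁)`, `(kryM (xop e g₁ y₁)).det ≠ 0`, `(hk (dbl e g₁)).det ≠ 0`; these are open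
conditions in `g₁` (`continuousAt_xop`); by `exists_point2 2`, `poly2`, `exists_near_ne` there is `g₂` near
`g₁` with `(hk g₂).det ≠ 0`, `(kryM ((-4) • (cmS g₂ * cmp g₂ * cmS g₂))).det ≠ 0`; `b₂ = cpc (xop e g₂ y₁)`
is near `b₁`, so near `b₀` and `(hk b₂).det ≠ 0`, `(kryM (cmS b₂)).det ≠ 0` (`continuousAt_cmS`); `dual1`:
`cpc (cmS b₂) = dbl e g₂`, so `gg b₂ = g₂`.  `exists_theta` (dc/KrA.lean; all `b` near `b₀` are killed by
some `θ(c)` with `(kryM θ(c)).det ≠ 0`, see `kr` in dc/Kr.lean) gives `c`, and then `cpc (θ c) = b₂`.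
(2) `Good` is an open condition where it holds (`continuousAt_cmS`, `continuous_cpc`, `continuous_kryM`,
`continuous_hk`, ...), `c ↦ cpc (θ c)` is continuous; `wa_fun {p0 kk}` gives `c' : Fin n → kk` with `φ ∘ c'`
near `c`; `b' = cpc (∑ j, c' j • cmp a₀ ^ j)`; `φ ∘ b' = cpc (θ (φ ∘ c'))` (`cpc_map`, `cmp` and powers
under maps); so `Good (φ ∘ b')`, hence `Good b'` (`hk_det_map`, `kryM_det_map`, `cmS_map`, `cpc_map`), and
`(kryM (∑ j, c' j • cmp a₀ ^ j)).det ≠ 0`.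
(3) With `T = kryM (∑ j, c' j • cmp a₀ ^ j)`: `Tᵀ * hk a₀ * T = hk b'`.  (Over the algebraic closure of
`kk`: roots `x` of `a₀` (`exists_roots`), `Kr_main` in dc/Kr.lean (private: copy) gives the roots `y` of
`b'`, `vandermonde y = vandermonde x * T`; `vand_hk`.)  So `cls (hk b') = cls (hk a₀)` (`cls_cong`).
(4) `fwd` for `b'` over `kk`: `g`, `y`, `(kryM (cmS b'))ᵀ * hk b' * kryM (cmS b') = gamM (dbl e g)`;
`b' = cpc (xop e g y)` and `dual1` give `dbl e g = cpc (cmS b')`, `g = gg b'`.  `cls_gam`: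
`cls (hk a₀) = cls (gamM (dbl e g)) = e • cl 1 + cls (2 • hk g) + cls ((-2) • hk1 g)`; `det_gam`:
`cf g 0 = (hk a₀).det * σ²`, `σ ≠ 0`.
(5) `fwd2` (`k = 2`) for `g`: `a : Fin 2 → kk`, `ρ`, `R`; `det_second`, `cls_second` as in the last part of
the proof of `star_loc` in sp/StarLoc.lean: `ρ = 2 (hk a₀).det (cf a 0) η²` and
`cls (2 • hk g) + cls ((-2) • hk1 g) = cls (2 • hk a) + cl 2 + (cls ((-2) • hk1 a) + cl ρ)`,
which is `coreF (hk a₀).det 1 a` (`cl_mul_sq`). -/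
theorem base_point {kk : Type} [Field kk] [CharZero kk] [PlSys kk] {e : ℕ} (he : e ≤ 1)
    (a₀ : Fin (2 * (1 + 1 + 1) + e) → kk) (h : (hk a₀).det ≠ 0) :
    ∃ a : Fin (1 + 1) → kk, (hk a).det ≠ 0 ∧ a 0 ≠ 0 ∧
      e • cl 1 + coreF (hk a₀).det 1 a = cls (hk a₀) := by
  obtain ⟨c, hT, hb1, hb2, hb3, hb4⟩ := BP_step he a₀ h
  have hform := BP_form a₀ c hT
  obtain ⟨b, hb⟩ : ∃ b, b = cpc (∑ j, c j • cmp a₀ ^ (j : ℕ)) := ⟨_, rfl⟩
  obtain ⟨T, hTd⟩ : ∃ T, T = kryM (∑ j, c j • cmp a₀ ^ (j : ℕ)) := ⟨_, rfl⟩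
  rw [← hb] at hb1 hb2 hb3 hb4
  rw [← hb, ← hTd] at hform
  rw [← hTd] at hT
  have t2 : (2 : kk) ≠ 0 := two_ne_zero
  obtain ⟨g, y, hgram, hdet, hconj⟩ := fwd he b hb1 hb2
  have hkk : (1 : Matrix (Fin (2 * (1 + 1 + 1) + e)) (Fin (2 * (1 + 1 + 1) + e)) kk) =
      kryM (cmS b) * kryM (xop e g y) := by
    rw [← kryM_cmp b]
    exact kryM_conj (kryM_mulVec_e0 (cmS b)) hconj
  have hXd : (kryM (xop e g y)).det ≠ 0 := by
    intro h0
    have h1 := congrArg Matrix.det hkk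
    rw [Matrix.det_mul, h0, mul_zero, Matrix.det_one] at h1
    exact one_ne_zero h1
  have hcpc : cpc (xop e g y) = b := by
    rw [← cpc_conj hb2 hconj, cpc_cmp]
  have hdu := dual1 he g y hdet hXd
  rw [hcpc] at hdu
  rw [hdu, BP_hf_dbl] at hb3 hb4
  have hgd : (gamM (dbl e g)).det ≠ 0 := (det_hk_dbl he g).1 hdet
  have hdg := det_gam he g
  have hg0 : cf g 0 ≠ 0 := by
    intro h0
    apply hgd
    rw [hdg, h0, mul_zero]
  -- the classes
  have hcl1 : cls (hk a₀) = (e : ℕ) • cl 1 + cls ((2 : kk) • hk g) + cls ((-2 : kk) • hk1 g) := by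
    rw [← cls_gam he g hb3 hg0]
    refine cls_cong t2 (hk_transpose a₀) h ⟨T * kryM (cmS b), ?_, ?_⟩
    · rw [Matrix.det_mul]
      exact mul_ne_zero hT hb2
    · rw [← hgram, ← hform, Matrix.transpose_mul]
      simp only [Matrix.mul_assoc]
  -- the determinants
  obtain ⟨s, hs⟩ : ∃ s, s = (kryM (cmS b)).det * T.det := ⟨_, rfl⟩
  have hs0 : s ≠ 0 := by
    rw [hs]
    exact mul_ne_zero hb2 hT
  obtain ⟨w, hw⟩ : ∃ w, w = 2 ^ (1 + 1 + 1) * (hk g).det * cf g 0 ^ e := ⟨_, rfl⟩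
  have hw0 : w ≠ 0 := by
    rw [hw]
    exact mul_ne_zero (mul_ne_zero (pow_ne_zero _ t2) hb3) (pow_ne_zero _ hg0)
  have hdets : w ^ 2 * cf g 0 = s ^ 2 * (hk a₀).det := by
    rw [hw, ← hdg, ← hgram, ← hform, hs]
    simp only [Matrix.det_mul, Matrix.det_transpose]
    ring
  -- the second duality
  obtain ⟨a, ρ, R, hd', h0', -, hR, hf, hWop, -⟩ := fwd2 (k := 1 + 1) (by decide) g hb3 hb4
  have hdet2 := det_second a ρ hd' h0' g R hR hf hWop
  obtain ⟨A, hAdef⟩ : ∃ A, A = ((Aop a).submatrix id finSumFinEquiv).det := ⟨_, rfl⟩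
  rw [← hAdef] at hdet2
  have hne : 2 * cf a 0 * cf g 0 ≠ 0 := mul_ne_zero (mul_ne_zero t2 h0') hg0
  have hA : A ≠ 0 := by
    intro h1
    apply hne
    rw [hdet2, h1]
    ring
  have hρ : ρ ≠ 0 := by
    intro h1
    apply hne
    rw [hdet2, h1]
    ring
  have hcs := (cls_second a hρ hd' h0' g hg0 R hR hf hWop).2
  have hη : s / (w * A) ≠ 0 := div_ne_zero hs0 (mul_ne_zero hw0 hA)
  have hρη : 2 * (hk a₀).det * cf a 0 * (s / (w * A)) ^ 2 = ρ := by
    have h1 : ρ = 2 * cf a 0 * cf g 0 / A ^ 2 := by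
      rw [hdet2]
      field_simp
    have h2 : cf g 0 = s ^ 2 * (hk a₀).det / w ^ 2 := by
      rw [← hdets]
      field_simp
    rw [h1, h2]
    field_simp
  have ha0 : a 0 ≠ 0 := by
    have h1 : cf a 0 = a 0 := by
      unfold cf
      rw [dif_pos (by norm_num : 0 < 1 + 1)]
      rfl
    rw [← h1]
    exact h0'
  refine ⟨a, hd', ha0, ?_⟩
  have hsum : (e : ℕ) • cl 1 + cls ((2 : kk) • hk g) + cls ((-2 : kk) • hk1 g) =
      e • cl 1 + (cls ((2 : kk) • hk g) + cls ((-2 : kk) • hk1 g)) := add_assoc _ _ _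
  rw [hcl1, hsum, hcs, ← hρη, cl_mul_sq _ hη]
  unfold coreF
  have h1 : (-2 : kk) * 1 = -2 := mul_one _
  rw [h1]
  abel

end NF83
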