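import Pool.Agent.H.MP_83e36b_nt.nf.Cmp
import Pool.Agent.H.MP_83e36b_nt.td.Cmp2

/-! Comparison of two lifts to `G`; as `compare2` in td/Cmp2.lean, over an arbitrary field. -/

set_option autoImplicit false

open Matrix Polynomial DC83

namespace NF83

private theorem CmpR_root {F : Type*} [Field F] {n : ℕ} {u y : Fin n → F}
    (hu : Function.Injective u)
    (h : ∏ i, (X - C (u i)) = ∏ i, (X - C (y i))) :
    ∃ κ : Equiv.Perm (Fin n), ∀ i, u i = y (κ i) := by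
  have h1 : ∀ i, ∃ j, u i = y j := by
    intro i
    have h2 : (∏ j, (X - C (y j))).eval (u i) = 0 := by
      rw [← h, eval_prod]
      exact Finset.prod_eq_zero (Finset.mem_univ i) (by simp)
    rw [eval_prod, Finset.prod_eq_zero_iff] at h2
    obtain ⟨j, -, hj⟩ := h2
    refine ⟨j, ?_⟩
    rw [eval_sub, eval_X, eval_C] at hj
    exact sub_eq_zero.1 hj
  choose κ hκ using h1
  have hinj : Function.Injective κ := by
    intro i j hij
    apply hu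
    rw [hκ, hκ, hij]
  exact ⟨Equiv.ofBijective κ (Finite.injective_iff_bijective.1 hinj), hκ⟩

private theorem CmpR_vand {F : Type*} [Field F] {n : ℕ} {u y : Fin n → F}
    {κ : Equiv.Perm (Fin n)} (h : ∀ i, u i = y (κ i)) :
    (vandermonde u).det = ((Equiv.Perm.sign κ : ℤ) : F) * (vandermonde y).det := by
  have h1 : vandermonde u = (vandermonde y).submatrix κ id := by
    ext i j
    rw [submatrix_apply, vandermonde_apply, vandermonde_apply, h]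
    rfl
  rw [h1, det_permute]

/-- the sign of a product with a sign is determined -/
private theorem CmpR_inj {n m : ℕ} {G : Type} [Group G] {φ : G →* dAlt (n + m)} {c : ℤˣ →* G}
    (hcφ : ∀ u, ((φ (c u)).1 : Matrix (Ix (n + m)) (Ix (n + m)) ℚ) =
      ((u : ℤ) : Matrix (Ix (n + m)) (Ix (n + m)) ℚ)) {u w : ℤˣ} (h : c u = c w) : u = w := by
  have h1 : ((u : ℤ) : Matrix (Ix (n + m)) (Ix (n + m)) ℚ) =
      ((w : ℤ) : Matrix (Ix (n + m)) (Ix (n + m)) ℚ) := by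
    rw [← hcφ, ← hcφ, h]
  have a : Ix (n + m) := Classical.arbitrary _
  have h2 := congrFun (congrFun h1 a) a
  rw [← Matrix.diagonal_intCast, ← Matrix.diagonal_intCast, Matrix.diagonal_apply_eq,
    Matrix.diagonal_apply_eq] at h2
  exact Units.ext (Int.cast_injective h2)

/-- Proof: as `compare2` in td/Cmp2.lean (copy the private lemmas with the prefix `CmpR_`), with
`exists_res j ι hι`, `Cts_res` of nf/Res.lean instead of `exists_res`, `Cts.res` (compare the port of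
dc/Cmp.lean in nf/Cmp.lean). -/
theorem compareR {k : Type} [Field k] [CharZero k] {K : Type} [Field K] [CharZero K]
    {Ω : Type} [Field Ω] [CharZero Ω] [Algebra K Ω]
    [IsAlgClosed Ω] [Algebra.IsAlgebraic K Ω] {Ω₀ : Type} [Field Ω₀] [Algebra k Ω₀]
    [IsAlgClosed Ω₀] [Algebra.IsAlgebraic k Ω₀] (j : k →+* K) (ι : Ω₀ →+* Ω)
    (hι : ι.comp (algebraMap k Ω₀) = (algebraMap K Ω).comp j) {n m : ℕ} (hn : 2 ≤ n) {G : Type}
    [Group G] {A : Type} [Group A] {α : G →* A} {φ : G →* dAlt (n + m)} (h : KerTwoAlt α φ)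
    {π₁ : G →* Equiv.Perm (Fin n)} {π₂ : A →* Equiv.Perm (Fin m)}
    (hπ : ∀ g, pi (n + m) (φ g) = bP (π₁ g) (π₂ (α g))) {c : ℤˣ →* G}
    (hcα : ∀ u, α (c u) = 1) (hcφ : ∀ u, ((φ (c u)).1 : Matrix (Ix (n + m)) (Ix (n + m)) ℚ) =
      ((u : ℤ) : Matrix (Ix (n + m)) (Ix (n + m)) ℚ)) (hcc : ∀ u g, c u * g = g * c u)
    {a : Fin n → k} {z : Fin n → Ω₀} (hz : Function.Injective z)
    (hza : AnWA.monicPoly (fun i => algebraMap k Ω₀ (a i)) = ∏ i, (X - C (z i)))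
    {ρ₁ : (Ω₀ ≃ₐ[k] Ω₀) →* G} (hρ₁ : ∀ τ i, τ (z i) = z (π₁ (ρ₁ τ) i)) (hc₁ : Cts ρ₁)
    {y : Fin n → Ω}
    (hya : AnWA.monicPoly (fun i => algebraMap K Ω (j (a i))) = ∏ i, (X - C (y i)))
    {ρ : (Ω ≃ₐ[K] Ω) →* G} (hρ : ∀ τ i, τ (y i) = y (π₁ (ρ τ) i)) (hc : Cts ρ)
    (hα : ∀ τ τ₀, (∀ x, ι (τ₀ x) = τ (ι x)) → α (ρ₁ τ₀) = α (ρ τ))
    (hdet : (vandermonde y).det ≠ - ι ((vandermonde z).det)) :
    ∃ (g : G) (χ : (Ω ≃ₐ[K] Ω) →* ℤˣ), α g = 1 ∧ Cts χ ∧ ∀ τ τ₀, (∀ x, ι (τ₀ x) = τ (ι x)) →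
      ρ₁ τ₀ = c (χ τ) * (g * ρ τ * g⁻¹) := by
  have hιz : Function.Injective (fun i => ι (z i)) := fun i j h => hz (ι.injective h)
  have hpoly : ∏ i, (X - C (ι (z i))) = ∏ i, (X - C (y i)) := by
    rw [← hya]
    have h1 : (∏ i, (X - C (z i))).map ι = ∏ i, (X - C (ι (z i))) := by
      rw [Polynomial.map_prod]
      refine Finset.prod_congr rfl fun i _ => ?_
      rw [Polynomial.map_sub, Polynomial.map_X, Polynomial.map_C]
    rw [← h1, ← hza, ← AnWA.monicPoly_map]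
    congr 1
    funext i
    exact RingHom.congr_fun hι (a i)
  obtain ⟨κ, hκ⟩ := CmpR_root hιz hpoly
  have hs : Equiv.Perm.sign κ = 1 := by
    rcases Int.units_eq_one_or (Equiv.Perm.sign κ) with h | h
    · exact h
    · exfalso
      apply hdet
      have h1 := CmpR_vand hκ
      have h2 : ι (vandermonde z).det = (vandermonde fun i => ι (z i)).det := by
        rw [RingHom.map_det]
        congr 1
        ext i j
        rw [RingHom.mapMatrix_apply, map_apply, vandermonde_apply, vandermonde_apply, map_pow]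
      rw [h2, h1, h]
      simp
  have hy : Function.Injective y := by
    intro i j hij
    have h1 : ι (z (κ.symm i)) = ι (z (κ.symm j)) := by
      rw [hκ, hκ, Equiv.apply_symm_apply, Equiv.apply_symm_apply, hij]
    exact κ.symm.injective (hz (ι.injective h1))
  obtain ⟨g, hgα, hg⟩ := exists_ker2 hn h (κ := κ⁻¹) (by rw [Equiv.Perm.sign_inv, hs])
  have hgπ : π₁ g = κ⁻¹ := by
    have h1 := hπ g
    rw [hg] at h1
    exact (bP_inj h1).1.symm
  obtain ⟨r, hr⟩ := exists_res j ι hι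
  have hα' : ∀ τ, α (ρ₁ (r τ)) = α (g * ρ τ * g⁻¹) := by
    intro τ
    rw [map_mul, map_mul, map_inv, hgα, one_mul, inv_one, mul_one]
    exact hα τ (r τ) (hr τ)
  have hpi : ∀ τ, π₁ (ρ₁ (r τ)) = π₁ (g * ρ τ * g⁻¹) := by
    intro τ
    rw [map_mul, map_mul, map_inv, hgπ, inv_inv]
    refine Equiv.ext fun i => ?_
    apply κ.injective
    apply hy
    have e1 : κ (κ⁻¹ (π₁ (ρ τ) (κ i))) = π₁ (ρ τ) (κ i) := Equiv.apply_symm_apply κ _
    show y (κ (π₁ (ρ₁ (r τ)) i)) = y (κ (κ⁻¹ (π₁ (ρ τ) (κ i))))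
    rw [e1, ← hκ, ← hρ₁, hr, hκ, hρ]
  have hχ : ∀ τ, ∃ u : ℤˣ, ρ₁ (r τ) = c u * (g * ρ τ * g⁻¹) := by
    intro τ
    have h1 : pi (n + m) (φ (ρ₁ (r τ) * (g * ρ τ * g⁻¹)⁻¹)) = 1 := by
      rw [hπ, map_mul, map_mul, map_inv, map_inv, hpi, hα', mul_inv_cancel, mul_inv_cancel,
        map_one, bP_one]
    have h2 : ρ₁ (r τ) = (ρ₁ (r τ) * (g * ρ τ * g⁻¹)⁻¹) * (g * ρ τ * g⁻¹) := by
      rw [inv_mul_cancel_right]
    have h4 : α (ρ₁ (r τ) * (g * ρ τ * g⁻¹)⁻¹) = 1 := by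
      rw [map_mul, map_inv, hα', mul_inv_cancel]
    generalize ρ₁ (r τ) * (g * ρ τ * g⁻¹)⁻¹ = w at h1 h2 h4
    have h5 : ∀ u : ℤˣ, ((φ w).1 : Matrix (Ix (n + m)) (Ix (n + m)) ℚ) =
        ((u : ℤ) : Matrix (Ix (n + m)) (Ix (n + m)) ℚ) → w = c u := by
      intro u hu
      refine lift2_inj h ?_ ?_
      · refine Subtype.ext (Units.ext ?_)
        rw [hu, hcφ]
      · rw [h4, hcα]
    rcases pi_ker h1 with h3 | h3
    · exact ⟨1, by rw [h2, h5 1 (by rw [h3, Units.val_one, Int.cast_one])]⟩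
    · exact ⟨-1, by rw [h2, h5 (-1) (by rw [h3, Units.val_neg, Units.val_one, Int.cast_neg,
        Int.cast_one])]⟩
  choose χ hχ using hχ
  obtain ⟨χ', hχ'⟩ : ∃ χ' : (Ω ≃ₐ[K] Ω) →* ℤˣ, ∀ τ, χ' τ = χ τ := by
    refine ⟨MonoidHom.mk' χ fun τ τ' => ?_, fun _ => rfl⟩
    apply CmpR_inj hcφ
    have e1 : g * ρ (τ * τ') * g⁻¹ = (g * ρ τ * g⁻¹) * (g * ρ τ' * g⁻¹) := by
      rw [map_mul]
      group
    have e2 : c (χ (τ * τ')) * (g * ρ (τ * τ') * g⁻¹) =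
        c (χ τ * χ τ') * (g * ρ (τ * τ') * g⁻¹) := by
      rw [← hχ, map_mul, map_mul, hχ τ, hχ τ', e1, map_mul]
      rw [mul_assoc (c (χ τ)), ← mul_assoc (g * ρ τ * g⁻¹), ← hcc (χ τ') (g * ρ τ * g⁻¹)]
      simp only [mul_assoc]
    exact mul_right_cancel e2
  refine ⟨g, χ', hgα, ?_, ?_⟩
  · refine Cts.of_two (Cts_res ι hr hc₁) hc χ' fun τ h1 h2 => ?_
    rw [hχ']
    have h3 := hχ τ
    have h1' : ρ₁ (r τ) = 1 := h1
    rw [h1', h2, mul_one, mul_inv_cancel, mul_one] at h3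
    refine CmpR_inj hcφ ?_
    rw [← h3, map_one]
  · intro τ τ₀ h
    have h1 : τ₀ = r τ := AlgEquiv.ext fun x => ι.injective ((h x).trans (hr τ x).symm)
    rw [h1, hχ']
    exact hχ τ

end NF83
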