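import Pool.Agent.H.MP_83e36b_nt.nf.Glob

/-! The lifting of a Galois representation to `2.A_n`, relative to a given one which has a lift. -/

set_option autoImplicit false

open Matrix SpinWA DC83

namespace NF83

private theorem GlobR_mul {k : Type} [Field k] {Ω : Type} [Field Ω] [Algebra k Ω] {m : Type*}
    [Fintype m] (τ : Ω ≃ₐ[k] Ω) (A B : Matrix m m Ω) :
    (A * B).map τ = A.map τ * B.map τ :=
  Matrix.map_mul (f := (τ : Ω →+* Ω))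

private theorem GlobR_rat {k : Type} [Field k] {Ω : Type} [Field Ω] [CharZero Ω] [Algebra k Ω]
    {m : Type*} (τ : Ω ≃ₐ[k] Ω) (A : Matrix m m ℚ) :
    (A.map (Rat.castHom Ω)).map τ = A.map (Rat.castHom Ω) := by
  ext i j
  simp only [Matrix.map_apply, eq_ratCast, map_ratCast]

/-- Proof: as `glob` in nf/Glob.lean (copy its private lemmas with the prefix `GlobR_`).
`M = V B⁻¹ V₀⁻¹` (`B` stands for `B.map (algebraMap k Ω)`): `Mᵀ M = 1` by `h`, `det M = 1` by `hdet`,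
`τ(M) = pM (σ τ) M (pM (σ₀ τ))⁻¹` (`(pM s)⁻¹ = (pM s)ᵀ = pM s⁻¹`, `pM_transpose`).  Let `x` with
`Spn x M` (`Spn.exists`), `r τ = ((ρ₀ τ).1).map c`, `Spn (r τ) (pM (σ₀ τ)⁻¹)` (this is how `exists_of_spn`
is used in `glob`; see dc/Spn.lean, dc/SpnKer.lean, dc/Perm.lean for the converse direction: the element
`x` of `dAlt n` satisfies `Spn (x.map c) (pM (pi n x)⁻¹)`), and
`g τ = x * r τ * (x.map τ)ᵀ`: `Spn (g τ) (M (pM (σ₀ τ)⁻¹) (M.map τ)ᵀ) = Spn (g τ) (pM (σ τ)⁻¹)`.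
`g τ` is rational (`exists_of_spn`), so fixed by all `τ'`, and `g (τ τ') = g τ * g τ'`:
`g τ' = (g τ').map τ = x.map τ * r τ' * (x.map (τ τ'))ᵀ` and `(x.map τ)ᵀ * x.map τ = 1`.
Continuity: `Cts.of_fix`/`Cts.of_two` with `hρ₀` (trivial where the entries of `x` are fixed and
`ρ₀ τ = 1`; `g τ = x * xᵀ = 1`). -/
theorem globR {n : ℕ} (hn : 2 ≤ n) {k : Type} [Field k] {Ω : Type} [Field Ω] [CharZero Ω]
    [Algebra k Ω] [IsAlgClosed Ω] [Algebra.IsAlgebraic k Ω] {V V₀ : Matrix (Fin n) (Fin n) Ω}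
    (hV : V.det ≠ 0) (hV₀ : V₀.det ≠ 0) (σ σ₀ : (Ω ≃ₐ[k] Ω) →* Equiv.Perm (Fin n))
    (hτ : ∀ τ : Ω ≃ₐ[k] Ω, V.map τ = pM Ω (σ τ) * V)
    (hτ₀ : ∀ τ : Ω ≃ₐ[k] Ω, V₀.map τ = pM Ω (σ₀ τ) * V₀)
    (ρ₀ : (Ω ≃ₐ[k] Ω) →* dAlt n) (hρ₀ : Cts ρ₀) (hpi : ∀ τ, pi n (ρ₀ τ) = σ₀ τ)
    {B : Matrix (Fin n) (Fin n) k}
    (h : (B.map (algebraMap k Ω))ᵀ * (V₀ᵀ * V₀) * B.map (algebraMap k Ω) = Vᵀ * V)
    (hdet : V.det = V₀.det * algebraMap k Ω B.det) :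
    ∃ ρ : (Ω ≃ₐ[k] Ω) →* dAlt n, Cts ρ ∧ ∀ τ, pi n (ρ τ) = σ τ := by
  classical
  obtain ⟨c, hc⟩ : ∃ c : ℚ →+* Ω, c = Rat.castHom Ω := ⟨_, rfl⟩
  have hcm : ∀ (τ : Ω ≃ₐ[k] Ω) {m : Type} (A : Matrix m m ℚ), (A.map c).map τ = A.map c := by
    intro τ m A
    rw [hc]
    exact GlobR_rat τ A
  obtain ⟨c', hc'⟩ : ∃ c' : k →+* Ω, c' = algebraMap k Ω := ⟨_, rfl⟩
  have hcm' : ∀ (τ : Ω ≃ₐ[k] Ω) {m : Type} (A : Matrix m m k), (A.map c').map τ = A.map c' := by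
    intro τ m A
    rw [hc']
    ext i j
    exact τ.commutes _
  rw [← hc'] at h hdet
  -- the inverse of B
  have hBdet : B.det ≠ 0 := by
    intro h0
    rw [h0, map_zero, mul_zero] at hdet
    exact hV hdet
  obtain ⟨Bm, hBm⟩ : ∃ Bm, Bm = B.map c' := ⟨_, rfl⟩
  obtain ⟨Bi, hBi⟩ : ∃ Bi, Bi = (B⁻¹).map c' := ⟨_, rfl⟩
  have hBB : Bm * Bi = 1 := by
    rw [hBm, hBi, ← Matrix.map_mul, Matrix.mul_nonsing_inv B (isUnit_iff_ne_zero.2 hBdet),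
      Matrix.map_one _ (map_zero c') (map_one c')]
  have hBBt : Biᵀ * Bmᵀ = 1 := by rw [← transpose_mul, hBB, transpose_one]
  have hBmdet : Bm.det = c' B.det := by
    rw [hBm]
    exact (RingHom.map_det c' B).symm
  rw [← hBm] at h
  -- the inverse of V₀
  obtain ⟨Vi, hVi⟩ : ∃ Vi, Vi = V₀⁻¹ := ⟨_, rfl⟩
  have hVV : V₀ * Vi = 1 := by
    rw [hVi]
    exact Matrix.mul_nonsing_inv V₀ (isUnit_iff_ne_zero.2 hV₀)
  have hVV' : Vi * V₀ = 1 := mul_eq_one_comm.1 hVV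
  have hVVt : Viᵀ * V₀ᵀ = 1 := by rw [← transpose_mul, hVV, transpose_one]
  obtain ⟨M, hM⟩ : ∃ M, M = V * Bi * Vi := ⟨_, rfl⟩
  have hMM : Mᵀ * M = 1 := by
    rw [hM, transpose_mul, transpose_mul]
    calc Viᵀ * (Biᵀ * Vᵀ) * (V * Bi * Vi) = Viᵀ * (Biᵀ * (Vᵀ * V) * Bi) * Vi := by
          simp only [Matrix.mul_assoc]
      _ = Viᵀ * ((Biᵀ * Bmᵀ) * (V₀ᵀ * V₀) * (Bm * Bi)) * Vi := by
          rw [← h]
          simp only [Matrix.mul_assoc]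
      _ = (Viᵀ * V₀ᵀ) * (V₀ * Vi) := by
          rw [hBBt, hBB, Matrix.mul_one, Matrix.one_mul]
          simp only [Matrix.mul_assoc]
      _ = 1 := by rw [hVVt, hVV, Matrix.mul_one]
  have hMdet : M.det = 1 := by
    have h1 : Bm.det * Bi.det = 1 := by rw [← det_mul, hBB, det_one]
    have h2 : V₀.det * Vi.det = 1 := by rw [← det_mul, hVV, det_one]
    rw [hM, det_mul, det_mul, hdet, ← hBmdet]
    calc V₀.det * Bm.det * Bi.det * Vi.det = (Bm.det * Bi.det) * (V₀.det * Vi.det) := by ring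
      _ = 1 := by rw [h1, h2, one_mul]
  obtain ⟨x, hx⟩ := Spn.exists hMM hMdet
  have hx1 := hx.mul_transpose
  have hViτ : ∀ τ : Ω ≃ₐ[k] Ω, Vi.map τ = Vi * pM Ω (σ₀ τ)⁻¹ := by
    intro τ
    have h1 : V₀.map τ * Vi.map τ = 1 := by
      rw [← GlobR_mul, hVV, Matrix.map_one _ (map_zero τ) (map_one τ)]
    rw [hτ₀, Matrix.mul_assoc] at h1
    have h2 : pM Ω (σ₀ τ)⁻¹ * pM Ω (σ₀ τ) = 1 := by
      rw [pM_mul, mul_inv_cancel, pM_one]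
    have h3 : V₀ * Vi.map τ = pM Ω (σ₀ τ)⁻¹ := by
      calc V₀ * Vi.map τ = (pM Ω (σ₀ τ)⁻¹ * pM Ω (σ₀ τ)) * (V₀ * Vi.map τ) := by
            rw [h2, Matrix.one_mul]
        _ = pM Ω (σ₀ τ)⁻¹ * (pM Ω (σ₀ τ) * (V₀ * Vi.map τ)) := by
            rw [Matrix.mul_assoc]
        _ = pM Ω (σ₀ τ)⁻¹ := by rw [h1, Matrix.mul_one]
    calc Vi.map τ = (Vi * V₀) * Vi.map τ := by rw [hVV', Matrix.one_mul]
      _ = Vi * pM Ω (σ₀ τ)⁻¹ := by rw [Matrix.mul_assoc, h3]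
  have hMτ : ∀ τ : Ω ≃ₐ[k] Ω, M.map τ = pM Ω (σ τ) * M * pM Ω (σ₀ τ)⁻¹ := by
    intro τ
    rw [hM, GlobR_mul, GlobR_mul, hτ, hViτ, hBi, hcm']
    simp only [Matrix.mul_assoc]
  obtain ⟨r, hr⟩ : ∃ r : (Ω ≃ₐ[k] Ω) → Matrix (Ix n) (Ix n) Ω,
      r = fun τ : Ω ≃ₐ[k] Ω => ((ρ₀ τ).1 : Matrix (Ix n) (Ix n) ℚ).map c := ⟨_, rfl⟩
  have hrs : ∀ τ, Spn (r τ) (pM Ω (σ₀ τ)⁻¹) := by
    intro τ
    have h1 := spn_pi Ω (ρ₀ τ)
    rw [hpi, ← hc] at h1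
    rw [hr]
    exact h1
  have hrm : ∀ τ τ' : Ω ≃ₐ[k] Ω, r (τ * τ') = r τ * r τ' := by
    intro τ τ'
    rw [hr]
    simp only []
    rw [map_mul, Subgroup.coe_mul, Units.val_mul, Matrix.map_mul]
  have hrτ : ∀ τ τ' : Ω ≃ₐ[k] Ω, (r τ').map τ = r τ' := by
    intro τ τ'
    rw [hr]
    exact hcm τ _
  obtain ⟨g, hg⟩ : ∃ g : (Ω ≃ₐ[k] Ω) → Matrix (Ix n) (Ix n) Ω,
      g = fun τ : Ω ≃ₐ[k] Ω => x * r τ * (x.map (fun y => τ y))ᵀ := ⟨_, rfl⟩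
  have hgs : ∀ τ, Spn (g τ) (pM Ω (σ τ)⁻¹) := by
    intro τ
    have h1 := (hx.mul' (hrs τ)).mul' ((hx.map (τ : Ω →+* Ω)).transpose)
    have h2 : M * pM Ω (σ₀ τ)⁻¹ * (M.map (τ : Ω →+* Ω))ᵀ = pM Ω (σ τ)⁻¹ := by
      have h3 : M.map (τ : Ω →+* Ω) = pM Ω (σ τ) * M * pM Ω (σ₀ τ)⁻¹ := hMτ τ
      have h4 : pM Ω (σ₀ τ)⁻¹ * pM Ω (σ₀ τ) = 1 := by
        rw [pM_mul, mul_inv_cancel, pM_one]
      rw [h3, transpose_mul, transpose_mul, pM_transpose, pM_transpose, inv_inv]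
      calc M * pM Ω (σ₀ τ)⁻¹ * (pM Ω (σ₀ τ) * (Mᵀ * pM Ω (σ τ)⁻¹))
          = M * (pM Ω (σ₀ τ)⁻¹ * pM Ω (σ₀ τ)) * Mᵀ * pM Ω (σ τ)⁻¹ := by
            simp only [Matrix.mul_assoc]
        _ = pM Ω (σ τ)⁻¹ := by
            rw [h4, Matrix.mul_one, mul_eq_one_comm.1 hMM, Matrix.one_mul]
    rw [h2] at h1
    rw [hg]
    exact h1
  have hex := fun τ => exists_of_spn hn (hgs τ)
  rw [← hc] at hex
  choose ρ hρ1 hρ2 using hex
  have hinj : ∀ a b : dAlt n, (a.1 : Matrix (Ix n) (Ix n) ℚ).map c =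
      (b.1 : Matrix (Ix n) (Ix n) ℚ).map c → a = b := fun a b hab =>
    Subtype.ext (Units.ext (Matrix.map_injective c.injective hab))
  have hxτ : ∀ τ : Ω ≃ₐ[k] Ω, (x.map τ)ᵀ * x.map τ = 1 := by
    intro τ
    have h1 : (x.map τ)ᵀ = xᵀ.map τ := rfl
    rw [h1, ← GlobR_mul, hx1.2.1, Matrix.map_one _ (map_zero τ) (map_one τ)]
  have hgg : ∀ τ τ' : Ω ≃ₐ[k] Ω, g (τ * τ') = g τ * g τ' := by
    intro τ τ'
    have e1 : (g τ').map τ = g τ' := by rw [← hρ2, hcm]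
    have e2 : (g τ').map τ = x.map τ * r τ' * (x.map (τ * τ'))ᵀ := by
      rw [hg]
      simp only []
      rw [GlobR_mul, GlobR_mul, hrτ]
      rfl
    rw [← e1, e2, hg]
    show x * r (τ * τ') * (x.map (τ * τ'))ᵀ =
      x * r τ * (x.map τ)ᵀ * (x.map τ * r τ' * (x.map (τ * τ'))ᵀ)
    calc x * r (τ * τ') * (x.map (τ * τ'))ᵀ
        = x * r τ * 1 * r τ' * (x.map (τ * τ'))ᵀ := by
          rw [hrm, Matrix.mul_one]
          simp only [Matrix.mul_assoc]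
      _ = x * r τ * (x.map τ)ᵀ * (x.map τ * r τ' * (x.map (τ * τ'))ᵀ) := by
          rw [← hxτ τ]
          simp only [Matrix.mul_assoc]
  obtain ⟨ρ', hρ'⟩ : ∃ ρ' : (Ω ≃ₐ[k] Ω) →* dAlt n, ∀ τ, ρ' τ = ρ τ :=
    ⟨MonoidHom.mk' ρ fun τ τ' => hinj _ _ (by
      rw [hρ2, hgg, ← hρ2, ← hρ2, ← Matrix.map_mul, Subgroup.coe_mul, Units.val_mul]),
      fun τ => rfl⟩
  refine ⟨ρ', ?_, fun τ => by rw [hρ', hρ1]⟩
  obtain ⟨L₀, hL₀, hL₀'⟩ := hρ₀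
  refine ⟨L₀ ⊔ IntermediateField.adjoin k (Set.range fun p : Ix n × Ix n => x p.1 p.2), ?_, ?_⟩
  · have h1 : FiniteDimensional k
        (IntermediateField.adjoin k (Set.range fun p : Ix n × Ix n => x p.1 p.2)) :=
      IntermediateField.finiteDimensional_adjoin fun y _ =>
        (Algebra.IsAlgebraic.isAlgebraic (R := k) y).isIntegral
    exact IntermediateField.finiteDimensional_sup _ _
  · intro τ hfix
    have h2 : x.map τ = x := by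
      ext a b
      apply hfix
      apply (le_sup_right : IntermediateField.adjoin k
        (Set.range fun p : Ix n × Ix n => x p.1 p.2) ≤ L₀ ⊔ _)
      exact IntermediateField.subset_adjoin k _ ⟨(a, b), rfl⟩
    have h3 : ρ₀ τ = 1 := hL₀' τ fun y hy => hfix y ((le_sup_left : L₀ ≤ L₀ ⊔ _) hy)
    have h4 : r τ = 1 := by
      rw [hr]
      simp only []
      rw [h3, Subgroup.coe_one, Units.val_one, Matrix.map_one _ (map_zero c) (map_one c)]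
    rw [hρ']
    apply hinj
    show (((ρ τ).1 : (Matrix (Ix n) (Ix n) ℚ)ˣ) : Matrix (Ix n) (Ix n) ℚ).map c = _
    rw [hρ2, hg]
    simp only []
    rw [h2, h4, Matrix.mul_one, hx1.1, Subgroup.coe_one, Units.val_one,
      Matrix.map_one _ (map_zero c) (map_one c)]

end NF83
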