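import Pool.Agent.H.MP_83e36b_nt.nf.LocB
import Pool.Agent.H.MP_83e36b_nt.nf.Quad

/-! The local matrix and the roots, for a general form; as td/LocB2.lean over an arbitrary field. -/

set_option autoImplicit false

open Matrix Polynomial SpinWA DC83

namespace NF83

/-- a reflection of a nondegenerate quadratic form -/
private theorem LocBR_flip {K : Type} [Field K] (h2 : (2 : K) ≠ 0) {n : ℕ} (hn : 1 ≤ n)
    {J : Matrix (Fin n) (Fin n) K} (hJt : Jᵀ = J) (hJ0 : J.det ≠ 0) :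
    ∃ D : Matrix (Fin n) (Fin n) K, Dᵀ * J * D = J ∧ D.det = -1 := by
  obtain ⟨d, -, R, hR, hR'⟩ := exists_diag h2 hJt hJ0
  obtain ⟨E, hE⟩ : ∃ E : Matrix (Fin n) (Fin n) K,
      E = diagonal fun i => if i = (⟨0, hn⟩ : Fin n) then (-1 : K) else 1 := ⟨_, rfl⟩
  have hEd : E.det = -1 := by
    rw [hE, det_diagonal, Finset.prod_ite_eq' Finset.univ (⟨0, hn⟩ : Fin n) fun _ => (-1 : K),
      if_pos (Finset.mem_univ _)]
  have hEJ : Eᵀ * diagonal d * E = diagonal d := by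
    rw [hE, diagonal_transpose, diagonal_mul_diagonal, diagonal_mul_diagonal]
    congr 1
    funext i
    split_ifs <;> ring
  have hRu : IsUnit R.det := isUnit_iff_ne_zero.2 hR
  have hRR : R * R⁻¹ = 1 := mul_nonsing_inv R hRu
  have hRR' : (R⁻¹)ᵀ * Rᵀ = 1 := by rw [← transpose_mul, hRR, transpose_one]
  have hJe : J = (R⁻¹)ᵀ * (Rᵀ * J * R) * R⁻¹ := by
    calc J = ((R⁻¹)ᵀ * Rᵀ) * J * (R * R⁻¹) := by rw [hRR, hRR', Matrix.one_mul, Matrix.mul_one]
      _ = (R⁻¹)ᵀ * (Rᵀ * J * R) * R⁻¹ := by simp only [Matrix.mul_assoc]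
  refine ⟨R * E * R⁻¹, ?_, ?_⟩
  · calc (R * E * R⁻¹)ᵀ * J * (R * E * R⁻¹) = (R⁻¹)ᵀ * (Eᵀ * (Rᵀ * J * R) * E) * R⁻¹ := by
          rw [transpose_mul, transpose_mul]
          simp only [Matrix.mul_assoc]
      _ = (R⁻¹)ᵀ * (Rᵀ * J * R) * R⁻¹ := by rw [hR', hEJ]
      _ = J := hJe.symm
  · have h1 : R.det * R⁻¹.det = 1 := by rw [← det_mul, hRR, det_one]
    rw [det_mul, det_mul, hEd]
    linear_combination - h1

/-- Proof: as `loc_B2` in td/LocB2.lean and `loc_B` in nf/LocB.lean; `Cong Q (hk a)` gives `P`;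
`(det P)² det Q = det (hk a) = (det vandermonde x)²`, so `det P * δ = ± det vandermonde x`; for the sign
`-` replace `P` by `D * P` with an isometry `D` of `Q` of determinant `-1` (a reflection; see
td/LocB2.lean). -/
theorem loc_BR {K : Type} [Field K] [CharZero K] {Ω : Type} [Field Ω] [Algebra K Ω]
    {n : ℕ} (hn : 1 ≤ n) {Q : Matrix (Fin n) (Fin n) K} (hQ : Qᵀ = Q) (hd : Q.det ≠ 0)
    {a : Fin n → K} {x : Fin n → Ω} (hx : Function.Injective x)
    (hax : AnWA.monicPoly (fun i => algebraMap K Ω (a i)) = ∏ i, (X - C (x i)))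
    (hc : Cong Q (hk a)) {δ : Ω} (hδ : δ ^ 2 = algebraMap K Ω Q.det) :
    ∃ B : Matrix (Fin n) (Fin n) K, Bᵀ * Q * B = hk a ∧ B.det ≠ 0 ∧
      algebraMap K Ω B.det * δ = (vandermonde x).det := by
  have hV : (vandermonde x).det ≠ 0 := det_vandermonde_ne_zero_iff.2 hx
  have e1 : (hk a).map (algebraMap K Ω) = (vandermonde x)ᵀ * vandermonde x := by
    rw [hk_map]
    exact (vand_hk x _ hx hax).symm
  have e2 : algebraMap K Ω (hk a).det = (vandermonde x).det ^ 2 := by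
    rw [RingHom.map_det, RingHom.mapMatrix_apply, e1, det_mul, det_transpose, sq]
  obtain ⟨P, hP, hP'⟩ := hc
  have e3 : P.det ^ 2 * Q.det = (hk a).det := by
    rw [← hP', det_mul, det_mul, det_transpose]
    ring
  have e4 : (algebraMap K Ω P.det * δ) ^ 2 = (vandermonde x).det ^ 2 := by
    rw [mul_pow, hδ, ← map_pow, ← map_mul, e3, e2]
  rcases sq_eq_sq_iff_eq_or_eq_neg.1 e4 with h | h
  · exact ⟨P, hP', hP, h⟩
  · obtain ⟨D, hDJ, hDd⟩ := LocBR_flip two_ne_zero hn hQ hd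
    refine ⟨D * P, ?_, ?_, ?_⟩
    · calc (D * P)ᵀ * Q * (D * P) = Pᵀ * (Dᵀ * Q * D) * P := by
            rw [transpose_mul]
            simp only [Matrix.mul_assoc]
        _ = hk a := by rw [hDJ, hP']
    · rw [det_mul, hDd]
      simpa using hP
    · rw [det_mul, hDd, neg_one_mul, map_neg, neg_mul, h, neg_neg]

/-- Proof: as `roots2` in td/LocB2.lean, `Grun_roots` in nf/Grun.lean. -/
theorem rootsR {k : Type} [Field k] [CharZero k] {n : ℕ} (hn : 2 ≤ n)
    {Q : Matrix (Fin n) (Fin n) k} (hd : Q.det ≠ 0) {b : Fin n → k} {C' : Matrix (Fin n) (Fin n) k}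
    (h : C'ᵀ * Q * C' = hk b) (hC : C'.det ≠ 0) {δ : Kb k}
    (hδ : δ ^ 2 = algebraMap k (Kb k) Q.det) :
    ∃ z : Fin n → Kb k, Function.Injective z ∧
      AnWA.monicPoly (fun i => algebraMap k (Kb k) (b i)) = ∏ i, (X - C (z i)) ∧
      (vandermonde z).det = algebraMap k (Kb k) C'.det * δ := by
  have hdd : (hk b).det = C'.det ^ 2 * Q.det := by
    rw [← h, det_mul, det_mul, det_transpose]
    ring
  have hd0 : (hk b).det ≠ 0 := by
    rw [hdd]
    exact mul_ne_zero (pow_ne_zero 2 hC) hd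
  obtain ⟨z, hz, hzb⟩ := exists_roots (algebraMap k (Kb k)) b hd0
  have h1 : (vandermonde z).det ^ 2 = (algebraMap k (Kb k) C'.det * δ) ^ 2 := by
    have h2 := croot_hk_det_map (algebraMap k (Kb k)) b
    rw [← vand_hk z _ hz hzb, det_mul, det_transpose, hdd, map_mul, map_pow] at h2
    rw [sq, ← h2, mul_pow, hδ]
  rcases sq_eq_sq_iff_eq_or_eq_neg.1 h1 with h2 | h2
  · exact ⟨z, hz, hzb, h2⟩
  · obtain ⟨κ, hκ⟩ : ∃ κ : Equiv.Perm (Fin n), κ = Equiv.swap ⟨0, by omega⟩ ⟨1, by omega⟩ :=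
      ⟨_, rfl⟩
    have hne : (⟨0, by omega⟩ : Fin n) ≠ ⟨1, by omega⟩ := by
      intro h3
      have h4 := congrArg Fin.val h3
      simp at h4
    refine ⟨z ∘ κ, hz.comp κ.injective, ?_, ?_⟩
    · rw [hzb]
      exact (Equiv.prod_comp κ (fun i => (X - C (z i)))).symm
    · have h3 : vandermonde (z ∘ κ) = pM (Kb k) κ * vandermonde z := by
        ext i j
        rw [pM_mul_apply, vandermonde_apply, vandermonde_apply]
        rfl
      rw [h3, det_mul, pM_det, hκ, Equiv.Perm.sign_swap hne, h2]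
      simp

end NF83
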