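import Pool.Agent.H.MP_83e36b_nt.nf.LocB
import Pool.Agent.H.MP_83e36b_nt.td.Blk

/-! Two algebras of degree at most seven whose Galois representations, together with a fixed third one,
lift to `2.A_(n+m)`, have isometric trace forms over a completion. -/

set_option autoImplicit false

open Matrix Polynomial SpinWA DC83

namespace NF83

private theorem LocPair_two {n : ℕ} {σ : Equiv.Perm (Fin n)} (hσ : σ * σ = 1) :
    2 * (Finset.univ.filter fun i : Fin n => σ i < i).card ≤ n := by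
  classical
  set S := Finset.univ.filter fun i : Fin n => σ i < i with hS
  have hσσ : ∀ i, σ (σ i) = i := fun i => by
    have := Equiv.congr_fun hσ i
    simpa using this
  have hd : Disjoint S (S.map σ.toEmbedding) := by
    rw [Finset.disjoint_left]
    intro a ha hb
    rw [Finset.mem_map] at hb
    obtain ⟨b, hb, rfl⟩ := hb
    have h1 := (Finset.mem_filter.1 ha).2
    have h2 := (Finset.mem_filter.1 hb).2
    have h3 : σ (σ b) < σ b := h1
    rw [hσσ] at h3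
    exact lt_asymm h2 h3
  have h1 : (S ∪ S.map σ.toEmbedding).card = 2 * S.card := by
    rw [Finset.card_union_of_disjoint hd, Finset.card_map]
    ring
  have h2 : (S ∪ S.map σ.toEmbedding).card ≤ n := by
    refine (Finset.card_le_univ _).trans ?_
    rw [Fintype.card_fin]
  omega

private theorem LocPair_card {n m : ℕ} (σ : Equiv.Perm (Fin n)) (ψ : Equiv.Perm (Fin m)) :
    (Finset.univ.filter fun i : Fin (n + m) => bP σ ψ i < i).card =
      (Finset.univ.filter fun i : Fin n => σ i < i).card +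
        (Finset.univ.filter fun i : Fin m => ψ i < i).card := by
  classical
  rw [Finset.card_filter, Finset.card_filter, Finset.card_filter, Fin.sum_univ_add]
  congr 1
  · refine Finset.sum_congr rfl fun i _ => ?_
    have h : bP σ ψ (Fin.castAdd m i) < Fin.castAdd m i ↔ σ i < i := by
      rw [bP_castAdd, Fin.lt_def, Fin.lt_def, Fin.val_castAdd, Fin.val_castAdd]
    by_cases h1 : σ i < i
    · rw [if_pos h1, if_pos (h.2 h1)]
    · rw [if_neg h1, if_neg (fun h2 => h1 (h.1 h2))]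
  · refine Finset.sum_congr rfl fun i _ => ?_
    have h : bP σ ψ (Fin.natAdd n i) < Fin.natAdd n i ↔ ψ i < i := by
      rw [bP_natAdd, Fin.lt_def, Fin.lt_def, Fin.val_natAdd, Fin.val_natAdd]
      omega
    by_cases h1 : ψ i < i
    · rw [if_pos h1, if_pos (h.2 h1)]
    · rw [if_neg h1, if_neg (fun h2 => h1 (h.1 h2))]

/-- complex conjugation -/
private theorem LocPair_conj {K : Type} [Field K] (φ : K ≃+* ℝ) {Ω : Type} [Field Ω] [CharZero Ω]
    [Algebra K Ω] [IsAlgClosed Ω] [Algebra.IsAlgebraic K Ω] :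
    ∃ (e : Ω ≃+* ℂ) (c : Ω ≃ₐ[K] Ω), (∀ z, e (c z) = (starRingEnd ℂ) (e z)) ∧ c * c = 1 ∧
      ∀ a : K, e (algebraMap K Ω a) = algebraMap ℝ ℂ (φ a) := by
  letI : Algebra ℝ Ω := ((algebraMap K Ω).comp (φ.symm : ℝ →+* K)).toAlgebra
  have hmap : ∀ a : K, algebraMap ℝ Ω (φ a) = algebraMap K Ω a := fun a => by
    show algebraMap K Ω (φ.symm (φ a)) = _
    rw [φ.symm_apply_apply]
  have halg : Algebra.IsAlgebraic ℝ Ω := by
    refine ⟨fun z => ?_⟩
    obtain ⟨p, hp, hpz⟩ := Algebra.IsAlgebraic.isAlgebraic (R := K) z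
    refine ⟨p.map (φ : K →+* ℝ), ?_, ?_⟩
    · rw [Ne, Polynomial.map_eq_zero_iff (φ : K →+* ℝ).injective]
      exact hp
    · rw [Polynomial.aeval_def, Polynomial.eval₂_map]
      have h1 : (algebraMap ℝ Ω).comp (φ : K →+* ℝ) = algebraMap K Ω := RingHom.ext hmap
      rw [h1]
      exact hpz
  have hac : IsAlgClosure ℝ Ω := ⟨inferInstance, inferInstance⟩
  have hac' : IsAlgClosure ℝ ℂ := ⟨inferInstance, inferInstance⟩
  obtain ⟨e⟩ : Nonempty (Ω ≃ₐ[ℝ] ℂ) := ⟨IsAlgClosure.equiv ℝ Ω ℂ⟩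
  obtain ⟨c, hca⟩ : ∃ c : Ω ≃ₐ[K] Ω, ∀ z, e (c z) = (starRingEnd ℂ) (e z) := by
    obtain ⟨c, hcdef⟩ : ∃ c : Ω ≃ₐ[ℝ] Ω, c = (e.trans Complex.conjAe).trans e.symm := ⟨_, rfl⟩
    refine ⟨AlgEquiv.ofRingEquiv (f := c.toRingEquiv) fun a => ?_, fun z => ?_⟩
    · rw [← hmap]
      exact c.commutes _
    · show e (c z) = _
      rw [hcdef]
      show e (e.symm (Complex.conjAe (e z))) = _
      rw [e.apply_symm_apply]
      rfl
  have hcc : c * c = 1 := by
    ext z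
    apply e.injective
    show e (c (c z)) = e z
    rw [hca, hca, Complex.conj_conj]
  refine ⟨e.toRingEquiv, c, hca, hcc, fun a => ?_⟩
  rw [← hmap]
  exact e.commutes _

/-- the form over `ℝ` -/
private theorem LocPair_real {K : Type} [Field K] (φ : K ≃+* ℝ) {Ω : Type} [Field Ω]
    [Algebra K Ω] {n : ℕ} {e : Ω ≃+* ℂ} {c : Ω ≃ₐ[K] Ω}
    (hca : ∀ z, e (c z) = (starRingEnd ℂ) (e z))
    (hea : ∀ a : K, e (algebraMap K Ω a) = algebraMap ℝ ℂ (φ a))
    {σ : Equiv.Perm (Fin n)} (hσ : σ * σ = 1) {V : Matrix (Fin n) (Fin n) Ω} (hV : V.det ≠ 0)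
    (hτ : V.map c = pM Ω σ * V) {H : Matrix (Fin n) (Fin n) K}
    (hH : H.map (algebraMap K Ω) = Vᵀ * V) :
    cls (H.map φ) = (Finset.univ.filter fun i : Fin n => σ i < i).card • cl (-1 : ℝ) +
      (n - (Finset.univ.filter fun i : Fin n => σ i < i).card) • cl (1 : ℝ) := by
  refine real_form hσ (V := V.map e) (H := H.map φ) ?_ (fun i j => ?_) ?_
  · have h1 : (V.map e).det = e V.det := by
      have := RingHom.map_det (e : Ω →+* ℂ) V
      exact this.symm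
    rw [h1]
    exact (map_ne_zero e).2 hV
  · rw [Matrix.map_apply, ← hca, Matrix.map_apply]
    have h1 := congrFun (congrFun hτ i) j
    rw [Matrix.map_apply, pM_mul_apply] at h1
    rw [h1]
  · ext a b
    have h1 := congrArg e (congrFun (congrFun hH a) b)
    rw [Matrix.map_apply, Matrix.mul_apply, map_sum, hea] at h1
    rw [Matrix.map_apply, Matrix.map_apply, Matrix.mul_apply, h1]
    refine Finset.sum_congr rfl fun i _ => ?_
    rw [Matrix.transpose_apply, Matrix.transpose_apply, Matrix.map_apply, Matrix.map_apply,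
      map_mul]

private theorem LocPair_symm {K : Type} [Field K] {Ω : Type} [Field Ω] [Algebra K Ω] {n : ℕ}
    {V : Matrix (Fin n) (Fin n) Ω} {H : Matrix (Fin n) (Fin n) K}
    (hH : H.map (algebraMap K Ω) = Vᵀ * V) : Hᵀ = H := by
  apply Matrix.map_injective (algebraMap K Ω).injective
  show Hᵀ.map (algebraMap K Ω) = H.map (algebraMap K Ω)
  rw [Matrix.transpose_map, hH, Matrix.transpose_mul, Matrix.transpose_transpose]

private theorem LocPair_det {K : Type} [Field K] {Ω : Type} [Field Ω] [Algebra K Ω] {n : ℕ}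
    {V : Matrix (Fin n) (Fin n) Ω} (hV : V.det ≠ 0) {H : Matrix (Fin n) (Fin n) K}
    (hH : H.map (algebraMap K Ω) = Vᵀ * V) : H.det ≠ 0 := by
  intro h3
  have h4 := congrArg Matrix.det hH
  have h5 : (H.map (algebraMap K Ω)).det = algebraMap K Ω H.det := by
    rw [← RingHom.mapMatrix_apply, ← RingHom.map_det]
  rw [h5, h3, map_zero, Matrix.det_mul, Matrix.det_transpose] at h4
  exact mul_ne_zero hV hV h4.symm

/-- Proof.  Let `V' = bM V W`, `V₀' = bM V₀ W`: `V'.map τ = pM (pi (n+m) (ρ τ)) * V'` (`pM_bP`, `bM_mul`,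
`bM_map`), `(bM H HF).map = V'ᵀ V'` (`bM_transpose`, `bM_mul`), similarly for `V₀'`.
(1) `hK = Or.inl hu`: `locP hu hρ ..` (dc/LocP.lean, as used in `loc_one` of nf/LocB.lean) for `ρ`, `V'`,
`bM H HF` and for `ρ₀`, `V₀'`, `bM H₀ HF`: both classes are `(n + m) • cl 1`; `cls_bM` and cancellation give
`cls H₀ = cls H`; `cong_of_cls` (symmetry of `H`, `H₀`, `HF`: the map to `Ω` is injective; nonzero
determinants: as in nf/LocB.lean).
(2) `K ≃+* ℝ`: as `loc_real` in nf/LocR.lean (copy; complex conjugation `c : Ω ≃ₐ[K] Ω`, `c * c = 1`).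
`four_dvd` for `ρ c` and `ρ₀ c`: 4 divides the number of `i : Fin (n+m)` with `(bP (σ c) (ψ c)) i < i`,
which is `#{i : Fin n | σ c i < i} + #{j : Fin m | ψ c j < j}`; the same for `σ₀ c`; so
`#{σ c i < i}` and `#{σ₀ c i < i}` are congruent modulo 4 and both at most 3 (`2 # ≤ n ≤ 7`, `LocR_card`
in nf/LocR.lean), hence equal; `σ c`, `σ₀ c` are involutions (`bP_inj`); `real_form` for `σ c`, `V.map e`,
`H.map φ` and for `σ₀ c`, `V₀.map e`, `H₀.map φ` gives the same class over `ℝ`; `cong_of_cls` over `ℝ`,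
transport to `K` by `φ.symm` as in `loc_real`. -/
theorem loc_pair {K : Type} [Field K] [CharZero K] (hK : GoodPl K) {Ω : Type} [Field Ω] [CharZero Ω]
    [Algebra K Ω] [IsAlgClosed Ω] [Algebra.IsAlgebraic K Ω] {n m : ℕ} (hn : n ≤ 7)
    (ρ ρ₀ : (Ω ≃ₐ[K] Ω) →* dAlt (n + m)) (hρ : Cts ρ) (hρ₀ : Cts ρ₀)
    (σ σ₀ : (Ω ≃ₐ[K] Ω) → Equiv.Perm (Fin n)) (ψ : (Ω ≃ₐ[K] Ω) → Equiv.Perm (Fin m))
    (hpi : ∀ τ, pi (n + m) (ρ τ) = bP (σ τ) (ψ τ))
    (hpi₀ : ∀ τ, pi (n + m) (ρ₀ τ) = bP (σ₀ τ) (ψ τ))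
    {V V₀ : Matrix (Fin n) (Fin n) Ω} {W : Matrix (Fin m) (Fin m) Ω} (hV : V.det ≠ 0)
    (hV₀ : V₀.det ≠ 0) (hW : W.det ≠ 0) (hτ : ∀ τ : Ω ≃ₐ[K] Ω, V.map τ = pM Ω (σ τ) * V)
    (hτ₀ : ∀ τ : Ω ≃ₐ[K] Ω, V₀.map τ = pM Ω (σ₀ τ) * V₀)
    (hτW : ∀ τ : Ω ≃ₐ[K] Ω, W.map τ = pM Ω (ψ τ) * W) {H H₀ : Matrix (Fin n) (Fin n) K}
    {HF : Matrix (Fin m) (Fin m) K} (hH : H.map (algebraMap K Ω) = Vᵀ * V)
    (hH₀ : H₀.map (algebraMap K Ω) = V₀ᵀ * V₀) (hHF : HF.map (algebraMap K Ω) = Wᵀ * W) :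
    Cong H₀ H := by
  classical
  have hHt := LocPair_symm hH
  have hH₀t := LocPair_symm hH₀
  have hHFt := LocPair_symm hHF
  have hHd := LocPair_det hV hH
  have hH₀d := LocPair_det hV₀ hH₀
  have hHFd := LocPair_det hW hHF
  rcases hK with hu | ⟨⟨φ⟩⟩
  · have key : ∀ (ρ' : (Ω ≃ₐ[K] Ω) →* dAlt (n + m)), Cts ρ' →
        ∀ σ' : (Ω ≃ₐ[K] Ω) → Equiv.Perm (Fin n), (∀ τ, pi (n + m) (ρ' τ) = bP (σ' τ) (ψ τ)) →
        ∀ V' : Matrix (Fin n) (Fin n) Ω, V'.det ≠ 0 →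
        (∀ τ : Ω ≃ₐ[K] Ω, V'.map τ = pM Ω (σ' τ) * V') → ∀ H' : Matrix (Fin n) (Fin n) K,
        H'.map (algebraMap K Ω) = V'ᵀ * V' → cls H' + cls HF = (n + m) • cl (1 : K) := by
      intro ρ' hρ' σ' hpi' V' hV' hτ' H' hH'
      have h1 : (bM V' W).det ≠ 0 := by
        rw [bM_det]
        exact mul_ne_zero hV' hW
      have h2 : ∀ τ : Ω ≃ₐ[K] Ω, (bM V' W).map τ = pM Ω (pi (n + m) (ρ' τ)) * bM V' W := by
        intro τ
        have h3 := bM_map (((τ : Ω ≃+* Ω) : Ω →+* Ω)) V' W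
        have h4 : (bM V' W).map τ = bM (V'.map τ) (W.map τ) := h3
        rw [h4, hτ', hτW, hpi', pM_bP, bM_mul]
      have h3 : (bM H' HF).map (algebraMap K Ω) = (bM V' W)ᵀ * bM V' W := by
        rw [bM_map, bM_transpose, bM_mul, hH', hHF]
      rw [← cls_bM two_ne_zero (LocPair_symm hH') (LocPair_det hV' hH') hHFt hHFd]
      exact locP hu hρ' h1 h2 h3
    have h1 := key ρ hρ σ hpi V hV hτ H hH
    have h2 := key ρ₀ hρ₀ σ₀ hpi₀ V₀ hV₀ hτ₀ H₀ hH₀
    exact cong_of_cls two_ne_zero hH₀t hH₀d hHt hHd (add_right_cancel (h2.trans h1.symm))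
  · obtain ⟨e, c, hca, hcc, hea⟩ := LocPair_conj φ (Ω := Ω)
    have key : ∀ (ρ' : (Ω ≃ₐ[K] Ω) →* dAlt (n + m)),
        ∀ σ' : (Ω ≃ₐ[K] Ω) → Equiv.Perm (Fin n), (∀ τ, pi (n + m) (ρ' τ) = bP (σ' τ) (ψ τ)) →
        σ' c * σ' c = 1 ∧ 4 ∣ (Finset.univ.filter fun i : Fin n => σ' c i < i).card +
          (Finset.univ.filter fun i : Fin m => ψ c i < i).card := by
      intro ρ' σ' hpi'
      have hx : ρ' c * ρ' c = 1 := by rw [← map_mul, hcc, map_one]
      have h1 : bP (σ' c * σ' c) (ψ c * ψ c) = bP 1 1 := by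
        rw [← bP_mul, ← hpi', ← map_mul, hx, map_one, bP_one]
      refine ⟨(bP_inj h1).1, ?_⟩
      have h2 := four_dvd hx
      rw [hpi', LocPair_card] at h2
      exact h2
    obtain ⟨hs, h4⟩ := key ρ σ hpi
    obtain ⟨hs₀, h4₀⟩ := key ρ₀ σ₀ hpi₀
    have hc1 := LocPair_two hs
    have hc2 := LocPair_two hs₀
    have hcard : (Finset.univ.filter fun i : Fin n => σ₀ c i < i).card =
        (Finset.univ.filter fun i : Fin n => σ c i < i).card := by
      omega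
    have r1 := LocPair_real φ hca hea hs hV (hτ c) hH
    have r2 := LocPair_real φ hca hea hs₀ hV₀ (hτ₀ c) hH₀
    rw [hcard] at r2
    have ht : ∀ {M : Matrix (Fin n) (Fin n) K}, Mᵀ = M → (M.map φ)ᵀ = M.map φ := by
      intro M hM
      rw [← Matrix.transpose_map, hM]
    have hd : ∀ {M : Matrix (Fin n) (Fin n) K}, M.det ≠ 0 → (M.map φ).det ≠ 0 := by
      intro M hM h
      have h3 := RingHom.map_det (φ : K →+* ℝ) M
      exact hM ((map_eq_zero φ).1 (h3.trans h))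
    obtain ⟨P, hP, hP'⟩ := cong_of_cls (K := ℝ) two_ne_zero (ht hH₀t) (hd hH₀d) (ht hHt) (hd hHd)
      (r2.trans r1.symm)
    refine ⟨P.map φ.symm, ?_, ?_⟩
    · intro h
      have h3 := RingHom.map_det (φ.symm : ℝ →+* K) P
      have h4 : φ.symm P.det = 0 := h3.trans h
      exact hP ((map_eq_zero φ.symm).1 h4)
    · have h3 := congrArg (fun M : Matrix (Fin n) (Fin n) ℝ => M.map (φ.symm : ℝ →+* K)) hP'
      have h6 : ((Pᵀ * H₀.map φ * P).map (φ.symm : ℝ →+* K)) =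
          (H.map φ).map (φ.symm : ℝ →+* K) := h3
      rw [Matrix.map_mul, Matrix.map_mul, Matrix.transpose_map] at h6
      have h5 : ∀ M : Matrix (Fin n) (Fin n) K, (M.map φ).map (φ.symm : ℝ →+* K) = M := by
        intro M
        ext i j
        exact φ.symm_apply_apply _
      rw [h5, h5] at h6
      exact h6

end NF83
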