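import Pool.Agent.H.MP_83e36b_nt.rf.CoreR2
import Pool.Agent.H.MP_83e36b_nt.sp.StarLoc

/-! The second duality: reduction of the degree three to the degree two, general case; as
sp/StarO.lean. -/

set_option autoImplicit false

open Topology Matrix Polynomial SpinWA

namespace NF83

private theorem StarR_cf {R : Type*} [CommRing R] {k : ℕ} (a : Fin (k + 1) → R) :
    cf a 0 = a 0 := by
  unfold cf
  rw [dif_pos (Nat.succ_pos k)]
  rfl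

private theorem StarR_loc {K : Type} [NontriviallyNormedField K] [CompleteSpace K] [CharZero K]
    {k : ℕ} (h1k : 1 ≤ k) (hev : Even (k + 1)) (φ : ℚ →+* K) {c : K}
    (hc : c ≠ 0) (g : Fin (k + 1 + 1) → K) {τ : K} (hgd : (hk g).det ≠ 0) (hτ0 : τ ≠ 0)
    (hτ : cf g 0 = c * τ ^ 2) {U : Set (Fin (k + 1 + 1) → K)} (hU : U ∈ 𝓝 g)
    {W : Set K} (hW : W ∈ 𝓝 τ) :
    ∃ (g' : Fin (k + 1) → K) (η : K) (N1 : Set (Fin (k + 1) → K))
      (N2 : Set K), IsOpen N1 ∧ g' ∈ N1 ∧ N2 ∈ 𝓝 η ∧ g' 0 ≠ 0 ∧ η ≠ 0 ∧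
      cls ((2 : K) • hk g) + cls ((-2 : K) • hk1 g) = coreF c 1 g' ∧
      (∀ a ∈ N1, (hk a).det ≠ 0 ∧ coreF c 1 a = coreF c 1 g') ∧
      ∀ a ∈ N1, ∀ y ∈ N2, (hk a).det ≠ 0 ∧ cf a 0 ≠ 0 ∧
        y ≠ 0 ∧ (cmS a).det ≠ 0 ∧ (kryM (Wop a (2 * c * cf a 0 * y ^ 2))).det ≠ 0 ∧
        cpc (Wop a (2 * c * cf a 0 * y ^ 2)) ∈ U ∧
        ((Aop a).submatrix id finSumFinEquiv).det ≠ 0 ∧
        ((Aop a).submatrix id finSumFinEquiv).det * y ∈ W := by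
  obtain ⟨g', η, h1, h2, h3, h4, h5⟩ := star_loc φ h1k hev g hc hgd hτ0 hτ hU hW
  have t2 : (2 : K) ≠ 0 := two_ne_zero
  have h0 : g' 0 ≠ 0 := by
    rw [← StarR_cf g']
    exact h2
  obtain ⟨M1, hM1, M2, hM2, hM⟩ := mem_nhds_prod_iff.1 h5
  have h6 := cls_hk_nhds g' h1 h2
  have h7 : ∀ᶠ a in 𝓝 g', cl (2 * c * cf a 0) = cl (2 * c * cf g' 0) := by
    have hcont : Continuous fun a : Fin (k + 1) → K => 2 * c * cf a 0 := by
      simp only [StarR_cf]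
      exact continuous_const.mul (continuous_apply 0)
    exact hcont.continuousAt.eventually
      (cl_nhds t2 (mul_ne_zero (mul_ne_zero t2 hc) h2))
  have h8 : M1 ∩ {a | ((hk a).det ≠ 0 ∧ cf a 0 ≠ 0 ∧
      cls ((2 : K) • hk a) = cls ((2 : K) • hk g') ∧
      cls ((-2 : K) • hk1 a) = cls ((-2 : K) • hk1 g')) ∧
      cl (2 * c * cf a 0) = cl (2 * c * cf g' 0)} ∈ 𝓝 g' :=
    Filter.inter_mem hM1 (h6.and h7)
  refine ⟨g', η, interior (M1 ∩ {a | ((hk a).det ≠ 0 ∧ cf a 0 ≠ 0 ∧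
      cls ((2 : K) • hk a) = cls ((2 : K) • hk g') ∧
      cls ((-2 : K) • hk1 a) = cls ((-2 : K) • hk1 g')) ∧
      cl (2 * c * cf a 0) = cl (2 * c * cf g' 0)}), M2, isOpen_interior,
      mem_interior_iff_mem_nhds.2 h8, hM2, h0, h3, ?_, ?_, ?_⟩
  · rw [h4]
    unfold coreF
    rw [mul_one]
    abel
  · intro a ha
    obtain ⟨-, ⟨h9, -, h11, h12⟩, h13⟩ := interior_subset ha
    refine ⟨h9, ?_⟩
    unfold coreF
    rw [mul_one, h11, h12, h13]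
  · intro a ha y hy
    have h9 := hM (Set.mk_mem_prod (interior_subset ha).1 hy)
    exact h9

variable {kk : Type} [Field kk] [CharZero kk] [PlSys kk]

private theorem StarR_fin {k : ℕ} (e : ℕ) (S : Finset (Pk kk)) (hS : p0 kk ∈ S) (c : kk)
    (R : WG kk) (U : ∀ v, Set (Fin (k + 1 + 1) → Cp v)) (W : ∀ v, Set (Cp v))
    (G : Fin (k + 1) → kk) (η : kk) (hGd : (hk G).det ≠ 0) (hG0 : cf G 0 ≠ 0) (hη : η ≠ 0)
    (hc0 : c ≠ 0) (hcore : coreF c 1 G = R - e • cl 1)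
    (h : ∀ v ∈ S, (cmS fun i => em v (G i)).det ≠ 0 ∧
      (kryM (Wop (fun i => em v (G i))
        (2 * em v c * cf (fun i => em v (G i)) 0 * em v η ^ 2))).det ≠ 0 ∧
      cpc (Wop (fun i => em v (G i))
        (2 * em v c * cf (fun i => em v (G i)) 0 * em v η ^ 2)) ∈ U v ∧
      ((Aop fun i => em v (G i)).submatrix id finSumFinEquiv).det ≠ 0 ∧
      ((Aop fun i => em v (G i)).submatrix id finSumFinEquiv).det * em v η ∈ W v) :
    ∃ (G : Fin (k + 1 + 1) → kk) (t : kk), (hk G).det ≠ 0 ∧ t ≠ 0 ∧ cf G 0 = c * t ^ 2 ∧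
      e • cl 1 + cls ((2 : kk) • hk G) + cls ((-2 : kk) • hk1 G) = R ∧
      ∀ v ∈ S, (fun i => em v (G i)) ∈ U v ∧ em v t ∈ W v := by
  have hρe : ∀ v, em v (2 * c * cf G 0 * η ^ 2) =
      2 * em v c * cf (fun i => em v (G i)) 0 * em v η ^ 2 := by
    intro v
    rw [map_mul, map_mul, map_mul, map_pow, cf_map, map_ofNat]
  have hAe : ∀ v, em v ((Aop G).submatrix id finSumFinEquiv).det =
      ((Aop fun i => em v (G i)).submatrix id finSumFinEquiv).det := by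
    intro v
    rw [RingHom.map_det, RingHom.mapMatrix_apply, ← Matrix.submatrix_map, Aop_map]
  have hSe : ∀ v, em v (cmS G).det = (cmS fun i => em v (G i)).det := by
    intro v
    rw [RingHom.map_det, RingHom.mapMatrix_apply, cmS_map]
  have hKe : ∀ v, em v (kryM (Wop G (2 * c * cf G 0 * η ^ 2))).det =
      (kryM (Wop (fun i => em v (G i))
        (2 * em v c * cf (fun i => em v (G i)) 0 * em v η ^ 2))).det := by
    intro v
    rw [kryM_det_map, Wop_map, hρe]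
  obtain ⟨n1, n2, -, n4, -⟩ := h (p0 kk) hS
  have hSd : (cmS G).det ≠ 0 := by
    intro h1
    rw [← hSe, h1, map_zero] at n1
    exact n1 rfl
  have hKd : (kryM (Wop G (2 * c * cf G 0 * η ^ 2))).det ≠ 0 := by
    intro h1
    rw [← hKe, h1, map_zero] at n2
    exact n2 rfl
  have hAd : ((Aop G).submatrix id finSumFinEquiv).det ≠ 0 := by
    intro h1
    rw [← hAe, h1, map_zero] at n4
    exact n4 rfl
  have hρ : 2 * c * cf G 0 * η ^ 2 ≠ 0 :=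
    mul_ne_zero (mul_ne_zero (mul_ne_zero two_ne_zero hc0) hG0) (pow_ne_zero 2 hη)
  obtain ⟨R', hR', r1, r2⟩ := bwd2 G (2 * c * cf G 0 * η ^ 2) hGd hG0 hSd hKd
  have hdet := det_second G (2 * c * cf G 0 * η ^ 2) hGd hG0 _ R' hR' r1 r2
  set A' : kk := ((Aop G).submatrix id finSumFinEquiv).det with hA'
  set a' : Fin (k + 1 + 1) → kk := cpc (Wop G (2 * c * cf G 0 * η ^ 2)) with ha'
  have hcf : cf a' 0 = c * (A' * η) ^ 2 := by
    have h1 : (2 * cf G 0) * cf a' 0 = (2 * cf G 0) * (c * (A' * η) ^ 2) := by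
      rw [hdet]
      ring
    exact mul_left_cancel₀ (mul_ne_zero two_ne_zero hG0) h1
  have ht : A' * η ≠ 0 := mul_ne_zero hAd hη
  have hcf0 : cf a' 0 ≠ 0 := by
    rw [hcf]
    exact mul_ne_zero hc0 (pow_ne_zero 2 ht)
  obtain ⟨q1, q2⟩ := cls_second G hρ hGd hG0 a' hcf0 R' hR' r1 r2
  refine ⟨a', A' * η, q1, ht, hcf, ?_, ?_⟩
  · rw [add_assoc, q2, cl_mul_sq _ hη]
    unfold coreF at hcore
    rw [mul_one] at hcore
    have h1 : cls ((2 : kk) • hk G) + cl 2 + (cls ((-2 : kk) • hk1 G) + cl (2 * c * cf G 0)) =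
        cl 2 + cl (2 * c * cf G 0) + cls ((2 : kk) • hk G) + cls ((-2 : kk) • hk1 G) := by
      abel
    rw [h1, hcore]
    abel
  · intro v hv
    obtain ⟨-, -, m3, -, m5⟩ := h v hv
    constructor
    · have h1 : (fun i => em v (a' i)) = cpc (Wop (fun i => em v (G i))
          (2 * em v c * cf (fun i => em v (G i)) 0 * em v η ^ 2)) := by
        funext i
        rw [ha', cpc_map, Wop_map, hρe]
      rw [h1]
      exact m3
    · rw [map_mul, hA', hAe]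
      exact m5

theorem star3R (e : ℕ) (S : Finset (Pk kk)) (hS : p0 kk ∈ S) {c : kk} (hc0 : c ≠ 0) (R : WG kk)
    (hR : HasBase c (R - e • cl 1))
    (g : ∀ v : Pk kk, Fin (1 + 1 + 1) → Cp v) (τ : ∀ v : Pk kk, Cp v)
    (hgd : ∀ v ∈ S, (hk (g v)).det ≠ 0) (hτ0 : ∀ v ∈ S, τ v ≠ 0)
    (hτ : ∀ v ∈ S, cf (g v) 0 = em v c * τ v ^ 2)
    (hcl : ∀ v ∈ S, e • cl 1 + cls ((2 : Cp v) • hk (g v)) + cls ((-2 : Cp v) • hk1 (g v)) =
      WG.map (em v) R)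
    (U : ∀ v : Pk kk, Set (Fin (1 + 1 + 1) → Cp v)) (hU : ∀ v ∈ S, U v ∈ 𝓝 (g v))
    (W : ∀ v : Pk kk, Set (Cp v)) (hW : ∀ v ∈ S, W v ∈ 𝓝 (τ v)) :
    ∃ (G : Fin (1 + 1 + 1) → kk) (t : kk), (hk G).det ≠ 0 ∧ t ≠ 0 ∧ cf G 0 = c * t ^ 2 ∧
      e • cl 1 + cls ((2 : kk) • hk G) + cls ((-2 : kk) • hk1 G) = R ∧
      ∀ v ∈ S, (fun i => em v (G i)) ∈ U v ∧ em v t ∈ W v := by
  have hce : ∀ v : Pk kk, em v c ≠ 0 := fun v => (map_ne_zero (em v)).2 hc0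
  have hex : ∀ v : Pk kk, ∃ (g' : Fin (1 + 1) → Cp v) (η : Cp v)
      (N1 : Set (Fin (1 + 1) → Cp v)) (N2 : Set (Cp v)), v ∈ S →
      (IsOpen N1 ∧ g' ∈ N1 ∧ N2 ∈ 𝓝 η ∧ g' 0 ≠ 0 ∧ η ≠ 0 ∧
      cls ((2 : Cp v) • hk (g v)) + cls ((-2 : Cp v) • hk1 (g v)) = coreF (em v c) 1 g' ∧
      (∀ a ∈ N1, (hk a).det ≠ 0 ∧ coreF (em v c) 1 a = coreF (em v c) 1 g') ∧
      ∀ a ∈ N1, ∀ y ∈ N2, (hk a).det ≠ 0 ∧ cf a 0 ≠ 0 ∧
        y ≠ 0 ∧ (cmS a).det ≠ 0 ∧ (kryM (Wop a (2 * em v c * cf a 0 * y ^ 2))).det ≠ 0 ∧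
        cpc (Wop a (2 * em v c * cf a 0 * y ^ 2)) ∈ U v ∧
        ((Aop a).submatrix id finSumFinEquiv).det ≠ 0 ∧
        ((Aop a).submatrix id finSumFinEquiv).det * y ∈ W v) := by
    intro v
    by_cases hv : v ∈ S
    · obtain ⟨g', η, N1, N2, h1⟩ := StarR_loc (k := 1) le_rfl (by decide) (Rat.castHom (Cp v))
        (c := em v c) (hce v) (g v) (hgd v hv) (hτ0 v hv) (hτ v hv) (hU v hv) (hW v hv)
      exact ⟨g', η, N1, N2, fun _ => h1⟩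
    · exact ⟨0, 0, ∅, ∅, fun h => absurd h hv⟩
  choose g' η N1 N2 hN using hex
  have hη1 : ∀ v ∈ S, N2 v ∈ 𝓝 (η v) := fun v hv => (hN v hv).2.2.1
  obtain ⟨y, hy⟩ := wa_rat S η N2 hη1
  obtain ⟨G, hGd, hG0, hcore, hG⟩ := core2R hc0 hR S hS g'
    (fun v hv => ((hN v hv).2.2.2.2.2.2.1 _ (hN v hv).2.1).1) (fun v hv => (hN v hv).2.2.2.1)
    (fun v hv => by
      rw [← (hN v hv).2.2.2.2.2.1, map_sub, ← hcl v hv, map_nsmul, WG.map_cl, map_one]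
      abel)
    N1 (fun v hv => (hN v hv).1.mem_nhds (hN v hv).2.1)
  have hGc : cf G 0 ≠ 0 := by
    rw [StarR_cf]
    exact hG0
  have hloc := fun v hv => (hN v hv).2.2.2.2.2.2.2 _ (hG v hv) _ (hy v hv)
  have hy0 : y ≠ 0 := by
    intro h1
    apply (hloc (p0 kk) hS).2.2.1
    rw [h1, map_zero]
  exact StarR_fin (k := 1) e S hS c R U W G y hGd hGc hy0 hc0 hcore fun v hv => by
    obtain ⟨-, -, -, h4, h5, h6, h7, h8⟩ := hloc v hv
    exact ⟨h4, h5, h6, h7, h8⟩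

end NF83
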