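import Pool.Agent.H.MP_83e36b_nt.rf.Q2
import Pool.Agent.H.MP_83e36b_nt.nf.Qd

/-! The parametrisation of the polynomials of degree two, general case: continuity, naturality, the local
step. -/

set_option autoImplicit false

open Matrix SpinWA Topology

namespace NF83

section maps
variable {K : Type*} [Field K]

/-- `v` -/
def pV (d : Fin 4 → K) (γ : K) (v₀ u₀ : Fin 4 → K) (x : Fin 5 × Fin 4 → K) : Fin 4 → K :=
  Vd d γ (qrow x 2) (qrow x 3) (Vd d γ (qrow x 0) (qrow x 1) v₀ u₀)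
    (Ud d γ (qrow x 0) (qrow x 1) v₀ u₀)

/-- `u` -/
def pU (d : Fin 4 → K) (γ : K) (v₀ u₀ : Fin 4 → K) (x : Fin 5 × Fin 4 → K) : Fin 4 → K :=
  Ud d γ (qrow x 2) (qrow x 3) (Vd d γ (qrow x 0) (qrow x 1) v₀ u₀)
    (Ud d γ (qrow x 0) (qrow x 1) v₀ u₀)

/-- `s` -/
def pS (d : Fin 4 → K) (γ : K) (v₀ u₀ : Fin 4 → K) (x : Fin 5 × Fin 4 → K) : Fin 4 → K :=
  fun j => qrow x 4 j - Bd d (qrow x 4) (pU d γ v₀ u₀ x) /
      Bd d (pU d γ v₀ u₀ x) (pU d γ v₀ u₀ x) * pU d γ v₀ u₀ x j -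
    Bd d (qrow x 4) (pV d γ v₀ u₀ x) / Bd d (pV d γ v₀ u₀ x) (pV d γ v₀ u₀ x) * pV d γ v₀ u₀ x j

/-- the polynomial -/
def pG (c : K) (d : Fin 4 → K) (v₀ u₀ : Fin 4 → K) (x : Fin 5 × Fin 4 → K) : Fin (1 + 1) → K :=
  ![(Bd d (pS d (2 / c) v₀ u₀ x) (pS d (2 / c) v₀ u₀ x) / 2) ^ 2 *
      Bd d (pU d (2 / c) v₀ u₀ x) (pU d (2 / c) v₀ u₀ x) / (2 * c),
    Bd d (pS d (2 / c) v₀ u₀ x) (pS d (2 / c) v₀ u₀ x) / 2]

/-- the conditions -/
def pOk (d : Fin 4 → K) (γ : K) (v₀ u₀ : Fin 4 → K) (x : Fin 5 × Fin 4 → K) : Prop :=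
  Dd d γ (qrow x 0) (qrow x 1) ≠ 0 ∧ Dd d γ (qrow x 2) (qrow x 3) ≠ 0 ∧
    Bd d (pU d γ v₀ u₀ x) (pU d γ v₀ u₀ x) ≠ 0 ∧
    Bd d (pV d γ v₀ u₀ x) (pV d γ v₀ u₀ x) ≠ 0 ∧ Bd d (pS d γ v₀ u₀ x) (pS d γ v₀ u₀ x) ≠ 0

theorem pG_good (h2 : (2 : K) ≠ 0) {c : K} (hc : c ≠ 0) {d : Fin 4 → K} (hd : ∀ i, d i ≠ 0) {δ : K}
    (hδ : d 0 * d 1 * d 2 * d 3 = 2 * c * δ ^ 2) {v₀ u₀ : Fin 4 → K}
    (b1 : Bd d v₀ v₀ + 2 / c * Bd d u₀ u₀ = 1) (b2 : Bd d u₀ v₀ = 0) {x : Fin 5 × Fin 4 → K}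
    (hx : pOk d (2 / c) v₀ u₀ x) :
    (hk (pG c d v₀ u₀ x)).det ≠ 0 ∧ pG c d v₀ u₀ x 0 ≠ 0 ∧
      coreF c 1 (pG c d v₀ u₀ x) = cl 2 + cl 1 + ∑ i, cl (d i) := by
  obtain ⟨h1, h2', h3, h4, h5⟩ := hx
  obtain ⟨γ, hγ⟩ : ∃ γ, γ = 2 / c := ⟨_, rfl⟩
  rw [← hγ] at b1 h1 h2' h3 h4 h5
  have e1 : Bd d (pV d γ v₀ u₀ x) (pV d γ v₀ u₀ x) +
      γ * Bd d (pU d γ v₀ u₀ x) (pU d γ v₀ u₀ x) = 1 := by
    unfold pV pU
    rw [Q2_one h2', Q2_one h1]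
    exact b1
  have e2 : Bd d (pU d γ v₀ u₀ x) (pV d γ v₀ u₀ x) = 0 := by
    unfold pV pU
    rw [Q2_two h2 h2', Q2_two h2 h1]
    exact b2
  obtain ⟨U, hU⟩ : ∃ U, U = pU d γ v₀ u₀ x := ⟨_, rfl⟩
  obtain ⟨V, hV⟩ : ∃ V, V = pV d γ v₀ u₀ x := ⟨_, rfl⟩
  have hs : ∀ y : Fin 4 → K, Bd d y (pS d γ v₀ u₀ x) = Bd d y (qrow x 4) -
      Bd d (qrow x 4) U / Bd d U U * Bd d y U -
      Bd d (qrow x 4) V / Bd d V V * Bd d y V := by
    intro y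
    obtain ⟨a, ha⟩ : ∃ a, a = Bd d (qrow x 4) U / Bd d U U := ⟨_, rfl⟩
    obtain ⟨b, hb⟩ : ∃ b, b = Bd d (qrow x 4) V / Bd d V V := ⟨_, rfl⟩
    have e : pS d γ v₀ u₀ x = fun j => qrow x 4 j - a * U j - b * V j := by
      rw [ha, hb, hU, hV]; rfl
    rw [← ha, ← hb, e]
    simp only [Bd]
    ring
  rw [← hU, ← hV] at e1 e2
  rw [← hU] at h3
  rw [← hV] at h4
  have e3 : Bd d U (pS d γ v₀ u₀ x) = 0 := by
    rw [hs, e2, div_mul_cancel₀ _ h3, Bd_comm d U (qrow x 4)]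
    ring
  have e4 : Bd d V (pS d γ v₀ u₀ x) = 0 := by
    rw [hs, Bd_comm d V U, e2, div_mul_cancel₀ _ h4, Bd_comm d V (qrow x 4)]
    ring
  rw [hγ] at e1 e3 e4 h5 hU
  exact Q1_fwd h2 hc hd hδ e2 e3 e4 e1 h3 h4 h5 (pG c d v₀ u₀ x) rfl (by rw [hU]; rfl)

end maps

section nat
variable {K : Type*} [Field K] {L : Type*} [Field L] (φ : K →+* L)

theorem Bd_map (d x y : Fin 4 → K) :
    φ (Bd d x y) = Bd (fun i => φ (d i)) (fun i => φ (x i)) fun i => φ (y i) := by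
  simp [Bd]

theorem Nd_map (d : Fin 4 → K) (γ : K) (x y : Fin 4 → K) :
    φ (Nd d γ x y) = Nd (fun i => φ (d i)) (φ γ) (fun i => φ (x i)) fun i => φ (y i) := by
  simp [Nd, Bd_map]

theorem Md_map (d x y : Fin 4 → K) :
    φ (Md d x y) = Md (fun i => φ (d i)) (fun i => φ (x i)) fun i => φ (y i) := by
  simp [Md, Bd_map, two_map' φ]

theorem Dd_map (d : Fin 4 → K) (γ : K) (x y : Fin 4 → K) :
    φ (Dd d γ x y) = Dd (fun i => φ (d i)) (φ γ) (fun i => φ (x i)) fun i => φ (y i) := by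
  simp [Dd, Nd_map, Md_map]

theorem L1d_map (d : Fin 4 → K) (γ : K) (n m v u : Fin 4 → K) : φ (L1d d γ n m v u) =
    L1d (fun i => φ (d i)) (φ γ) (fun i => φ (n i)) (fun i => φ (m i)) (fun i => φ (v i))
      fun i => φ (u i) := by
  simp [L1d, Dd_map, Nd_map, Md_map, Bd_map, two_map' φ]

theorem L2d_map (d : Fin 4 → K) (γ : K) (n m v u : Fin 4 → K) : φ (L2d d γ n m v u) =
    L2d (fun i => φ (d i)) (φ γ) (fun i => φ (n i)) (fun i => φ (m i)) (fun i => φ (v i))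
      fun i => φ (u i) := by
  simp [L2d, Dd_map, Nd_map, Md_map, Bd_map, two_map' φ]

theorem Vd_map (d : Fin 4 → K) (γ : K) (n m v u : Fin 4 → K) : (fun i => φ (Vd d γ n m v u i)) =
    Vd (fun i => φ (d i)) (φ γ) (fun i => φ (n i)) (fun i => φ (m i)) (fun i => φ (v i))
      fun i => φ (u i) := by
  funext i
  simp [Vd, L1d_map, L2d_map]

theorem Ud_map (d : Fin 4 → K) (γ : K) (n m v u : Fin 4 → K) : (fun i => φ (Ud d γ n m v u i)) =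
    Ud (fun i => φ (d i)) (φ γ) (fun i => φ (n i)) (fun i => φ (m i)) (fun i => φ (v i))
      fun i => φ (u i) := by
  funext i
  simp [Ud, L1d_map, L2d_map]

theorem pV_map (d : Fin 4 → K) (γ : K) (v₀ u₀ : Fin 4 → K) (x : Fin 5 × Fin 4 → K) :
    (fun i => φ (pV d γ v₀ u₀ x i)) =
      pV (fun i => φ (d i)) (φ γ) (fun i => φ (v₀ i)) (fun i => φ (u₀ i)) fun p => φ (x p) := by
  unfold pV
  rw [Vd_map, Vd_map, Ud_map]
  rfl

theorem pU_map (d : Fin 4 → K) (γ : K) (v₀ u₀ : Fin 4 → K) (x : Fin 5 × Fin 4 → K) :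
    (fun i => φ (pU d γ v₀ u₀ x i)) =
      pU (fun i => φ (d i)) (φ γ) (fun i => φ (v₀ i)) (fun i => φ (u₀ i)) fun p => φ (x p) := by
  unfold pU
  rw [Ud_map, Vd_map, Ud_map]
  rfl

theorem pS_map (d : Fin 4 → K) (γ : K) (v₀ u₀ : Fin 4 → K) (x : Fin 5 × Fin 4 → K) :
    (fun i => φ (pS d γ v₀ u₀ x i)) =
      pS (fun i => φ (d i)) (φ γ) (fun i => φ (v₀ i)) (fun i => φ (u₀ i)) fun p => φ (x p) := by
  funext i
  have h1 := pU_map φ d γ v₀ u₀ x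
  have h2 := pV_map φ d γ v₀ u₀ x
  have h3 := congrFun h1 i
  have h4 := congrFun h2 i
  simp only [pS, map_sub, map_mul, map_div₀, Bd_map, h1, h2, h3, h4]
  rfl

theorem pG_map (c : K) (d v₀ u₀ : Fin 4 → K) (x : Fin 5 × Fin 4 → K) :
    (fun i => φ (pG c d v₀ u₀ x i)) =
      pG (φ c) (fun i => φ (d i)) (fun i => φ (v₀ i)) (fun i => φ (u₀ i)) fun p => φ (x p) := by
  have hγ : φ (2 / c) = 2 / φ c := by rw [map_div₀, two_map' φ]
  have h1 := pU_map φ d (2 / c) v₀ u₀ x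
  have h3 := pS_map φ d (2 / c) v₀ u₀ x
  rw [hγ] at h1 h3
  funext i
  fin_cases i
  · show φ ((Bd d (pS d (2 / c) v₀ u₀ x) (pS d (2 / c) v₀ u₀ x) / 2) ^ 2 *
      Bd d (pU d (2 / c) v₀ u₀ x) (pU d (2 / c) v₀ u₀ x) / (2 * c)) = _
    rw [map_div₀, map_mul, map_pow, map_div₀, Bd_map, Bd_map, h1, h3, map_mul, two_map' φ]
    rfl
  · show φ (Bd d (pS d (2 / c) v₀ u₀ x) (pS d (2 / c) v₀ u₀ x) / 2) = _
    rw [map_div₀, Bd_map, h3, two_map' φ]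
    rfl

theorem pOk_map {d : Fin 4 → K} {γ : K} {v₀ u₀ : Fin 4 → K} {x : Fin 5 × Fin 4 → K}
    (h : pOk (fun i => φ (d i)) (φ γ) (fun i => φ (v₀ i)) (fun i => φ (u₀ i)) fun p => φ (x p)) :
    pOk d γ v₀ u₀ x := by
  obtain ⟨h1, h2, h3, h4, h5⟩ := h
  refine ⟨fun h => h1 ?_, fun h => h2 ?_, fun h => h3 ?_, fun h => h4 ?_, fun h => h5 ?_⟩
  · have e := Dd_map φ d γ (qrow x 0) (qrow x 1)
    rw [h, map_zero] at e
    exact e.symm
  · have e := Dd_map φ d γ (qrow x 2) (qrow x 3)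
    rw [h, map_zero] at e
    exact e.symm
  · rw [← pU_map, ← Bd_map, h, map_zero]
  · rw [← pV_map, ← Bd_map, h, map_zero]
  · rw [← pS_map, ← Bd_map, h, map_zero]

end nat

section cont
variable {K : Type*} [NontriviallyNormedField K] {X : Type*} [TopologicalSpace X] {p : X}

theorem Bd_cont (d : Fin 4 → K) {a b : X → Fin 4 → K} (ha : ContinuousAt a p)
    (hb : ContinuousAt b p) : ContinuousAt (fun y => Bd d (a y) (b y)) p := by
  have h1 := fun i => (continuousAt_pi.1 ha) i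
  have h2 := fun i => (continuousAt_pi.1 hb) i
  unfold Bd
  have a0 := h1 0
  have a1 := h1 1
  have a2 := h1 2
  have a3 := h1 3
  have b0 := h2 0
  have b1 := h2 1
  have b2 := h2 2
  have b3 := h2 3
  fun_prop

theorem Nd_cont (d : Fin 4 → K) (γ : K) {a b : X → Fin 4 → K} (ha : ContinuousAt a p)
    (hb : ContinuousAt b p) : ContinuousAt (fun y => Nd d γ (a y) (b y)) p := by
  have h1 := Bd_cont d ha ha
  have h2 := Bd_cont d hb hb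
  unfold Nd
  fun_prop

theorem Md_cont (d : Fin 4 → K) {a b : X → Fin 4 → K} (ha : ContinuousAt a p)
    (hb : ContinuousAt b p) : ContinuousAt (fun y => Md d (a y) (b y)) p := by
  have h1 := Bd_cont d ha hb
  unfold Md
  fun_prop

theorem Dd_cont (d : Fin 4 → K) (γ : K) {a b : X → Fin 4 → K} (ha : ContinuousAt a p)
    (hb : ContinuousAt b p) : ContinuousAt (fun y => Dd d γ (a y) (b y)) p := by
  have h1 := Nd_cont d γ ha hb
  have h2 := Md_cont d ha hb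
  unfold Dd
  fun_prop

theorem Ld_cont (d : Fin 4 → K) (γ : K) {n m v u : X → Fin 4 → K} (hn : ContinuousAt n p)
    (hm : ContinuousAt m p) (hv : ContinuousAt v p) (hu : ContinuousAt u p)
    (hD : Dd d γ (n p) (m p) ≠ 0) :
    ContinuousAt (fun y => L1d d γ (n y) (m y) (v y) (u y)) p ∧
    ContinuousAt (fun y => L2d d γ (n y) (m y) (v y) (u y)) p := by
  have h1 := Nd_cont d γ hn hm
  have h2 := Md_cont d hn hm
  have h3 := Dd_cont d γ hn hm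
  have h4 := Bd_cont d hv hn
  have h5 := Bd_cont d hu hm
  have h6 := Bd_cont d hv hm
  have h7 := Bd_cont d hu hn
  constructor
  · unfold L1d
    exact ContinuousAt.div (by fun_prop) h3 hD
  · unfold L2d
    exact ContinuousAt.div (by fun_prop) h3 hD

theorem Rd_cont (d : Fin 4 → K) (γ : K) {n m v u : X → Fin 4 → K} (hn : ContinuousAt n p)
    (hm : ContinuousAt m p) (hv : ContinuousAt v p) (hu : ContinuousAt u p)
    (hD : Dd d γ (n p) (m p) ≠ 0) :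
    ContinuousAt (fun y => Vd d γ (n y) (m y) (v y) (u y)) p ∧
    ContinuousAt (fun y => Ud d γ (n y) (m y) (v y) (u y)) p := by
  obtain ⟨h1, h2⟩ := Ld_cont d γ hn hm hv hu hD
  constructor
  · rw [continuousAt_pi]
    intro i
    have a1 := continuousAt_pi.1 hn i
    have a2 := continuousAt_pi.1 hm i
    have a3 := continuousAt_pi.1 hv i
    unfold Vd
    fun_prop
  · rw [continuousAt_pi]
    intro i
    have a1 := continuousAt_pi.1 hn i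
    have a2 := continuousAt_pi.1 hm i
    have a3 := continuousAt_pi.1 hu i
    unfold Ud
    fun_prop

variable {d : Fin 4 → K} {γ : K} {v₀ u₀ : Fin 4 → K} {x : Fin 5 × Fin 4 → K}

theorem pVU_cont (hx : pOk d γ v₀ u₀ x) :
    ContinuousAt (fun y : Fin 5 × Fin 4 → K => pV d γ v₀ u₀ y) x ∧
    ContinuousAt (fun y : Fin 5 × Fin 4 → K => pU d γ v₀ u₀ y) x := by
  have h := Rd_cont d γ (qrow_cont 0 x) (qrow_cont 1 x) (continuousAt_const (y := v₀))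
    (continuousAt_const (y := u₀)) hx.1
  exact Rd_cont d γ (qrow_cont 2 x) (qrow_cont 3 x) h.1 h.2 hx.2.1

theorem pS_cont (hx : pOk d γ v₀ u₀ x) :
    ContinuousAt (fun y : Fin 5 × Fin 4 → K => pS d γ v₀ u₀ y) x := by
  obtain ⟨hV, hU⟩ := pVU_cont hx
  rw [continuousAt_pi]
  intro j
  have h1 := continuousAt_pi.1 (qrow_cont 4 x) j
  have h2 := continuousAt_pi.1 hV j
  have h3 := continuousAt_pi.1 hU j
  have h4 := (Bd_cont d (qrow_cont 4 x) hU).div (Bd_cont d hU hU) hx.2.2.1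
  have h5 := (Bd_cont d (qrow_cont 4 x) hV).div (Bd_cont d hV hV) hx.2.2.2.1
  unfold pS
  exact (h1.sub (h4.mul h3)).sub (h5.mul h2)

theorem pG_cont {c : K} (hx : pOk d (2 / c) v₀ u₀ x) :
    ContinuousAt (fun y : Fin 5 × Fin 4 → K => pG c d v₀ u₀ y) x := by
  obtain ⟨hV, hU⟩ := pVU_cont hx
  have hS := pS_cont hx
  have h1 := Bd_cont d hS hS
  have h2 := Bd_cont d hU hU
  rw [continuousAt_pi]
  intro j
  fin_cases j
  · show ContinuousAt (fun y : Fin 5 × Fin 4 → K =>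
      (Bd d (pS d (2 / c) v₀ u₀ y) (pS d (2 / c) v₀ u₀ y) / 2) ^ 2 *
        Bd d (pU d (2 / c) v₀ u₀ y) (pU d (2 / c) v₀ u₀ y) / (2 * c)) x
    fun_prop
  · show ContinuousAt (fun y : Fin 5 × Fin 4 → K =>
      Bd d (pS d (2 / c) v₀ u₀ y) (pS d (2 / c) v₀ u₀ y) / 2) x
    fun_prop

theorem pOk_nhds (hx : pOk d γ v₀ u₀ x) : ∀ᶠ y in 𝓝 x, pOk d γ v₀ u₀ y := by
  obtain ⟨hV, hU⟩ := pVU_cont hx
  have hS := pS_cont hx
  exact ((Dd_cont d γ (qrow_cont 0 x) (qrow_cont 1 x)).eventually_ne hx.1).and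
    (((Dd_cont d γ (qrow_cont 2 x) (qrow_cont 3 x)).eventually_ne hx.2.1).and
    (((Bd_cont d hU hU).eventually_ne hx.2.2.1).and
    (((Bd_cont d hV hV).eventually_ne hx.2.2.2.1).and
    ((Bd_cont d hS hS).eventually_ne hx.2.2.2.2))))

end cont

section loc
variable {K : Type*} [NontriviallyNormedField K] [CharZero K]

theorem pparam {c : K} (hc : c ≠ 0) {d : Fin 4 → K} (hd : ∀ i, d i ≠ 0) {v₀ u₀ w : Fin 4 → K}
    (b1 : Bd d v₀ v₀ + 2 / c * Bd d u₀ u₀ = 1) (b2 : Bd d u₀ v₀ = 0) (b3 : Bd d w v₀ = 0)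
    (b4 : Bd d w u₀ = 0) (b5 : Bd d w w ≠ 0) (a : Fin (1 + 1) → K) (h0 : a 0 ≠ 0) (h1 : a 1 ≠ 0)
    (hΔ : a 1 ^ 2 - 4 * a 0 ≠ 0) (hcl : coreF c 1 a = cl 2 + cl 1 + ∑ i, cl (d i)) :
    ∃ x : Fin 5 × Fin 4 → K, pOk d (2 / c) v₀ u₀ x ∧ pG c d v₀ u₀ x = a := by
  obtain ⟨u, v, s, huv, hus, hvs, h1', hu, hv, hs, ha1, ha0⟩ :=
    Q1_bwd two_ne_zero hc hd a h0 h1 hΔ hcl
  obtain ⟨n, m, n', m', hD, hD', hV, hU⟩ := Q2_loc b1 b2 b3 b4 b5 (v := v) (u := u) h1' huv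
  obtain ⟨x, hx⟩ : ∃ x : Fin 5 × Fin 4 → K, x = fun p => (![n, m, n', m', s] : Fin 5 → Fin 4 → K)
      p.1 p.2 := ⟨_, rfl⟩
  have r0 : qrow x 0 = n := by rw [hx]; rfl
  have r1 : qrow x 1 = m := by rw [hx]; rfl
  have r2 : qrow x 2 = n' := by rw [hx]; rfl
  have r3 : qrow x 3 = m' := by rw [hx]; rfl
  have r4 : qrow x 4 = s := by rw [hx]; rfl
  have eV : pV d (2 / c) v₀ u₀ x = v := by
    unfold pV
    rw [r0, r1, r2, r3]
    exact hV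
  have eU : pU d (2 / c) v₀ u₀ x = u := by
    unfold pU
    rw [r0, r1, r2, r3]
    exact hU
  have eS : pS d (2 / c) v₀ u₀ x = s := by
    unfold pS
    rw [r4, eU, eV, Bd_comm d s u, hus, Bd_comm d s v, hvs]
    funext j
    simp
  refine ⟨x, ⟨?_, ?_, ?_, ?_, ?_⟩, ?_⟩
  · rw [r0, r1]; exact hD
  · rw [r2, r3]; exact hD'
  · rw [eU]; exact hu
  · rw [eV]; exact hv
  · rw [eS]; exact hs
  · unfold pG
    rw [eS, eU]
    funext i
    fin_cases i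
    · exact ha0.symm
    · exact ha1.symm

theorem ploc [CompleteSpace K] {c : K} (hc : c ≠ 0) {d : Fin 4 → K} (hd : ∀ i, d i ≠ 0)
    {v₀ u₀ w : Fin 4 → K}
    (b1 : Bd d v₀ v₀ + 2 / c * Bd d u₀ u₀ = 1) (b2 : Bd d u₀ v₀ = 0) (b3 : Bd d w v₀ = 0)
    (b4 : Bd d w u₀ = 0) (b5 : Bd d w w ≠ 0) (g : Fin (1 + 1) → K) (hgd : (hk g).det ≠ 0)
    (h0 : g 0 ≠ 0) (hcl : coreF c 1 g = cl 2 + cl 1 + ∑ i, cl (d i)) {U : Set (Fin (1 + 1) → K)}
    (hU : U ∈ 𝓝 g) :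
    ∃ x : Fin 5 × Fin 4 → K, pOk d (2 / c) v₀ u₀ x ∧ pG c d v₀ u₀ x ∈ interior U := by
  have t2 : (2 : K) ≠ 0 := two_ne_zero
  have e0 : ∀ a : Fin (1 + 1) → K, cf a 0 = a 0 := fun a => rfl
  have h1 := q_nhds g hgd (by rw [e0]; exact h0)
  have h7 : ∀ᶠ a in 𝓝 g, cl (2 * c * cf a 0) = cl (2 * c * cf g 0) := by
    have hcont : Continuous fun a : Fin (1 + 1) → K => 2 * c * cf a 0 := by
      simp only [e0]
      exact continuous_const.mul (continuous_apply 0)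
    exact hcont.continuousAt.eventually
      (cl_nhds t2 (mul_ne_zero (mul_ne_zero t2 hc) (by rw [e0]; exact h0)))
  have h8 : ∀ᶠ a in 𝓝 g, (hk a).det ≠ 0 ∧ a 0 ≠ 0 ∧
      coreF c 1 a = cl 2 + cl 1 + ∑ i, cl (d i) ∧ a ∈ interior U := by
    filter_upwards [h1, h7, interior_mem_nhds.2 hU] with a ha hb hcU
    refine ⟨ha.1, ha.2.1, ?_, hcU⟩
    rw [← hcl]
    unfold coreF
    rw [hb, mul_one (-2 : K), ha.2.2.1, ha.2.2.2]
  -- perturb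
  obtain ⟨a, ha, ha1⟩ : ∃ a : Fin (1 + 1) → K, ((hk a).det ≠ 0 ∧ a 0 ≠ 0 ∧
      coreF c 1 a = cl 2 + cl 1 + ∑ i, cl (d i) ∧ a ∈ interior U) ∧ a 1 ≠ 0 := by
    by_cases hg1 : g 1 = 0
    · have ht : Filter.Tendsto (fun t : K => Function.update g 1 t) (𝓝[≠] 0) (𝓝 g) := by
        have hcont : Continuous fun t : K => Function.update g 1 t :=
          continuous_const.update 1 continuous_id
        have h := hcont.tendsto 0
        have e : Function.update g 1 (0 : K) = g := by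
          rw [← hg1, Function.update_eq_self]
        rw [e] at h
        exact h.mono_left nhdsWithin_le_nhds
      have h9 := (ht.eventually h8).and self_mem_nhdsWithin
      obtain ⟨t, ht1, ht2⟩ := h9.exists
      refine ⟨_, ht1, ?_⟩
      rw [Function.update_self]
      exact ht2
    · exact ⟨g, h8.self_of_nhds, hg1⟩
  obtain ⟨hda, ha0, hca, haU⟩ := ha
  rw [Qa_hk] at hda
  obtain ⟨x, hx, hxa⟩ := pparam hc hd b1 b2 b3 b4 b5 a ha0 ha1 hda hca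
  exact ⟨x, hx, by rw [hxa]; exact haU⟩

end loc

end NF83
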