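import Pool.Agent.H.MP_83e36b_nt.nf.Base
import Pool.Agent.H.MP_83e36b_nt.rf.Q3

/-! The core of the second duality for polynomials of degree two, general case. -/

set_option autoImplicit false

open Topology Matrix Polynomial SpinWA

namespace NF83

/-- a point which allows to parametrise the polynomials `a` of degree two with `coreF c 1 a = R` -/
def HasBase {K : Type*} [Field K] (c : K) (R : WG K) : Prop :=
  ∃ (d : Fin 4 → K) (δ : K) (v₀ u₀ w : Fin 4 → K), (∀ i, d i ≠ 0) ∧
    d 0 * d 1 * d 2 * d 3 = 2 * c * δ ^ 2 ∧ R = cl 2 + cl 1 + ∑ i, cl (d i) ∧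
    Bd d v₀ v₀ + 2 / c * Bd d u₀ u₀ = 1 ∧ Bd d u₀ v₀ = 0 ∧ Bd d w v₀ = 0 ∧ Bd d w u₀ = 0 ∧
    Bd d w w ≠ 0

theorem hasBase_of {K : Type*} [Field K] (h2 : (2 : K) ≠ 0) {c : K} (hc : c ≠ 0)
    (a : Fin (1 + 1) → K) (hd : (hk a).det ≠ 0) (h0 : a 0 ≠ 0) : HasBase c (coreF c 1 a) := by
  have h4 : (4 : K) ≠ 0 := by
    have : (4 : K) = 2 * 2 := by norm_num
    rw [this]
    exact mul_ne_zero h2 h2
  rw [Qa_hk] at hd
  by_cases h1 : a 1 = 0
  · have hdd : ∀ i, (![1, -1, 2 * c * a 0, - (4 * a 0)] : Fin 4 → K) i ≠ 0 := by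
      intro i
      fin_cases i
      · exact one_ne_zero
      · exact neg_ne_zero.2 one_ne_zero
      · exact mul_ne_zero (mul_ne_zero h2 hc) h0
      · exact neg_ne_zero.2 (mul_ne_zero h4 h0)
    refine ⟨![1, -1, 2 * c * a 0, - (4 * a 0)], 2 * a 0, ![1, 0, 0, 0], 0, ![0, 1, 0, 0], hdd, ?_, ?_,
      ?_, ?_, ?_, ?_, ?_⟩
    · simp only [Matrix.cons_val_zero, Matrix.cons_val_one, Matrix.cons_val]
      ring
    · unfold coreF
      have e : cf a 0 = a 0 := rfl
      have e1 : cls ((-2 * 1 : K) • hk1 a) = cl 1 + cl (-1) := by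
        have h5 := cls_eq_sum h2 (A := (-2 * 1 : K) • hk1 a) (d := (![1, -1] : Fin 2 → K))
          (by
            intro i
            fin_cases i
            · exact one_ne_zero
            · exact neg_ne_zero.2 one_ne_zero) ?_
        · rw [h5, Fin.sum_univ_two]
          rfl
        · refine ⟨!![1, 1; 1 / (8 * a 0), - (1 / (8 * a 0))], ?_, ?_⟩
          · rw [Matrix.det_fin_two]
            simp only [Matrix.cons_val_zero, Matrix.cons_val_one, Matrix.of_apply,
              Matrix.cons_val', Matrix.cons_val_fin_one]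
            have h8 : (8 : K) ≠ 0 := by
              have : (8 : K) = 2 * 4 := by norm_num
              rw [this]
              exact mul_ne_zero h2 h4
            have e : (1 : K) * -(1 / (8 * a 0)) - 1 * (1 / (8 * a 0)) = - (1 / (4 * a 0)) := by
              field_simp
              ring
            rw [e]
            exact neg_ne_zero.2 (one_div_ne_zero (mul_ne_zero h4 h0))
          · have e00 : hk1 a 0 0 = psum a 1 := rfl
            have e01 : hk1 a 0 1 = psum a 2 := rfl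
            have e10 : hk1 a 1 0 = psum a 2 := rfl
            have e11 : hk1 a 1 1 = psum a 3 := rfl
            have h8 : (8 : K) ≠ 0 := by
              have : (8 : K) = 2 * 4 := by norm_num
              rw [this]
              exact mul_ne_zero h2 h4
            ext i j
            fin_cases i <;> fin_cases j <;>
              simp [Matrix.mul_apply, Fin.sum_univ_two, e00, e01, e10, e11, Qa_p1, Qa_p2, Qa_p3, h1]
            all_goals try field_simp
            all_goals try ring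
      rw [e, e1, Qa_cls h2 a hd, h1, Fin.sum_univ_four]
      have e2 : (0 : K) ^ 2 - 4 * a 0 = - (4 * a 0) := by ring
      rw [e2]
      simp only [Matrix.cons_val_zero, Matrix.cons_val_one, Matrix.cons_val]
      abel
    · simp [Bd]
    · simp [Bd]
    · simp [Bd]
    · simp [Bd]
    · simp [Bd]
  · have hX : 2 * a 1 * a 0 * (a 1 ^ 2 - 4 * a 0) ≠ 0 :=
      mul_ne_zero (mul_ne_zero (mul_ne_zero h2 h1) h0) hd
    have hdd : ∀ i, (![2 * c * a 0, a 1 ^ 2 - 4 * a 0, 2 * a 1,
        2 * a 1 * a 0 * (a 1 ^ 2 - 4 * a 0)] : Fin 4 → K) i ≠ 0 := by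
      intro i
      fin_cases i
      · exact mul_ne_zero (mul_ne_zero h2 hc) h0
      · exact hd
      · exact mul_ne_zero h2 h1
      · exact hX
    refine ⟨![2 * c * a 0, a 1 ^ 2 - 4 * a 0, 2 * a 1, 2 * a 1 * a 0 * (a 1 ^ 2 - 4 * a 0)],
      2 * a 1 * a 0 * (a 1 ^ 2 - 4 * a 0), ![0, (a 1)⁻¹, 0, 0], ![(a 1)⁻¹, 0, 0, 0], ![0, 0, 1, 0],
      hdd, ?_, ?_, ?_, ?_, ?_, ?_, ?_⟩
    · simp only [Matrix.cons_val_zero, Matrix.cons_val_one, Matrix.cons_val]
      ring
    · rw [Q1_core h2 c a h0 h1 hd, Fin.sum_univ_four]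
      simp only [Matrix.cons_val_zero, Matrix.cons_val_one, Matrix.cons_val]
      abel
    · simp only [Bd, Matrix.cons_val_zero, Matrix.cons_val_one, Matrix.cons_val]
      field_simp
      ring
    · simp [Bd]
    · simp [Bd]
    · simp [Bd]
    · simp [Bd, h2, h1]

variable {kk : Type} [Field kk] [CharZero kk] [PlSys kk]

theorem core2R {c : kk} (hc : c ≠ 0) {R : WG kk} (hR : HasBase c R) (S : Finset (Pk kk))
    (hS : p0 kk ∈ S) (g : ∀ v : Pk kk, Fin (1 + 1) → Cp v)
    (hgd : ∀ v ∈ S, (hk (g v)).det ≠ 0) (hg0 : ∀ v ∈ S, g v 0 ≠ 0)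
    (hcl : ∀ v ∈ S, coreF (em v c) 1 (g v) = WG.map (em v) R)
    (U : ∀ v : Pk kk, Set (Fin (1 + 1) → Cp v)) (hU : ∀ v ∈ S, U v ∈ 𝓝 (g v)) :
    ∃ G : Fin (1 + 1) → kk, (hk G).det ≠ 0 ∧ G 0 ≠ 0 ∧ coreF c 1 G = R ∧
      ∀ v ∈ S, (fun i => em v (G i)) ∈ U v := by
  classical
  obtain ⟨d, δ, v₀, u₀, w, hd, hδ, hRd, b1, b2, b3, b4, b5⟩ := hR
  have hγ : ∀ v : Pk kk, em v (2 / c) = 2 / em v c := fun v => by
    rw [map_div₀, two_map' (em v)]
  have hx : ∀ v : Pk kk, ∃ x : Fin 5 × Fin 4 → Cp v, v ∈ S →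
      (pOk (fun i => em v (d i)) (2 / em v c) (fun i => em v (v₀ i)) (fun i => em v (u₀ i)) x ∧
        pG (em v c) (fun i => em v (d i)) (fun i => em v (v₀ i)) (fun i => em v (u₀ i)) x ∈
          interior (U v)) := by
    intro v
    by_cases hv : v ∈ S
    · have h1 := ploc (K := Cp v) (c := em v c) ((map_ne_zero (em v)).2 hc)
        (d := fun i => em v (d i)) (fun i => (map_ne_zero (em v)).2 (hd i))
        (v₀ := fun i => em v (v₀ i)) (u₀ := fun i => em v (u₀ i)) (w := fun i => em v (w i))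
        (by rw [← Bd_map, ← Bd_map, ← hγ, ← map_mul, ← map_add, b1, map_one])
        (by rw [← Bd_map, b2, map_zero]) (by rw [← Bd_map, b3, map_zero])
        (by rw [← Bd_map, b4, map_zero]) (by rw [← Bd_map]; exact (map_ne_zero (em v)).2 b5)
        (g v) (hgd v hv) (hg0 v hv) (by
          rw [hcl v hv, hRd, map_add, map_add, map_sum, WG.map_cl, WG.map_cl, map_one,
            two_map' (em v)]
          congr 1
          exact Finset.sum_congr rfl fun i _ => WG.map_cl _ _) (hU v hv)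
      obtain ⟨x, hx⟩ := h1
      exact ⟨x, fun _ => hx⟩
    · exact ⟨fun _ => 0, fun h => absurd h hv⟩
  choose x hx using hx
  obtain ⟨r, hr⟩ := wa_fun S x (fun v => {y | pOk (fun i => em v (d i)) (2 / em v c)
      (fun i => em v (v₀ i)) (fun i => em v (u₀ i)) y ∧
      pG (em v c) (fun i => em v (d i)) (fun i => em v (v₀ i)) (fun i => em v (u₀ i)) y ∈
        interior (U v)}) (fun v hv => by
    obtain ⟨h1, h2⟩ := hx v hv
    exact (pOk_nhds h1).and ((pG_cont h1).eventually (isOpen_interior.mem_nhds h2)))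
  have hok : pOk d (2 / c) v₀ u₀ r := by
    refine pOk_map (em (p0 kk)) ?_
    rw [hγ]
    exact (hr (p0 kk) hS).1
  obtain ⟨h1, h2, h3⟩ := pG_good (K := kk) two_ne_zero hc hd hδ b1 b2 hok
  refine ⟨pG c d v₀ u₀ r, h1, h2, h3.trans hRd.symm, fun v hv => ?_⟩
  rw [pG_map (em v) c d v₀ u₀ r]
  exact interior_subset (hr v hv).2

end NF83
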