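import Pool.Agent.H.MP_83e36b_nt.sp.CFwd
import Pool.Agent.H.MP_83e36b_nt.sp.CBwd

/-! The first duality is bijective: the polynomial `g` is recovered. -/

set_option autoImplicit false

open Matrix Polynomial SpinWA

namespace NF83

private theorem Dual1_comm {K : Type*} [Field K] [CharZero K] {m e : ℕ} (g : Fin m → K)
    (y : Fin (m + e) → K) (h : (hk (dbl e g)).det ≠ 0) :
    xop e g y * cmp (dbl e g) - cmp (dbl e g) * xop e g y =
      vecMulVec (e0 K (2 * m + e)) (fun j : Fin (2 * m + e) => psum (dbl e g) (j : ℕ)) - 1 := by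
  rw [← commutator_cmS (dbl e g) h]
  have h1 : (∑ l, y l • cmp (dbl e g) ^ (2 * (l : ℕ))) * cmp (dbl e g) =
      cmp (dbl e g) * ∑ l, y l • cmp (dbl e g) ^ (2 * (l : ℕ)) := by
    rw [Matrix.sum_mul, Matrix.mul_sum]
    refine Finset.sum_congr rfl fun l _ => ?_
    rw [Matrix.smul_mul, Matrix.mul_smul, ← pow_succ, ← pow_succ']
  unfold xop
  rw [Matrix.add_mul, Matrix.mul_add, h1, Matrix.neg_mul, Matrix.mul_neg]
  abel

private theorem Dual1_hk_pow {K : Type*} [Field K] {n : ℕ} (b : Fin n → K) (j : ℕ) :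
    (hk b * cmp b ^ j)ᵀ = hk b * cmp b ^ j := by
  have h1 : (cmp b)ᵀ * hk b = hk b * cmp b := by
    have h2 : (hk b * cmp b)ᵀ = hk b * cmp b := by rw [hk_mul_cmp, hk1_transpose]
    rwa [Matrix.transpose_mul, hk_transpose] at h2
  have h3 : ∀ k : ℕ, (cmp b ^ k)ᵀ * hk b = hk b * cmp b ^ k := by
    intro k
    rw [Matrix.transpose_pow]
    induction k with
    | zero => rw [pow_zero, pow_zero, Matrix.one_mul, Matrix.mul_one]
    | succ k ih => rw [pow_succ, Matrix.mul_assoc, h1, ← Matrix.mul_assoc, ih, Matrix.mul_assoc,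
        ← pow_succ]
  rw [Matrix.transpose_mul, hk_transpose, h3]

/-- Proof.  `D = dbl e g`, `C = cmp D`, `X = xop e g y`, `P = kryM X` (invertible), `b = cpc X`,
`X * P = P * cmp b` (`mul_kryM`), `Pᵀ * gamM D * P = hk b` (`bwd`), so `(hk b).det ≠ 0`.
Let `S' = P⁻¹ * C * P`.
(a) commutators: `X C - C X = vecMulVec (e0) (psum D ·) - 1` (`CBwd_comm` in sp/CBwd.lean, private: copy),
so `cmp b * S' - S' * cmp b = vecMulVec (P⁻¹ e0) ((psum D ·) ᵥ* P) - 1`; `P⁻¹ e0 = e0`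
(`kryM_mulVec_e0`); `((psum D ·) ᵥ* P) k = (psum D ·) ⬝ᵥ (X^k e0) = Tr (X^k) = psum b k`
(`trace_pow_identity`, `psum_cpc`, as in the proof of `bwd`).  `commutator_cmS b`: the commutator of
`cmp b` and `cmS b` is the same (note the order of the factors and signs: in `fwd`, `S = cmS a` satisfies
`S * R = R * cmp (dbl e g)`; the sign is that of `commutator_cmS`).  So `Z = S' - cmS b` commutes with
`cmp b`: `commute_cmp` : `Z = ∑ z_j (cmp b)^j`.
(b) symmetry: `gamM D * C` is antisymmetric: `(gamM D * C)ᵀ = - gamM D * C` (entries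
`(-1)^i psum D (i + j + 1)`, and `psum D k = 0` for odd `k`: cf. `gam_even_symm`, `CParA`, `CParB`), so
`hk b * S' = Pᵀ gamM D C P` is antisymmetric; `hk b * cmS b` is antisymmetric (see sp/CFwd.lean,
`CFwd_parity`, and the lemma used there); `hk b * (cmp b)^j` is symmetric.  So `hk b * Z` is symmetric and
antisymmetric, hence `0`, `Z = 0`.
(c) `cmS b = P⁻¹ C P`, so `cpc (cmS b) = cpc C = D` (`cpc_conj`, `cpc_cmp`). -/
theorem dual1 {K : Type*} [Field K] [CharZero K] {m e : ℕ} (he : e ≤ 1) (g : Fin m → K)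
    (y : Fin (m + e) → K) (h : (hk (dbl e g)).det ≠ 0) (hX : (kryM (xop e g y)).det ≠ 0) :
    cpc (cmS (cpc (xop e g y))) = dbl e g := by
  have hbwd := bwd he g y h hX
  have hcomm := Dual1_comm g y h
  have hanti := gam_cmp_antisymm he g
  have hmk := mul_kryM (xop e g y)
  have hw : ∀ k : ℕ, (fun j : Fin (2 * m + e) => psum (dbl e g) (j : ℕ)) ⬝ᵥ
      (xop e g y ^ k *ᵥ e0 K (2 * m + e)) = psum (cpc (xop e g y)) k := fun k => by
    rw [trace_pow_identity hcomm, psum_cpc hX]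
  have hcol : ∀ k : Fin (2 * m + e), (fun l => kryM (xop e g y) l k) =
      xop e g y ^ (k : ℕ) *ᵥ e0 K (2 * m + e) := fun k => rfl
  have hPe := kryM_mulVec_e0 (xop e g y)
  -- the determinant of `gamM`
  have hgdet : (gamM (dbl e g)).det ≠ 0 := by
    rw [gamM_eq, Matrix.det_mul]
    refine mul_ne_zero ?_ h
    intro h0
    have h1 := congrArg Matrix.det (sgM_mul_self (K := K) (2 * m + e))
    rw [Matrix.det_mul, h0, zero_mul, Matrix.det_one] at h1
    exact zero_ne_one h1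
  have hbdet : (hk (cpc (xop e g y))).det ≠ 0 := by
    rw [← hbwd, Matrix.det_mul, Matrix.det_mul, Matrix.det_transpose]
    exact mul_ne_zero (mul_ne_zero hX hgdet) hX
  generalize hXd : xop e g y = X at *
  generalize hPd : kryM X = P at *
  generalize hbd : cpc X = b at *
  have hPu : IsUnit P.det := isUnit_iff_ne_zero.mpr hX
  have hPP : P⁻¹ * P = 1 := Matrix.nonsing_inv_mul P hPu
  have hPP' : P * P⁻¹ = 1 := Matrix.mul_nonsing_inv P hPu
  have he0 : P⁻¹ *ᵥ e0 K (2 * m + e) = e0 K (2 * m + e) := by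
    calc P⁻¹ *ᵥ e0 K (2 * m + e) = P⁻¹ *ᵥ (P *ᵥ e0 K (2 * m + e)) := by rw [hPe]
      _ = e0 K (2 * m + e) := by rw [Matrix.mulVec_mulVec, hPP, Matrix.one_mulVec]
  have hwP : (fun j : Fin (2 * m + e) => psum (dbl e g) (j : ℕ)) ᵥ* P =
      fun j : Fin (2 * m + e) => psum b (j : ℕ) := by
    ext j
    rw [← hw j, ← hcol j]
    rfl
  have hb : P⁻¹ * X = cmp b * P⁻¹ := by
    calc P⁻¹ * X = P⁻¹ * (X * P) * P⁻¹ := by
          rw [Matrix.mul_assoc, Matrix.mul_assoc, hPP', Matrix.mul_one]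
      _ = P⁻¹ * (P * cmp b) * P⁻¹ := by rw [hmk]
      _ = cmp b * P⁻¹ := by rw [← Matrix.mul_assoc, hPP, Matrix.one_mul]
  have hc1 : cmp b * (P⁻¹ * cmp (dbl e g) * P) - (P⁻¹ * cmp (dbl e g) * P) * cmp b =
      vecMulVec (e0 K (2 * m + e)) (fun j : Fin (2 * m + e) => psum b (j : ℕ)) - 1 := by
    have h1 : cmp b * (P⁻¹ * cmp (dbl e g) * P) = P⁻¹ * (X * cmp (dbl e g)) * P := by
      rw [← Matrix.mul_assoc, ← Matrix.mul_assoc, ← hb]
      simp only [Matrix.mul_assoc]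
    have h2 : (P⁻¹ * cmp (dbl e g) * P) * cmp b = P⁻¹ * (cmp (dbl e g) * X) * P := by
      rw [Matrix.mul_assoc (P⁻¹ * cmp (dbl e g)), ← hmk]
      simp only [Matrix.mul_assoc]
    rw [h1, h2, ← Matrix.sub_mul, ← Matrix.mul_sub, hcomm, Matrix.mul_sub, Matrix.sub_mul,
      Matrix.mul_one, hPP, Matrix.mul_vecMulVec, Matrix.vecMulVec_mul, he0, hwP]
  have hM : (P⁻¹ * cmp (dbl e g) * P - cmS b) * cmp b =
      cmp b * (P⁻¹ * cmp (dbl e g) * P - cmS b) := by
    have h1 := commutator_cmS b hbdet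
    rw [← hc1] at h1
    rw [Matrix.sub_mul, Matrix.mul_sub]
    have h2 : cmp b * (P⁻¹ * cmp (dbl e g) * P) - cmp b * cmS b =
        (P⁻¹ * cmp (dbl e g) * P) * cmp b - cmS b * cmp b := by
      rw [sub_eq_sub_iff_add_eq_add] at h1 ⊢
      rw [← h1]
      abel
    exact h2.symm
  obtain ⟨z, hz⟩ := commute_cmp b hM
  -- symmetric
  have hsym : (hk b * (P⁻¹ * cmp (dbl e g) * P - cmS b))ᵀ =
      hk b * (P⁻¹ * cmp (dbl e g) * P - cmS b) := by
    rw [hz, Matrix.mul_sum, Matrix.transpose_sum]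
    refine Finset.sum_congr rfl fun k _ => ?_
    rw [Matrix.mul_smul, Matrix.transpose_smul, Dual1_hk_pow]
  -- antisymmetric
  have hS' : hk b * (P⁻¹ * cmp (dbl e g) * P) = Pᵀ * (gamM (dbl e g) * cmp (dbl e g)) * P := by
    rw [← hbwd]
    calc Pᵀ * gamM (dbl e g) * P * (P⁻¹ * cmp (dbl e g) * P)
        = Pᵀ * gamM (dbl e g) * (P * P⁻¹) * cmp (dbl e g) * P := by
          simp only [Matrix.mul_assoc]
      _ = _ := by rw [hPP', Matrix.mul_one]; simp only [Matrix.mul_assoc]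
  have hasym : (hk b * (P⁻¹ * cmp (dbl e g) * P - cmS b))ᵀ =
      - (hk b * (P⁻¹ * cmp (dbl e g) * P - cmS b)) := by
    rw [Matrix.mul_sub, Matrix.transpose_sub, hk_cmS_antisymm b hbdet, hS', Matrix.transpose_mul,
      Matrix.transpose_mul, hanti, Matrix.transpose_transpose, Matrix.neg_mul, Matrix.mul_neg,
      ← Matrix.mul_assoc Pᵀ]
    abel
  have h0 : hk b * (P⁻¹ * cmp (dbl e g) * P - cmS b) = 0 := by
    have h1 : hk b * (P⁻¹ * cmp (dbl e g) * P - cmS b) =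
        - (hk b * (P⁻¹ * cmp (dbl e g) * P - cmS b)) := by rw [← hasym, hsym]
    ext i j
    have h2 := congrFun (congrFun h1 i) j
    rw [Matrix.neg_apply] at h2
    exact self_eq_neg.mp h2
  have hZ : P⁻¹ * cmp (dbl e g) * P - cmS b = 0 := by
    have hu : IsUnit (hk b).det := isUnit_iff_ne_zero.mpr hbdet
    calc P⁻¹ * cmp (dbl e g) * P - cmS b
        = (hk b)⁻¹ * (hk b * (P⁻¹ * cmp (dbl e g) * P - cmS b)) := by
          rw [← Matrix.mul_assoc, Matrix.nonsing_inv_mul _ hu, Matrix.one_mul]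
      _ = 0 := by rw [h0, Matrix.mul_zero]
  have hfin : cmp (dbl e g) * P = P * cmS b := by
    rw [← sub_eq_zero.mp hZ, ← Matrix.mul_assoc, ← Matrix.mul_assoc, hPP', Matrix.one_mul]
  rw [← cpc_conj hX hfin, cpc_cmp]

end NF83
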