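import Pool.Agent.H.MP_83e36b_nt.td.SH90

/-! Hilbert's theorem 90 for semilinear representations, over another field. -/

set_option autoImplicit false

open Matrix

open DC83

namespace NF83

variable {kk : Type} [Field kk] [CharZero kk]

section

variable {K : Type} [Field K] {Ω : Type} [Field Ω] {G : Type} [Group G] [Fintype G] {d : ℕ}

/-- the twisting matrix with the parameters `p` -/
private noncomputable def H90LT (κ : K →+* Ω) (N : G → Matrix (Fin d) (Fin d) K) (n : ℕ) (x : G → Ω)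
    (p : ℕ → Ω) : Matrix (Fin d) (Fin d) Ω :=
  ∑ g, (∑ k ∈ Finset.range n, p k * x g ^ k) • κ.mapMatrix (N g)

/-- its determinant is a polynomial in `p` -/
private theorem H90L_poly (κ : K →+* Ω) (N : G → Matrix (Fin d) (Fin d) K) (n : ℕ) (x : G → Ω) :
    ∃ D : MvPolynomial ℕ Ω, ∀ p, MvPolynomial.eval p D = (H90LT κ N n x p).det := by
  refine ⟨(∑ g, (∑ k ∈ Finset.range n, MvPolynomial.X k * MvPolynomial.C (x g ^ k)) •
    (MvPolynomial.C.comp κ).mapMatrix (N g) :
      Matrix (Fin d) (Fin d) (MvPolynomial ℕ Ω)).det, fun p => ?_⟩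
  rw [RingHom.map_det]
  congr 1
  unfold H90LT
  rw [map_sum]
  refine Finset.sum_congr rfl fun g _ => ?_
  ext i j
  simp [RingHom.mapMatrix_apply, Matrix.map_apply, Matrix.smul_apply]

/-- for suitable parameters it is the identity matrix -/
private theorem H90L_one (κ : K →+* Ω) (N : G → Matrix (Fin d) (Fin d) K) (hN1 : N 1 = 1)
    (x : G → Ω) (hx : Function.Injective x) :
    ∃ (n : ℕ) (p : ℕ → Ω), H90LT κ N n x p = 1 := by
  classical
  obtain ⟨f, hf⟩ : ∃ f : Polynomial Ω, f = Lagrange.basis Finset.univ x 1 := ⟨_, rfl⟩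
  refine ⟨f.natDegree + 1, f.coeff, ?_⟩
  have h1 : ∀ g, ∑ k ∈ Finset.range (f.natDegree + 1), f.coeff k * x g ^ k =
      if g = 1 then 1 else 0 := by
    intro g
    rw [← Polynomial.eval_eq_sum_range, hf]
    split_ifs with h
    · rw [h]
      exact Lagrange.eval_basis_self (fun a _ b _ h => hx h) (Finset.mem_univ _)
    · exact Lagrange.eval_basis_of_ne (fun h' => h h'.symm) (Finset.mem_univ _)
  unfold H90LT
  rw [Finset.sum_eq_single 1]
  · rw [h1, if_pos rfl, one_smul, hN1, map_one]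
  · intro g _ hg
    rw [h1, if_neg hg, zero_smul]
  · intro h
    exact absurd (Finset.mem_univ _) h

end

/-- Proof: as `hilbert90_semi` in td/SH90.lean (copy the proof and the private lemmas; only the types
are changed: `K` is not an algebra over the field `L`). -/
theorem hilbert90_loc {L : Type} [Field L] [CharZero L] {Ω : Type} [Field Ω] [Algebra L Ω]
    [IsAlgClosed Ω] [Algebra.IsAlgebraic L Ω] {K : Type} [Field K] [Algebra kk K] {G : Type}
    [Group G] [Finite G] {α : G →* (K ≃ₐ[kk] K)} {ρ : (Ω ≃ₐ[L] Ω) →* G} (hρ : Cts ρ)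
    (lam : K →+* Ω) (hlam : ∀ τ x, τ (lam x) = lam (α (ρ τ) x)) {d : ℕ}
    (N : G → Matrix (Fin d) (Fin d) K) (hN1 : N 1 = 1)
    (hN : ∀ g h, N (g * h) = (N h).map (α g) * N g) :
    ∃ T : Matrix (Fin d) (Fin d) Ω, T.det ≠ 0 ∧
      ∀ τ : Ω ≃ₐ[L] Ω, T.map τ = (N (ρ τ)).map lam * T := by
  classical
  have : Fintype G := Fintype.ofFinite G
  have : CharZero Ω := charZero_of_injective_algebraMap (algebraMap L Ω).injective
  have : Infinite L := CharZero.infinite L
  obtain ⟨x, hx, hτ⟩ := exists_equivariant hρ G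
  obtain ⟨n, p₀, hp₀⟩ := H90L_one lam N hN1 x hx
  obtain ⟨D, hD⟩ := H90L_poly lam N n x
  have hD0 : D ≠ 0 := by
    intro h
    have h1 := hD p₀
    rw [h, map_zero, hp₀, det_one] at h1
    exact zero_ne_one h1
  obtain ⟨p, hp, hpD⟩ : ∃ p ∈ Set.pi Set.univ (fun _ : ℕ => Set.range (algebraMap L Ω)),
      MvPolynomial.eval p D ≠ 0 := by
    by_contra hcon
    push Not at hcon
    apply hD0
    refine MvPolynomial.funext_set (fun _ : ℕ => Set.range (algebraMap L Ω))
      (fun _ => Set.infinite_range_of_injective (algebraMap L Ω).injective) fun y hy => ?_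
    rw [map_zero]
    exact hcon y hy
  have hpτ : ∀ (τ : Ω ≃ₐ[L] Ω) (j : ℕ), τ (p j) = p j := by
    intro τ j
    obtain ⟨a, ha⟩ := hp j (Set.mem_univ j)
    rw [← ha]
    exact τ.commutes a
  have hdet : (H90LT lam N n x p).det ≠ 0 := by
    rw [← hD]
    exact hpD
  -- the relation for the matrix with the parameters `p`
  have hrel : ∀ τ : Ω ≃ₐ[L] Ω,
      (H90LT lam N n x p).map τ * lam.mapMatrix (N (ρ τ)) = H90LT lam N n x p := by
    intro τ
    have h1 : (H90LT lam N n x p).map τ = ∑ g, (∑ j ∈ Finset.range n, p j * x (ρ τ * g) ^ j) •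
        lam.mapMatrix ((N g).map (α (ρ τ))) := by
      ext i j
      unfold H90LT
      rw [Matrix.map_apply, Matrix.sum_apply, Matrix.sum_apply, map_sum]
      refine Finset.sum_congr rfl fun g _ => ?_
      rw [Matrix.smul_apply, Matrix.smul_apply, smul_eq_mul, smul_eq_mul, map_mul, map_sum]
      congr 1
      · refine Finset.sum_congr rfl fun l _ => ?_
        rw [map_mul, map_pow, hpτ, hτ, smul_eq_mul]
      · rw [RingHom.mapMatrix_apply, RingHom.mapMatrix_apply, Matrix.map_apply, Matrix.map_apply,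
          Matrix.map_apply, hlam]
    rw [h1]
    unfold H90LT
    rw [Finset.sum_mul]
    refine Fintype.sum_equiv (Equiv.mulLeft (ρ τ)) _ _ fun g => ?_
    rw [Matrix.smul_mul]
    show (∑ j ∈ Finset.range n, p j * x (ρ τ * g) ^ j) • _ =
      (∑ j ∈ Finset.range n, p j * x (ρ τ * g) ^ j) • lam.mapMatrix (N (ρ τ * g))
    rw [hN, map_mul]
  have hu : IsUnit (H90LT lam N n x p).det := isUnit_iff_ne_zero.2 hdet
  refine ⟨(H90LT lam N n x p)⁻¹, ?_, fun τ => ?_⟩
  · rw [Matrix.det_nonsing_inv]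
    exact (Ring.inverse_unit hu.unit ▸ (hu.unit⁻¹).isUnit).ne_zero
  · have h1 : (H90LT lam N n x p).map τ * ((H90LT lam N n x p)⁻¹).map τ = 1 := by
      have h2 := congrArg (fun A : Matrix (Fin d) (Fin d) Ω => A.map τ)
        (Matrix.mul_nonsing_inv _ hu)
      have h3 : ∀ A : Matrix (Fin d) (Fin d) Ω,
          A.map τ = (τ : Ω →+* Ω).mapMatrix A := fun A => rfl
      simp only [h3] at h2 ⊢
      rw [map_mul, map_one] at h2
      exact h2
    have h2 : (H90LT lam N n x p).map τ * (lam.mapMatrix (N (ρ τ)) * (H90LT lam N n x p)⁻¹) = 1 := by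
      rw [← Matrix.mul_assoc, hrel τ, Matrix.mul_nonsing_inv _ hu]
    have h3 : ((H90LT lam N n x p)⁻¹).map τ * (H90LT lam N n x p).map τ = 1 :=
      mul_eq_one_comm.1 h1
    have h4 : ((H90LT lam N n x p)⁻¹).map τ = lam.mapMatrix (N (ρ τ)) * (H90LT lam N n x p)⁻¹ := by
      calc ((H90LT lam N n x p)⁻¹).map τ = ((H90LT lam N n x p)⁻¹).map τ *
            ((H90LT lam N n x p).map τ * (lam.mapMatrix (N (ρ τ)) * (H90LT lam N n x p)⁻¹)) := by
            rw [h2, Matrix.mul_one]
        _ = lam.mapMatrix (N (ρ τ)) * (H90LT lam N n x p)⁻¹ := by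
            rw [← Matrix.mul_assoc, h3, Matrix.one_mul]
    exact h4

end NF83
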