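import Pool.Agent.H.MP_83e36b_nt.nf.Qa

/-! The core of the second duality in degree two, general case: the parametrisation. -/

set_option autoImplicit false

open Matrix SpinWA

namespace NF83

section
variable {K : Type*} [Field K]

/-- the bilinear form of `<d 0, d 1, d 2, d 3>` -/
def Bd (d x y : Fin 4 → K) : K :=
  d 0 * x 0 * y 0 + d 1 * x 1 * y 1 + d 2 * x 2 * y 2 + d 3 * x 3 * y 3

/-- the fourth vector -/
def D4 (d u v s : Fin 4 → K) : Fin 4 → K :=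
  ![(u 1 * (v 2 * s 3 - v 3 * s 2) - u 2 * (v 1 * s 3 - v 3 * s 1) +
      u 3 * (v 1 * s 2 - v 2 * s 1)) / d 0,
    -(u 0 * (v 2 * s 3 - v 3 * s 2) - u 2 * (v 0 * s 3 - v 3 * s 0) +
      u 3 * (v 0 * s 2 - v 2 * s 0)) / d 1,
    (u 0 * (v 1 * s 3 - v 3 * s 1) - u 1 * (v 0 * s 3 - v 3 * s 0) +
      u 3 * (v 0 * s 1 - v 1 * s 0)) / d 2,
    -(u 0 * (v 1 * s 2 - v 2 * s 1) - u 1 * (v 0 * s 2 - v 2 * s 0) +
      u 2 * (v 0 * s 1 - v 1 * s 0)) / d 3]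

theorem D4_u {d : Fin 4 → K} (hd : ∀ i, d i ≠ 0) (u v s : Fin 4 → K) : Bd d u (D4 d u v s) = 0 := by
  have h0 := hd 0
  have h1 := hd 1
  have h2 := hd 2
  have h3 := hd 3
  simp only [Bd, D4, Matrix.cons_val_zero, Matrix.cons_val_one, Matrix.cons_val]
  field_simp
  ring

theorem D4_v {d : Fin 4 → K} (hd : ∀ i, d i ≠ 0) (u v s : Fin 4 → K) : Bd d v (D4 d u v s) = 0 := by
  have h0 := hd 0
  have h1 := hd 1
  have h2 := hd 2
  have h3 := hd 3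
  simp only [Bd, D4, Matrix.cons_val_zero, Matrix.cons_val_one, Matrix.cons_val]
  field_simp
  ring

theorem D4_s {d : Fin 4 → K} (hd : ∀ i, d i ≠ 0) (u v s : Fin 4 → K) : Bd d s (D4 d u v s) = 0 := by
  have h0 := hd 0
  have h1 := hd 1
  have h2 := hd 2
  have h3 := hd 3
  simp only [Bd, D4, Matrix.cons_val_zero, Matrix.cons_val_one, Matrix.cons_val]
  field_simp
  ring

theorem D4_gram {d : Fin 4 → K} (hd : ∀ i, d i ≠ 0) (u v s : Fin 4 → K) :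
    Bd d u u * Bd d v v * Bd d s s + 2 * Bd d u v * Bd d v s * Bd d u s -
      Bd d u u * Bd d v s ^ 2 - Bd d v v * Bd d u s ^ 2 - Bd d s s * Bd d u v ^ 2 =
      d 0 * d 1 * d 2 * d 3 * Bd d (D4 d u v s) (D4 d u v s) := by
  have h0 := hd 0
  have h1 := hd 1
  have h2 := hd 2
  have h3 := hd 3
  simp only [Bd, D4, Matrix.cons_val_zero, Matrix.cons_val_one, Matrix.cons_val]
  field_simp
  ring

theorem Bd_comm (d x y : Fin 4 → K) : Bd d x y = Bd d y x := by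
  simp only [Bd]
  ring

theorem Q1_entry (d : Fin 4 → K) (P : Matrix (Fin 4) (Fin 4) K) (i j : Fin 4) :
    (Pᵀ * diagonal d * P) i j = Bd d (fun l => P l i) (fun l => P l j) := by
  rw [Matrix.mul_apply]
  simp only [Matrix.mul_diagonal, Matrix.transpose_apply]
  simp only [Bd, Fin.sum_univ_four]
  ring

theorem Q1_four (h2 : (2 : K) ≠ 0) {d : Fin 4 → K} (hd : ∀ i, d i ≠ 0) {u v s : Fin 4 → K}
    (huv : Bd d u v = 0) (hus : Bd d u s = 0)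
    (hvs : Bd d v s = 0) (hu : Bd d u u ≠ 0) (hv : Bd d v v ≠ 0) (hs : Bd d s s ≠ 0) :
    ∑ i, cl (d i) = cl (Bd d u u) + cl (Bd d v v) + cl (Bd d s s) +
        cl (Bd d u u * Bd d v v * Bd d s s / (d 0 * d 1 * d 2 * d 3)) := by
  have hD : d 0 * d 1 * d 2 * d 3 ≠ 0 := mul_ne_zero (mul_ne_zero (mul_ne_zero (hd 0) (hd 1))
    (hd 2)) (hd 3)
  obtain ⟨t, ht⟩ : ∃ t, t = D4 d u v s := ⟨_, rfl⟩
  have hut : Bd d u t = 0 := by rw [ht]; exact D4_u hd u v s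
  have hvt : Bd d v t = 0 := by rw [ht]; exact D4_v hd u v s
  have hst : Bd d s t = 0 := by rw [ht]; exact D4_s hd u v s
  have htt : Bd d t t = Bd d u u * Bd d v v * Bd d s s / (d 0 * d 1 * d 2 * d 3) := by
    have h := D4_gram hd u v s
    rw [huv, hus, hvs, ← ht] at h
    rw [eq_div_iff hD]
    linear_combination -h
  have ht0 : Bd d t t ≠ 0 := by
    rw [htt]
    exact div_ne_zero (mul_ne_zero (mul_ne_zero hu hv) hs) hD
  rw [← htt]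
  have e1 := cls_diagonal h2 hd
  have hdd : ∀ i, (![Bd d u u, Bd d v v, Bd d s s, Bd d t t] : Fin 4 → K) i ≠ 0 := by
    intro i
    fin_cases i
    · exact hu
    · exact hv
    · exact hs
    · exact ht0
  obtain ⟨P, hP⟩ : ∃ P : Matrix (Fin 4) (Fin 4) K, P = (Matrix.of ![u, v, s, t])ᵀ := ⟨_, rfl⟩
  have hc : Pᵀ * diagonal d * P = diagonal ![Bd d u u, Bd d v v, Bd d s s, Bd d t t] := by
    ext i j
    rw [Q1_entry, hP]
    have e : ∀ i, (fun l => ((Matrix.of ![u, v, s, t])ᵀ : Matrix (Fin 4) (Fin 4) K) l i) =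
        (![u, v, s, t] : Fin 4 → Fin 4 → K) i := fun i => rfl
    rw [e, e]
    fin_cases i <;> fin_cases j <;>
      simp [huv, hus, hvs, hut, hvt, hst, Bd_comm d v u, Bd_comm d s u, Bd_comm d s v,
        Bd_comm d t u, Bd_comm d t v, Bd_comm d t s]
  have hPd : P.det ≠ 0 := by
    intro h
    have h1 := congrArg Matrix.det hc
    rw [det_mul, h, mul_zero, det_diagonal] at h1
    exact Finset.prod_ne_zero_iff.2 (fun i _ => hdd i) h1.symm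
  have e2 := cls_eq_sum h2 hdd (A := diagonal d) ⟨P, hPd, hc⟩
  rw [e1] at e2
  rw [e2, Fin.sum_univ_four]
  rfl

/-- the Witt class of the core in degree two -/
theorem Q1_core (h2 : (2 : K) ≠ 0) (c : K) (a : Fin (1 + 1) → K) (h0 : a 0 ≠ 0) (h1 : a 1 ≠ 0)
    (hd : a 1 ^ 2 - 4 * a 0 ≠ 0) :
    coreF c 1 a = cl 2 + cl (2 * c * a 0) + (cl 1 + cl (a 1 ^ 2 - 4 * a 0)) +
      (cl (2 * a 1) + cl (2 * a 1 * a 0 * (a 1 ^ 2 - 4 * a 0))) := by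
  unfold coreF
  have e : cf a 0 = a 0 := rfl
  rw [e, mul_one, Qa_cls h2 a hd, Qa_cls1 h2 a h0 h1 hd]

/-- the parametrisation -/
theorem Q1_fwd (h2 : (2 : K) ≠ 0) {c : K} (hc : c ≠ 0) {d : Fin 4 → K} (hd : ∀ i, d i ≠ 0) {δ : K}
    (hδ : d 0 * d 1 * d 2 * d 3 = 2 * c * δ ^ 2) {u v s : Fin 4 → K} (huv : Bd d u v = 0)
    (hus : Bd d u s = 0) (hvs : Bd d v s = 0) (h1 : Bd d v v + 2 / c * Bd d u u = 1)
    (hu : Bd d u u ≠ 0) (hv : Bd d v v ≠ 0) (hs : Bd d s s ≠ 0) (a : Fin (1 + 1) → K)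
    (ha1 : a 1 = Bd d s s / 2) (ha0 : a 0 = (Bd d s s / 2) ^ 2 * Bd d u u / (2 * c)) :
    (hk a).det ≠ 0 ∧ a 0 ≠ 0 ∧ coreF c 1 a = cl 2 + cl 1 + ∑ i, cl (d i) := by
  have hr : Bd d s s / 2 ≠ 0 := div_ne_zero hs h2
  have h2c : 2 * c ≠ 0 := mul_ne_zero h2 hc
  have hD : d 0 * d 1 * d 2 * d 3 ≠ 0 := mul_ne_zero (mul_ne_zero (mul_ne_zero (hd 0) (hd 1))
    (hd 2)) (hd 3)
  have hδ0 : δ ≠ 0 := by
    rintro rfl
    apply hD
    rw [hδ]
    ring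
  have hΔ : a 1 ^ 2 - 4 * a 0 = Bd d v v * (Bd d s s / 2) ^ 2 := by
    rw [ha1, ha0]
    have e : Bd d v v = 1 - 2 / c * Bd d u u := by rw [← h1]; ring
    rw [e]
    field_simp
    ring
  have hdd : a 1 ^ 2 - 4 * a 0 ≠ 0 := by
    rw [hΔ]
    exact mul_ne_zero hv (pow_ne_zero _ hr)
  have hb : a 0 ≠ 0 := by
    rw [ha0]
    exact div_ne_zero (mul_ne_zero (pow_ne_zero _ hr) hu) h2c
  have hρ : a 1 ≠ 0 := by rw [ha1]; exact hr
  refine ⟨by rw [Qa_hk]; exact hdd, hb, ?_⟩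
  rw [Q1_core h2 c a hb hρ hdd]
  have c1 : cl (2 * c * a 0) = cl (Bd d u u) := by
    rw [← cl_mul_sq (Bd d u u) hr]
    congr 1
    rw [ha0]
    field_simp
  have c2 : cl (a 1 ^ 2 - 4 * a 0) = cl (Bd d v v) := by
    rw [hΔ, cl_mul_sq _ hr]
  have c3 : cl (2 * a 1) = cl (Bd d s s) := by
    congr 1
    rw [ha1]
    field_simp
  have c4 : cl (2 * a 1 * a 0 * (a 1 ^ 2 - 4 * a 0)) =
      cl (Bd d u u * Bd d v v * Bd d s s / (d 0 * d 1 * d 2 * d 3)) := by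
    rw [← cl_mul_sq (Bd d u u * Bd d v v * Bd d s s / (d 0 * d 1 * d 2 * d 3))
      (mul_ne_zero hδ0 (pow_ne_zero 2 hr)), hΔ, hδ]
    congr 1
    rw [ha0, ha1]
    field_simp
  rw [c1, c2, c3, c4, Q1_four h2 hd huv hus hvs hu hv hs]
  abel

/-- the converse -/
theorem Q1_bwd (h2 : (2 : K) ≠ 0) {c : K} (hc : c ≠ 0) {d : Fin 4 → K} (hd : ∀ i, d i ≠ 0)
    (a : Fin (1 + 1) → K) (h0 : a 0 ≠ 0) (h1 : a 1 ≠ 0)
    (hΔ : a 1 ^ 2 - 4 * a 0 ≠ 0) (hcl : coreF c 1 a = cl 2 + cl 1 + ∑ i, cl (d i)) :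
    ∃ u v s : Fin 4 → K, Bd d u v = 0 ∧ Bd d u s = 0 ∧ Bd d v s = 0 ∧
      Bd d v v + 2 / c * Bd d u u = 1 ∧
      Bd d u u ≠ 0 ∧ Bd d v v ≠ 0 ∧ Bd d s s ≠ 0 ∧ a 1 = Bd d s s / 2 ∧
      a 0 = (Bd d s s / 2) ^ 2 * Bd d u u / (2 * c) := by
  have h2c : 2 * c ≠ 0 := mul_ne_zero h2 hc
  have hX : 2 * a 1 * a 0 * (a 1 ^ 2 - 4 * a 0) ≠ 0 :=
    mul_ne_zero (mul_ne_zero (mul_ne_zero h2 h1) h0) hΔ
  rw [Q1_core h2 c a h0 h1 hΔ] at hcl
  obtain ⟨D, hD⟩ : ∃ D : Fin 4 → K, D = ![2 * c * a 0, a 1 ^ 2 - 4 * a 0, 2 * a 1,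
    2 * a 1 * a 0 * (a 1 ^ 2 - 4 * a 0)] := ⟨_, rfl⟩
  have hDD : ∀ i, D i ≠ 0 := by
    intro i
    rw [hD]
    fin_cases i
    · exact mul_ne_zero h2c h0
    · exact hΔ
    · exact mul_ne_zero h2 h1
    · exact hX
  have e1 := cls_diagonal h2 hd
  have e2 := cls_diagonal h2 hDD
  have e3 : cls (diagonal d) = cls (diagonal D) := by
    rw [e1, e2, Fin.sum_univ_four (fun i => cl (D i)), hD]
    show ∑ i, cl (d i) = cl (2 * c * a 0) + cl (a 1 ^ 2 - 4 * a 0) + cl (2 * a 1) +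
      cl (2 * a 1 * a 0 * (a 1 ^ 2 - 4 * a 0))
    have f2 : (cl 2 + cl 1) + (cl (2 * c * a 0) + cl (a 1 ^ 2 - 4 * a 0) + cl (2 * a 1) +
        cl (2 * a 1 * a 0 * (a 1 ^ 2 - 4 * a 0))) =
        cl 2 + cl (2 * c * a 0) + (cl 1 + cl (a 1 ^ 2 - 4 * a 0)) +
          (cl (2 * a 1) + cl (2 * a 1 * a 0 * (a 1 ^ 2 - 4 * a 0))) := by abel
    rw [← f2] at hcl
    exact (add_left_cancel hcl).symm
  obtain ⟨P, hP, hPD⟩ := cong_of_cls h2 (A := diagonal d) (B := diagonal D)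
    (diagonal_transpose _) (by rw [det_diagonal]; exact Finset.prod_ne_zero_iff.2 fun i _ => hd i)
    (diagonal_transpose _) (by rw [det_diagonal]; exact Finset.prod_ne_zero_iff.2 fun i _ => hDD i)
    e3
  have hent : ∀ i j, Bd d (fun l => P l i) (fun l => P l j) = diagonal D i j := fun i j => by
    rw [← Q1_entry, hPD]
  have hsm : ∀ (r r' : K) (x y : Fin 4 → K), Bd d (r • x) (r' • y) = r * r' * Bd d x y := by
    intro r r' x y
    simp only [Bd, Pi.smul_apply, smul_eq_mul]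
    ring
  have D0 : D 0 = 2 * c * a 0 := by rw [hD]; rfl
  have D1 : D 1 = a 1 ^ 2 - 4 * a 0 := by rw [hD]; rfl
  have D2 : D 2 = 2 * a 1 := by rw [hD]; rfl
  have q0 := hent 0 0
  rw [diagonal_apply_eq, D0] at q0
  have q1 := hent 1 1
  rw [diagonal_apply_eq, D1] at q1
  have q2 := hent 2 2
  rw [diagonal_apply_eq, D2] at q2
  have q01 := hent 0 1
  rw [diagonal_apply_ne _ (by decide)] at q01
  have q02 := hent 0 2
  rw [diagonal_apply_ne _ (by decide)] at q02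
  have q12 := hent 1 2
  rw [diagonal_apply_ne _ (by decide)] at q12
  have hs1 : ∀ x : Fin 4 → K, Bd d (((a 1)⁻¹ : K) • fun l => P l 0) x =
      (a 1)⁻¹ * Bd d (fun l => P l 0) x := by
    intro x
    have := hsm (a 1)⁻¹ 1 (fun l => P l 0) x
    rwa [one_smul, mul_one] at this
  have hs2 : ∀ x : Fin 4 → K, Bd d (((a 1)⁻¹ : K) • fun l => P l 1) x =
      (a 1)⁻¹ * Bd d (fun l => P l 1) x := by
    intro x
    have := hsm (a 1)⁻¹ 1 (fun l => P l 1) x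
    rwa [one_smul, mul_one] at this
  refine ⟨(a 1)⁻¹ • (fun l => P l 0), (a 1)⁻¹ • (fun l => P l 1), fun l => P l 2,
    ?_, ?_, ?_, ?_, ?_, ?_, ?_, ?_, ?_⟩
  · rw [hsm, q01, mul_zero]
  · rw [hs1, q02, mul_zero]
  · rw [hs2, q12, mul_zero]
  · rw [hsm, hsm, q0, q1]
    field_simp
    ring
  · rw [hsm, q0]
    exact mul_ne_zero (mul_ne_zero (inv_ne_zero h1) (inv_ne_zero h1)) (mul_ne_zero h2c h0)
  · rw [hsm, q1]
    exact mul_ne_zero (mul_ne_zero (inv_ne_zero h1) (inv_ne_zero h1)) hΔ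
  · rw [q2]
    exact mul_ne_zero h2 h1
  · rw [q2]
    field_simp
  · rw [q2, hsm, q0]
    field_simp

end

end NF83
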