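import Pool.Agent.H.MP_83e36b_nt.rf.Q1

/-! The quadric `q(v + √γ u) = 1`: two reflections. -/

set_option autoImplicit false

open Matrix SpinWA Topology

namespace NF83

section
variable {K : Type*} [Field K]

/-- `q (n + √γ m) = Nd + √γ Md` -/
def Nd (d : Fin 4 → K) (γ : K) (n m : Fin 4 → K) : K := Bd d n n + γ * Bd d m m

/-- `q (n + √γ m) = Nd + √γ Md` -/
def Md (d : Fin 4 → K) (n m : Fin 4 → K) : K := 2 * Bd d n m

/-- the norm of `q (n + √γ m)` -/
def Dd (d : Fin 4 → K) (γ : K) (n m : Fin 4 → K) : K := Nd d γ n m ^ 2 - γ * Md d n m ^ 2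

/-- the first coordinate of `2 b / q` -/
def L1d (d : Fin 4 → K) (γ : K) (n m v u : Fin 4 → K) : K :=
  2 * ((Bd d v n + γ * Bd d u m) * Nd d γ n m - γ * (Bd d v m + Bd d u n) * Md d n m) / Dd d γ n m

/-- the second coordinate of `2 b / q` -/
def L2d (d : Fin 4 → K) (γ : K) (n m v u : Fin 4 → K) : K :=
  2 * ((Bd d v m + Bd d u n) * Nd d γ n m - (Bd d v n + γ * Bd d u m) * Md d n m) / Dd d γ n m

/-- the reflection in `n + √γ m`, first coordinate -/
def Vd (d : Fin 4 → K) (γ : K) (n m v u : Fin 4 → K) : Fin 4 → K :=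
  fun i => v i - (L1d d γ n m v u * n i + γ * L2d d γ n m v u * m i)

/-- the reflection in `n + √γ m`, second coordinate -/
def Ud (d : Fin 4 → K) (γ : K) (n m v u : Fin 4 → K) : Fin 4 → K :=
  fun i => u i - (L1d d γ n m v u * m i + L2d d γ n m v u * n i)

theorem Q2_vv (d n m v : Fin 4 → K) (γ L1 L2 : K) :
    Bd d (fun i => v i - (L1 * n i + γ * L2 * m i)) (fun i => v i - (L1 * n i + γ * L2 * m i)) =
      Bd d v v - 2 * (L1 * Bd d v n + γ * L2 * Bd d v m) + L1 ^ 2 * Bd d n n +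
        2 * γ * L1 * L2 * Bd d n m + γ ^ 2 * L2 ^ 2 * Bd d m m := by
  simp only [Bd]
  ring

theorem Q2_uu (d n m u : Fin 4 → K) (L1 L2 : K) :
    Bd d (fun i => u i - (L1 * m i + L2 * n i)) (fun i => u i - (L1 * m i + L2 * n i)) =
      Bd d u u - 2 * (L1 * Bd d u m + L2 * Bd d u n) + L1 ^ 2 * Bd d m m +
        2 * L1 * L2 * Bd d n m + L2 ^ 2 * Bd d n n := by
  simp only [Bd]
  ring

theorem Q2_uv (d n m v u : Fin 4 → K) (γ L1 L2 : K) :
    Bd d (fun i => u i - (L1 * m i + L2 * n i)) (fun i => v i - (L1 * n i + γ * L2 * m i)) =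
      Bd d u v - (L1 * Bd d u n + γ * L2 * Bd d u m) - (L1 * Bd d v m + L2 * Bd d v n) +
        L1 ^ 2 * Bd d n m + L1 * L2 * (γ * Bd d m m + Bd d n n) + γ * L2 ^ 2 * Bd d n m := by
  simp only [Bd]
  ring

theorem Q2_L {d : Fin 4 → K} {γ : K} {n m v u : Fin 4 → K} (hD : Dd d γ n m ≠ 0) :
    L1d d γ n m v u * Nd d γ n m + γ * L2d d γ n m v u * Md d n m =
      2 * (Bd d v n + γ * Bd d u m) ∧
    L1d d γ n m v u * Md d n m + L2d d γ n m v u * Nd d γ n m =
      2 * (Bd d v m + Bd d u n) := by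
  unfold L1d L2d
  constructor
  · field_simp
    unfold Dd
    ring
  · field_simp
    unfold Dd
    ring

theorem Q2_one {d : Fin 4 → K} {γ : K} {n m v u : Fin 4 → K} (hD : Dd d γ n m ≠ 0) :
    Bd d (Vd d γ n m v u) (Vd d γ n m v u) + γ * Bd d (Ud d γ n m v u) (Ud d γ n m v u) =
      Bd d v v + γ * Bd d u u := by
  obtain ⟨h1, h2⟩ := Q2_L (v := v) (u := u) hD
  unfold Vd Ud
  rw [Q2_vv d n m v, Q2_uu d n m u]
  unfold Nd Md at h1 h2
  linear_combination L1d d γ n m v u * h1 + γ * L2d d γ n m v u * h2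

theorem Q2_two (h2' : (2 : K) ≠ 0) {d : Fin 4 → K} {γ : K} {n m v u : Fin 4 → K}
    (hD : Dd d γ n m ≠ 0) :
    Bd d (Ud d γ n m v u) (Vd d γ n m v u) = Bd d u v := by
  obtain ⟨h1, h2⟩ := Q2_L (v := v) (u := u) hD
  unfold Vd Ud
  rw [Q2_uv d n m v u]
  unfold Nd Md at h1 h2
  apply mul_left_cancel₀ h2'
  linear_combination L1d d γ n m v u * h2 + L2d d γ n m v u * h1

/-- the reflection in `Z - Z'` maps `Z'` to `Z` -/
theorem Q2_refl {d : Fin 4 → K} {γ : K} {v u v' u' : Fin 4 → K}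
    (h1 : Bd d v v + γ * Bd d u u = 1) (h2 : Bd d u v = 0)
    (h1' : Bd d v' v' + γ * Bd d u' u' = 1) (h2' : Bd d u' v' = 0)
    (hD : Dd d γ (fun i => v i - v' i) (fun i => u i - u' i) ≠ 0) :
    Vd d γ (fun i => v i - v' i) (fun i => u i - u' i) v' u' = v ∧
    Ud d γ (fun i => v i - v' i) (fun i => u i - u' i) v' u' = u := by
  obtain ⟨n, hn⟩ : ∃ n : Fin 4 → K, n = fun i => v i - v' i := ⟨_, rfl⟩
  obtain ⟨m, hm⟩ : ∃ m : Fin 4 → K, m = fun i => u i - u' i := ⟨_, rfl⟩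
  rw [← hn, ← hm] at hD ⊢
  have eP : 2 * (Bd d v' n + γ * Bd d u' m) = - Nd d γ n m := by
    have e1 : Bd d v' n = Bd d v v' - Bd d v' v' := by
      rw [hn]; simp only [Bd]; ring
    have e2 : Bd d u' m = Bd d u u' - Bd d u' u' := by
      rw [hm]; simp only [Bd]; ring
    have e3 : Bd d n n = Bd d v v - 2 * Bd d v v' + Bd d v' v' := by
      rw [hn]; simp only [Bd]; ring
    have e4 : Bd d m m = Bd d u u - 2 * Bd d u u' + Bd d u' u' := by
      rw [hm]; simp only [Bd]; ring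
    unfold Nd
    rw [e1, e2, e3, e4]
    linear_combination h1 - h1'
  have eQ : 2 * (Bd d v' m + Bd d u' n) = - Md d n m := by
    have e1 : Bd d v' m = Bd d u v' - Bd d u' v' := by
      rw [hm]; simp only [Bd]; ring
    have e2 : Bd d u' n = Bd d v u' - Bd d u' v' := by
      rw [hn]; simp only [Bd]; ring
    have e3 : Bd d n m = Bd d u v - Bd d v u' - Bd d u v' + Bd d u' v' := by
      rw [hn, hm]; simp only [Bd]; ring
    unfold Md
    rw [e1, e2, e3]
    linear_combination 2 * h2 - 2 * h2'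
  have l1 : L1d d γ n m v' u' = -1 := by
    unfold L1d
    rw [div_eq_iff hD]
    unfold Dd
    linear_combination Nd d γ n m * eP - γ * Md d n m * eQ
  have l2 : L2d d γ n m v' u' = 0 := by
    unfold L2d
    rw [div_eq_iff hD]
    linear_combination Nd d γ n m * eQ - Md d n m * eP
  constructor
  · funext i
    unfold Vd
    rw [l1, l2, hn, hm]
    ring
  · funext i
    unfold Ud
    rw [l1, l2, hn, hm]
    ring

theorem Q2_fin {d : Fin 4 → K} {γ : K} {v₀ u₀ v u v' u' : Fin 4 → K}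
    (h1 : Bd d v v + γ * Bd d u u = 1) (h2 : Bd d u v = 0)
    (h1' : Bd d v' v' + γ * Bd d u' u' = 1) (h2' : Bd d u' v' = 0)
    (hD : Dd d γ (fun i => v i - v' i) (fun i => u i - u' i) ≠ 0)
    {c c' : Fin 4 → K} (hc : Dd d γ c c' ≠ 0) (hv : Vd d γ c c' v₀ u₀ = v')
    (hu : Ud d γ c c' v₀ u₀ = u') :
    ∃ n m n' m' : Fin 4 → K, Dd d γ n m ≠ 0 ∧ Dd d γ n' m' ≠ 0 ∧
      Vd d γ n' m' (Vd d γ n m v₀ u₀) (Ud d γ n m v₀ u₀) = v ∧
      Ud d γ n' m' (Vd d γ n m v₀ u₀) (Ud d γ n m v₀ u₀) = u := by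
  refine ⟨c, c', _, _, hc, hD, ?_, ?_⟩
  · rw [hv, hu]
    exact (Q2_refl h1 h2 h1' h2' hD).1
  · rw [hv, hu]
    exact (Q2_refl h1 h2 h1' h2' hD).2

theorem Q2_D {d : Fin 4 → K} {γ : K} {v u v' u' : Fin 4 → K}
    (h1 : Bd d v v + γ * Bd d u u = 1) (h2 : Bd d u v = 0)
    (h1' : Bd d v' v' + γ * Bd d u' u' = 1) (h2' : Bd d u' v' = 0) :
    Dd d γ (fun i => v i - v' i) (fun i => u i - u' i) =
      4 * ((1 - (Bd d v v' + γ * Bd d u u')) ^ 2 - γ * (Bd d v u' + Bd d u v') ^ 2) := by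
  have e3 : Nd d γ (fun i => v i - v' i) (fun i => u i - u' i) =
      2 * (1 - (Bd d v v' + γ * Bd d u u')) := by
    have e : Nd d γ (fun i => v i - v' i) (fun i => u i - u' i) =
      (Bd d v v + γ * Bd d u u) + (Bd d v' v' + γ * Bd d u' u') -
        2 * (Bd d v v' + γ * Bd d u u') := by
      simp only [Nd, Bd]; ring
    rw [e, h1, h1']
    ring
  have e4 : Md d (fun i => v i - v' i) (fun i => u i - u' i) = - 2 * (Bd d v u' + Bd d u v') := by
    have e : Md d (fun i => v i - v' i) (fun i => u i - u' i) =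
      2 * (Bd d u v + Bd d u' v') - 2 * (Bd d v u' + Bd d u v') := by
      simp only [Md, Bd]; ring
    rw [e, h2, h2']
    ring
  unfold Dd
  rw [e3, e4]
  ring

/-- every point is the image of the base point under two reflections -/
theorem Q2_loc [CharZero K] {d : Fin 4 → K} {γ : K} {v₀ u₀ w : Fin 4 → K}
    (b1 : Bd d v₀ v₀ + γ * Bd d u₀ u₀ = 1) (b2 : Bd d u₀ v₀ = 0) (b3 : Bd d w v₀ = 0)
    (b4 : Bd d w u₀ = 0) (b5 : Bd d w w ≠ 0) {v u : Fin 4 → K}
    (h1 : Bd d v v + γ * Bd d u u = 1) (h2 : Bd d u v = 0) :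
    ∃ n m n' m' : Fin 4 → K, Dd d γ n m ≠ 0 ∧ Dd d γ n' m' ≠ 0 ∧
      Vd d γ n' m' (Vd d γ n m v₀ u₀) (Ud d γ n m v₀ u₀) = v ∧
      Ud d γ n' m' (Vd d γ n m v₀ u₀) (Ud d γ n m v₀ u₀) = u := by
  have t2 : (2 : K) ≠ 0 := two_ne_zero
  have t4 : (4 : K) ≠ 0 := by norm_num
  have z1 : ∀ x : Fin 4 → K, Bd d x 0 = 0 := fun x => by simp [Bd]
  have z2 : ∀ x : Fin 4 → K, Bd d 0 x = 0 := fun x => by simp [Bd]
  by_cases c1 : (1 - (Bd d v v₀ + γ * Bd d u u₀)) ^ 2 - γ * (Bd d v u₀ + Bd d u v₀) ^ 2 = 0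
  · by_cases c2 : (1 + (Bd d v v₀ + γ * Bd d u u₀)) ^ 2 - γ * (Bd d v u₀ + Bd d u v₀) ^ 2 = 0
    · -- the split case
      obtain ⟨x, hx⟩ : ∃ x, x = Bd d v v₀ + γ * Bd d u u₀ := ⟨_, rfl⟩
      obtain ⟨y, hy⟩ : ∃ y, y = Bd d v u₀ + Bd d u v₀ := ⟨_, rfl⟩
      rw [← hx, ← hy] at c1 c2
      have hx0 : x = 0 := (mul_eq_zero.1 (show 4 * x = 0 by linear_combination c2 - c1)).resolve_left
        t4
      have hγ : γ * y ^ 2 = 1 := by
        rw [hx0] at c1
        linear_combination -c1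
      obtain ⟨n, hn⟩ : ∃ n : Fin 4 → K, n = fun i => (v₀ i + γ * y * u₀ i + w i) / 2 := ⟨_, rfl⟩
      obtain ⟨m, hm⟩ : ∃ m : Fin 4 → K, m = fun i => y * (v₀ i + γ * y * u₀ i - w i) / 2 :=
        ⟨_, rfl⟩
      obtain ⟨A, hA⟩ : ∃ A, A = Bd d v₀ v₀ := ⟨_, rfl⟩
      obtain ⟨E, hE⟩ : ∃ E, E = Bd d u₀ u₀ := ⟨_, rfl⟩
      obtain ⟨κ, hκ⟩ : ∃ κ, κ = Bd d w w := ⟨_, rfl⟩
      rw [← hA, ← hE] at b1
      rw [← hκ] at b5
      have enn : Bd d n n = (A + γ ^ 2 * y ^ 2 * E + κ + 2 * γ * y * Bd d u₀ v₀ + 2 * Bd d w v₀ +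
          2 * γ * y * Bd d w u₀) / 4 := by
        rw [hn, hA, hE, hκ]; simp only [Bd]; field_simp; ring
      have emm : Bd d m m = y ^ 2 * (A + γ ^ 2 * y ^ 2 * E + κ + 2 * γ * y * Bd d u₀ v₀ -
          2 * Bd d w v₀ - 2 * γ * y * Bd d w u₀) / 4 := by
        rw [hm, hA, hE, hκ]; simp only [Bd]; field_simp; ring
      have enm : Bd d n m = y * (A + γ ^ 2 * y ^ 2 * E - κ + 2 * γ * y * Bd d u₀ v₀) / 4 := by
        rw [hn, hm, hA, hE, hκ]; simp only [Bd]; field_simp; ring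
      have evn : Bd d v₀ n = (A + γ * y * Bd d u₀ v₀ + Bd d w v₀) / 2 := by
        rw [hn, hA]; simp only [Bd]; field_simp; ring
      have eun : Bd d u₀ n = (Bd d u₀ v₀ + γ * y * E + Bd d w u₀) / 2 := by
        rw [hn, hE]; simp only [Bd]; field_simp; ring
      have evm : Bd d v₀ m = y * (A + γ * y * Bd d u₀ v₀ - Bd d w v₀) / 2 := by
        rw [hm, hA]; simp only [Bd]; field_simp; ring
      have eum : Bd d u₀ m = y * (Bd d u₀ v₀ + γ * y * E - Bd d w u₀) / 2 := by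
        rw [hm, hE]; simp only [Bd]; field_simp; ring
      rw [b2, b3, b4] at enn emm
      rw [b2] at enm
      rw [b2, b3] at evn evm
      rw [b2, b4] at eun eum
      have hp : A + γ ^ 2 * y ^ 2 * E = 1 := by linear_combination b1 + γ * E * hγ
      have hN : Nd d γ n m = (1 + κ) / 2 := by
        unfold Nd
        rw [enn, emm]
        linear_combination (1 + γ * y ^ 2) / 4 * hp + (1 + κ) / 4 * hγ
      have hM : Md d n m = y * (1 - κ) / 2 := by
        unfold Md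
        rw [enm]
        linear_combination y / 2 * hp
      have hDk : Dd d γ n m = κ := by
        unfold Dd
        rw [hN, hM]
        field_simp
        linear_combination (-(1 - κ) ^ 2) * hγ
      have hD : Dd d γ n m ≠ 0 := by rw [hDk]; exact b5
      have hPP : Bd d v₀ n + γ * Bd d u₀ m = 1 / 2 := by
        rw [evn, eum]
        field_simp
        linear_combination hp
      have hQQ : Bd d v₀ m + Bd d u₀ n = y / 2 := by
        rw [evm, eun]
        field_simp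
        linear_combination y * b1
      have l1 : L1d d γ n m v₀ u₀ = 1 := by
        unfold L1d
        rw [hPP, hQQ, hN, hM, hDk, div_eq_iff b5]
        field_simp
        linear_combination (-(1 - κ)) * hγ
      have l2 : L2d d γ n m v₀ u₀ = y := by
        unfold L2d
        rw [hPP, hQQ, hN, hM, hDk, div_eq_iff b5]
        field_simp
        ring
      obtain ⟨v', hv'⟩ : ∃ v' : Fin 4 → K, v' = fun i => - (γ * y * u₀ i) := ⟨_, rfl⟩
      obtain ⟨u', hu'⟩ : ∃ u' : Fin 4 → K, u' = fun i => - (y * v₀ i) := ⟨_, rfl⟩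
      have hV : Vd d γ n m v₀ u₀ = v' := by
        funext i
        unfold Vd
        rw [l1, l2, hn, hm, hv']
        field_simp
        linear_combination (-(v₀ i + γ * y * u₀ i - w i)) * hγ
      have hU : Ud d γ n m v₀ u₀ = u' := by
        funext i
        unfold Ud
        rw [l1, l2, hn, hm, hu']
        field_simp
        linear_combination (-2 * u₀ i) * hγ
      have h1' : Bd d v' v' + γ * Bd d u' u' = 1 := by
        have e1 : Bd d v' v' = γ ^ 2 * y ^ 2 * E := by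
          rw [hv', hE]; simp only [Bd]; ring
        have e2 : Bd d u' u' = y ^ 2 * A := by
          rw [hu', hA]; simp only [Bd]; ring
        rw [e1, e2]
        linear_combination b1 + (γ * E + A) * hγ
      have h2' : Bd d u' v' = 0 := by
        have e1 : Bd d u' v' = γ * y ^ 2 * Bd d u₀ v₀ := by
          rw [hu', hv']; simp only [Bd]; ring
        rw [e1, b2, mul_zero]
      refine Q2_fin h1 h2 h1' h2' ?_ hD hV hU
      rw [Q2_D h1 h2 h1' h2']
      have e1 : Bd d v v' + γ * Bd d u u' = -1 := by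
        have e : Bd d v v' + γ * Bd d u u' = - (γ * y) * (Bd d v u₀ + Bd d u v₀) := by
          rw [hv', hu']; simp only [Bd]; ring
        rw [e, ← hy]
        linear_combination -hγ
      have e2 : Bd d v u' + Bd d u v' = 0 := by
        have e : Bd d v u' + Bd d u v' = - y * (Bd d v v₀ + γ * Bd d u u₀) := by
          rw [hv', hu']; simp only [Bd]; ring
        rw [e, ← hx, hx0, mul_zero]
      rw [e1, e2]
      norm_num
    · -- `Z' = - Z₀`
      obtain ⟨v', hv'⟩ : ∃ v' : Fin 4 → K, v' = fun i => - v₀ i := ⟨_, rfl⟩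
      obtain ⟨u', hu'⟩ : ∃ u' : Fin 4 → K, u' = fun i => - u₀ i := ⟨_, rfl⟩
      have hN : Nd d γ v₀ u₀ = 1 := b1
      have hM : Md d v₀ u₀ = 0 := by
        unfold Md
        rw [Bd_comm, b2, mul_zero]
      have hDk : Dd d γ v₀ u₀ = 1 := by
        unfold Dd
        rw [hN, hM]
        ring
      have l1 : L1d d γ v₀ u₀ v₀ u₀ = 2 := by
        unfold L1d
        rw [hDk, hN, hM, b1]
        ring
      have l2 : L2d d γ v₀ u₀ v₀ u₀ = 0 := by
        unfold L2d
        rw [hDk, hN, hM, Bd_comm d v₀ u₀, b2]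
        ring
      have hV : Vd d γ v₀ u₀ v₀ u₀ = v' := by
        funext i
        unfold Vd
        rw [l1, l2, hv']
        ring
      have hU : Ud d γ v₀ u₀ v₀ u₀ = u' := by
        funext i
        unfold Ud
        rw [l1, l2, hu']
        ring
      have h1' : Bd d v' v' + γ * Bd d u' u' = 1 := by
        have e : Bd d v' v' + γ * Bd d u' u' = Bd d v₀ v₀ + γ * Bd d u₀ u₀ := by
          rw [hv', hu']; simp only [Bd]; ring
        rw [e, b1]
      have h2' : Bd d u' v' = 0 := by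
        have e1 : Bd d u' v' = Bd d u₀ v₀ := by
          rw [hu', hv']; simp only [Bd]; ring
        rw [e1, b2]
      refine Q2_fin h1 h2 h1' h2' ?_ (by rw [hDk]; exact one_ne_zero) hV hU
      rw [Q2_D h1 h2 h1' h2']
      have e1 : Bd d v v' + γ * Bd d u u' = - (Bd d v v₀ + γ * Bd d u u₀) := by
        rw [hv', hu']; simp only [Bd]; ring
      have e2 : Bd d v u' + Bd d u v' = - (Bd d v u₀ + Bd d u v₀) := by
        rw [hv', hu']; simp only [Bd]; ring
      rw [e1, e2]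
      intro h
      apply c2
      have h' := (mul_eq_zero.1 h).resolve_left t4
      rw [← h']
      ring
  · -- `Z' = Z₀`
    have hN : Nd d γ w 0 = Bd d w w := by
      unfold Nd
      rw [z1, mul_zero, add_zero]
    have hM : Md d w 0 = 0 := by
      unfold Md
      rw [z1, mul_zero]
    have hDk : Dd d γ w 0 = Bd d w w ^ 2 := by
      unfold Dd
      rw [hN, hM]
      ring
    have l1 : L1d d γ w 0 v₀ u₀ = 0 := by
      unfold L1d
      rw [hM, z1, Bd_comm d v₀ w, b3]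
      ring
    have l2 : L2d d γ w 0 v₀ u₀ = 0 := by
      unfold L2d
      rw [hM, z1, Bd_comm d u₀ w, b4]
      ring
    refine Q2_fin (c := w) (c' := 0) h1 h2 b1 b2 ?_ (by rw [hDk]; exact pow_ne_zero _ b5) ?_ ?_
    · rw [Q2_D h1 h2 b1 b2]
      exact mul_ne_zero t4 c1
    · funext i
      unfold Vd
      rw [l1, l2]
      ring
    · funext i
      unfold Ud
      rw [l1, l2]
      ring

end

end NF83
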