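import Mathlib

/-! Specialisation of a Galois extension of function fields: the values of the data at a point. -/

set_option autoImplicit false

open Polynomial

namespace NF83

variable {kk : Type} [Field kk] [CharZero kk]

/-- The values `r g` of the conjugates `β g y` of a primitive element `y` of a Galois extension with the
group `G`, at a point given by the homomorphism `ψ` from the ring `A` of coefficients: `Φ` is the
minimal polynomial of `y`, `R g` is a polynomial with `R g (y) = β g y`, and `Q` is a polynomial with
`Q (y) = a`, `a` a primitive element of `K / kk`. -/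
structure SpecPt {G : Type} [Group G] [Fintype G] {A : Type} [CommRing A] (Φ : A[X])
    (R : G → A[X]) (Q : A[X]) {K : Type} [Field K] [Algebra kk K] (α : G →* (K ≃ₐ[kk] K)) (a : K)
    {Ω : Type} [Field Ω] (ψ : A →+* Ω) (r : G → Ω) (κ : K →+* Ω) : Prop where
  inj : Function.Injective r
  root : Φ.map ψ = ∏ g, (X - C (r g))
  mul : ∀ g h, (R h).eval₂ ψ (r g) = r (g * h)
  kap : ∀ g, Q.eval₂ ψ (r g) = κ (α g a)

end NF83
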