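import Pool.Agent.H.MP_83e36b_nt.rf.ZWaR
import Pool.Agent.H.MP_83e36b_nt.rf.BP
import Pool.Agent.H.MP_83e36b_nt.sp.XLoc

/-! Weak approximation for the variety of trace forms, `n = 6, 7`, general form; as sp/XWa.lean. -/

set_option autoImplicit false

open Topology Matrix Polynomial SpinWA

namespace NF83

private theorem XWa_box {α β γ : Type*} [TopologicalSpace α] [TopologicalSpace β]
    [TopologicalSpace γ] {p : α × β × γ → Prop} {a : α} {b : β} {c : γ}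
    (h : ∀ᶠ q in 𝓝 (a, b, c), p q) :
    ∃ U1 ∈ 𝓝 a, ∃ U2 ∈ 𝓝 b, ∃ U3 ∈ 𝓝 c, ∀ x ∈ U1, ∀ y ∈ U2, ∀ z ∈ U3, p (x, y, z) := by
  rw [Filter.Eventually, mem_nhds_prod_iff] at h
  obtain ⟨U1, hU1, W, hW, h2⟩ := h
  rw [mem_nhds_prod_iff] at hW
  obtain ⟨U2, hU2, U3, hU3, h3⟩ := hW
  exact ⟨U1, hU1, U2, hU2, U3, hU3, fun x hx y hy z hz =>
    h2 (Set.mk_mem_prod hx (h3 (Set.mk_mem_prod hy hz)))⟩

variable {kk : Type} [Field kk] [CharZero kk] [PlSys kk]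

theorem x_waR {e : ℕ} (he : e ≤ 1) (a₀ : Fin (2 * (1 + 1 + 1) + e) → kk) (h₀ : (hk a₀).det ≠ 0)
    (S : Finset (Pk kk))
    (x : ∀ v : Pk kk, (Fin (2 * (1 + 1 + 1) + e) → Cp v) ×
      Matrix (Fin (2 * (1 + 1 + 1) + e)) (Fin (2 * (1 + 1 + 1) + e)) (Cp v))
    (hx : ∀ v, (x v).2ᵀ * (hk a₀).map (em v) * (x v).2 = hk (x v).1 ∧ (x v).2.det ≠ 0)
    (U : ∀ v : Pk kk, Set ((Fin (2 * (1 + 1 + 1) + e) → Cp v) ×
      Matrix (Fin (2 * (1 + 1 + 1) + e)) (Fin (2 * (1 + 1 + 1) + e)) (Cp v)))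
    (hU : ∀ v ∈ S, U v ∈ 𝓝 (x v)) :
    ∃ (a : Fin (2 * (1 + 1 + 1) + e) → kk)
      (B : Matrix (Fin (2 * (1 + 1 + 1) + e)) (Fin (2 * (1 + 1 + 1) + e)) kk),
      Bᵀ * hk a₀ * B = hk a ∧ B.det ≠ 0 ∧
      ∀ v ∈ S, ((fun i => em v (a i)), B.map (em v)) ∈ U v := by
  classical
  obtain ⟨Q, hQdef⟩ : ∃ Q, Q = hk a₀ := ⟨_, rfl⟩
  have hQ : Qᵀ = Q := by rw [hQdef, hk_transpose]
  have hd : Q.det ≠ 0 := by rw [hQdef]; exact h₀
  have hR : HasBase Q.det (cls Q - e • cl 1) := by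
    obtain ⟨a, h1, h2, h3⟩ := base_point he a₀ h₀
    have h4 := hasBase_of (two_ne_zero) h₀ a h1 h2
    rw [hQdef, ← h3]
    have h5 : e • cl 1 + coreF (hk a₀).det 1 a - e • cl (1 : kk) = coreF (hk a₀).det 1 a :=
      add_sub_cancel_left _ _
    rw [h5]
    exact h4
  rw [← hQdef] at hx ⊢
  have hQv : ∀ v : Pk kk, (Q.map (em v))ᵀ = Q.map (em v) := by
    intro v
    rw [← Matrix.transpose_map, hQ]
  have hdv : ∀ v : Pk kk, (Q.map (em v)).det ≠ 0 := by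
    intro v
    have h1 : (Q.map (em v)).det = em v Q.det := by
      rw [RingHom.map_det, RingHom.mapMatrix_apply]
    rw [h1]
    exact (map_ne_zero (em v)).2 hd
  have hU' : ∀ v, (if v ∈ S then U v else Set.univ) ∈ 𝓝 (x v) := by
    intro v
    split_ifs with hv
    · exact hU v hv
    · exact Filter.univ_mem
  have hloc := fun v : Pk kk => x_loc (Rat.castHom (Cp v)) he (hQv v) (hdv v) (x v) (hx v).1
    (hx v).2 (hU' v)
  choose g y C hC hCd hev using hloc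
  have hnb : ∀ v : Pk kk, ∃ U1 ∈ 𝓝 (g v), ∃ U2 ∈ 𝓝 (y v), ∃ U3 ∈ 𝓝 (C v),
      ∀ a ∈ U1, ∀ b ∈ U2, ∀ c ∈ U3, (kryM (xop e a b)).det ≠ 0 ∧
        (cpc (xop e a b), c * kryM (xop e a b)) ∈ (if v ∈ S then U v else Set.univ) := by
    intro v
    obtain ⟨U1, hU1, U2, hU2, U3, hU3, h1⟩ := XWa_box (hev v)
    refine ⟨U1, hU1, U2, hU2, U3, hU3, fun a ha b hb c hc => ?_⟩
    have h4 := h1 a ha b hb c hc
    dsimp only at h4
    exact h4
  choose U1 hU1 U2 hU2 U3 hU3 hmem using hnb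
  obtain ⟨G, C', hG, hC'd, hGC⟩ := z_waR he hQ hd hR (insert (p0 kk) S)
    (Finset.mem_insert_self _ _) g C hC hCd U1
    (fun v _ => hU1 v) U3 (fun v _ => hU3 v)
  obtain ⟨y', hy'⟩ := wa_fun (insert (p0 kk) S) y U2 (fun v _ => hU2 v)
  have hall : ∀ v ∈ insert (p0 kk) S,
      (kryM ((xop e G y').map (em v))).det ≠ 0 ∧
      (cpc ((xop e G y').map (em v)), C'.map (em v) * kryM ((xop e G y').map (em v))) ∈
        (if v ∈ S then U v else Set.univ) := by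
    intro v hv
    have h1 := hmem v _ (hGC v hv).1 _ (hy' v hv) _ (hGC v hv).2
    rw [← xop_map] at h1
    exact h1
  have hX : (kryM (xop e G y')).det ≠ 0 := by
    intro h0
    apply (hall (p0 kk) (Finset.mem_insert_self _ _)).1
    rw [← kryM_det_map, h0, map_zero]
  have hgam : (gamM (dbl e G)).det ≠ 0 := by
    rw [← hG, Matrix.det_mul, Matrix.det_mul, Matrix.det_transpose]
    exact mul_ne_zero (mul_ne_zero hC'd hd) hC'd
  have hhk : (hk (dbl e G)).det ≠ 0 := (det_hk_dbl he G).2 hgam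
  refine ⟨cpc (xop e G y'), C' * kryM (xop e G y'), ?_, ?_, ?_⟩
  · rw [← bwd he G y' hhk hX, ← hG, Matrix.transpose_mul]
    simp only [Matrix.mul_assoc]
  · rw [Matrix.det_mul]
    exact mul_ne_zero hC'd hX
  · intro v hv
    have h1 := (hall v (Finset.mem_insert_of_mem hv)).2
    rw [if_pos hv] at h1
    have e1 : (fun i => em v (cpc (xop e G y') i)) = cpc ((xop e G y').map (em v)) := by
      funext i
      exact cpc_map (em v) _ i
    rw [e1, Matrix.map_mul, kryM_map]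
    exact h1

end NF83
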